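import Pool.Agent.W_7d29a1_h46.Win
import Pool.Agent.W_MP_7d29a1_pr.Main

/-!
The lower bound `1 / (d + 2)` for the wandering exponent `ν(h, v)`, for every tilt and every
direction.
-/

set_option autoImplicit false

namespace Pool.Agent.W_7d29a1_h46

open MeasureTheory ProbabilityTheory Filter Topology Pool.Agent.W_MP_7d29a1_pr

variable {d : ℕ}

/-! ### Vectors -/

lemma all_emb_add (x y : Site d) : emb (x + y) = emb x + emb y := by
  ext j
  simp [emb]

lemma all_emb_nsmul (k : ℕ) (x : Site d) : emb (k • x) = (k : ℝ) • emb x := by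
  ext j
  simp [emb]

lemma all_emb_zero : emb (0 : Site d) = 0 := by
  ext j
  simp [emb]

lemma all_norm_vec (e : Step d) : ‖emb (vec e)‖ = 1 := by
  rw [norm_emb]
  exact nrm_vec e

lemma all_emb_neg (j : Fin d) : emb (vec (j, false)) = - emb (vec (j, true)) := by
  ext i
  by_cases h : i = j
  · subst h
    simp [emb, vec]
  · simp [emb, vec, Pi.single_eq_of_ne h]

/-- There is a unit step at distance at least `1` from `v`. -/
lemma all_step (hd : 0 < d) (v : Vec d) : ∃ e : Step d, 1 ≤ ‖emb (vec e) - v‖ := by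
  by_contra hcon
  push Not at hcon
  have h1 := hcon (⟨0, hd⟩, true)
  have h2 := hcon (⟨0, hd⟩, false)
  rw [all_emb_neg] at h2
  have h3 := all_norm_vec ((⟨0, hd⟩, true) : Step d)
  have h4 : (2 : ℝ) • emb (vec ((⟨0, hd⟩, true) : Step d)) =
      (emb (vec ((⟨0, hd⟩, true) : Step d)) - v) -
        (-emb (vec ((⟨0, hd⟩, true) : Step d)) - v) := by
    rw [two_smul]
    abel
  have h5 : ‖(2 : ℝ) • emb (vec ((⟨0, hd⟩, true) : Step d))‖ = 2 := by
    rw [norm_smul, h3]
    norm_num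
  rw [h4] at h5
  have h6 := norm_sub_le (emb (vec ((⟨0, hd⟩, true) : Step d)) - v)
    (-emb (vec ((⟨0, hd⟩, true) : Step d)) - v)
  linarith

/-! ### Concatenation -/

/-- Shifted environment. -/
def shiftS (e : Step d) (k : ℕ) (η : ℕ × Site d → ℝ) : ℕ × Site d → ℝ :=
  fun p => η (p.1 + k, p.2 + k • vec e)

/-- Concatenation of a straight path of length `k` with `s`. -/
def catS (e : Step d) (k : ℕ) {m : ℕ} (s : Fin m → Step d) : Fin (k + m) → Step d :=
  Fin.append (fun _ : Fin k => e) s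

lemma catS_injective (e : Step d) (k m : ℕ) :
    Function.Injective (catS e k : (Fin m → Step d) → Fin (k + m) → Step d) := by
  intro s s' h
  funext i
  have := congrFun h (Fin.natAdd k i)
  simpa [catS] using this

lemma pos_catS (e : Step d) (k : ℕ) {m : ℕ} (s : Fin m → Step d) (i : ℕ) :
    pos (catS e k s) i = (min i k) • vec e + pos s (i - k) := by
  unfold pos
  rw [Fin.sum_univ_add]
  congr 1
  · rw [← sum_fin_ite_lt]
    refine Finset.sum_congr rfl fun j _ => ?_
    simp [catS]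
  · refine Finset.sum_congr rfl fun j _ => ?_
    have h : ((Fin.natAdd k j : Fin (k + m)) : ℕ) < i ↔ (j : ℕ) < i - k := by
      rw [Fin.val_natAdd]
      omega
    simp only [h]
    simp [catS]

lemma energy_catS (e : Step d) (k : ℕ) {m : ℕ} (η : ℕ × Site d → ℝ) (s : Fin m → Step d) :
    energy η (catS e k s) =
      (∑ i ∈ Finset.range k, η (i + 1, (i + 1) • vec e)) + energy (shiftS e k η) s := by
  unfold energy
  rw [Fin.sum_univ_add]
  congr 1
  · rw [← Fin.sum_univ_eq_sum_range (fun i => η (i + 1, (i + 1) • vec e)) k]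
    refine Finset.sum_congr rfl fun i _ => ?_
    rw [pos_catS, Fin.val_castAdd, min_eq_left (by omega), Nat.sub_eq_zero_of_le (by omega)]
    simp [pos]
  · refine Finset.sum_congr rfl fun i _ => ?_
    rw [pos_catS, Fin.val_natAdd, min_eq_right (by omega)]
    unfold shiftS
    congr 1
    rw [Prod.mk.injEq]
    refine ⟨by ring, ?_⟩
    rw [add_comm, show k + (i : ℕ) + 1 - k = (i : ℕ) + 1 by omega]

lemma wgt_catS (β : ℝ) (h : Vec d) (e : Step d) (k : ℕ) {m : ℕ} (η : ℕ × Site d → ℝ)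
    (s : Fin m → Step d) : wgt β h η (catS e k s) =
      Real.exp (k * inner ℝ h (emb (vec e)) +
        β * ∑ i ∈ Finset.range k, η (i + 1, (i + 1) • vec e)) * wgt β h (shiftS e k η) s := by
  unfold wgt
  rw [← Real.exp_add, energy_catS, pos_catS, min_eq_right (by omega),
    show k + m - k = m by omega, all_emb_add, all_emb_nsmul, inner_add_right, inner_smul_right]
  congr 1
  ring

lemma ZT_catS (β : ℝ) (h : Vec d) (e : Step d) (k m : ℕ) (η : ℕ × Site d → ℝ)
    (E : Set (Fin m → Step d)) :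
    Real.exp (k * inner ℝ h (emb (vec e)) +
      β * ∑ i ∈ Finset.range k, η (i + 1, (i + 1) • vec e)) * ZT β h (shiftS e k η) E ≤
      ZT β h η (Set.univ : Set (Fin (k + m) → Step d)) := by
  classical
  unfold ZT
  rw [Finset.mul_sum]
  have h1 : ∀ s : Fin m → Step d,
      Real.exp (k * inner ℝ h (emb (vec e)) +
        β * ∑ i ∈ Finset.range k, η (i + 1, (i + 1) • vec e)) *
        (if s ∈ E then wgt β h (shiftS e k η) s else 0) ≤ wgt β h η (catS e k s) := by
    intro s
    rw [wgt_catS]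
    split_ifs
    · exact le_rfl
    · rw [mul_zero]
      exact mul_nonneg (Real.exp_pos _).le (wgt_pos _ _ _ _).le
  refine (Finset.sum_le_sum fun s _ => h1 s).trans ?_
  have h2 : ∑ s : Fin m → Step d, wgt β h η (catS e k s) =
      ∑ s ∈ Finset.univ.image (catS e k : (Fin m → Step d) → Fin (k + m) → Step d),
        wgt β h η s := by
    rw [Finset.sum_image fun _ _ _ _ h => catS_injective e k m h]
  rw [h2]
  refine (Finset.sum_le_sum_of_subset_of_nonneg (Finset.subset_univ _)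
    fun s _ _ => (wgt_pos _ _ _ _).le).trans (le_of_eq ?_)
  refine Finset.sum_congr rfl fun s _ => ?_
  rw [if_pos (Set.mem_univ s)]

/-- The key deterministic inequality. -/
lemma log_ZT_ge (hd : 0 < d) {β : ℝ} {h v : Vec d} (e : Step d) (k m : ℕ) {η : ℕ × Site d → ℝ}
    {R r : ℝ} (hR : R ≤ r) (hP : 1 / 2 ≤ PolT β h η (tube d (k + m) v R))
    (hne : (tube d m v r).Nonempty) :
    k * inner ℝ h (emb (vec e)) + β * (∑ i ∈ Finset.range k, η (i + 1, (i + 1) • vec e)) -
      Real.log 2 + Real.log (ZT β h (shiftS e k η) (tube d m v r)) ≤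
      Real.log (ZT β h η (tube d (k + m) v r)) := by
  have h1 := (le_ZT_of_PolT hd hP).trans (ZT_mono β h η (tube_mono v hR))
  have h2 := ZT_catS β h e k m η (tube d m v r)
  have h3 := ZT_pos β h (shiftS e k η) hne
  have h4 : 1 / 2 * (Real.exp (k * inner ℝ h (emb (vec e)) +
      β * ∑ i ∈ Finset.range k, η (i + 1, (i + 1) • vec e)) *
      ZT β h (shiftS e k η) (tube d m v r)) ≤ ZT β h η (tube d (k + m) v r) := by
    linarith
  have h5 := Real.log_le_log (by positivity) h4
  rw [Real.log_mul (by norm_num) (by positivity), Real.log_mul (Real.exp_pos _).ne' h3.ne',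
    Real.log_exp, one_div, Real.log_inv] at h5
  linarith

lemma tube_zero (v : Vec d) {r : ℝ} (hr : 0 ≤ r) : tube d 0 v r = Set.univ := by
  rw [Set.eq_univ_iff_forall]
  intro s i hi
  have h0 : i = 0 := by omega
  subst h0
  have h1 : pos s 0 = 0 := by
    simp [pos]
  rw [h1, all_emb_zero]
  simpa using hr

lemma ZT_zero (β : ℝ) (h v : Vec d) (η : ℕ × Site d → ℝ) {r : ℝ} (hr : 0 ≤ r) :
    ZT β h η (tube d 0 v r) = 1 := by
  classical
  rw [tube_zero v hr]
  unfold ZT
  rw [Fintype.sum_unique, if_pos (Set.mem_univ _)]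
  unfold wgt
  have h1 : pos (default : Fin 0 → Step d) 0 = 0 := by
    simp [pos]
  have h2 : energy η (default : Fin 0 → Step d) = 0 := by
    simp [energy]
  rw [h1, h2, all_emb_zero]
  simp

/-! ### The logarithm of the partition function of a tube -/

/-- The log partition function of the tube. -/
noncomputable def XT (β : ℝ) (h v : Vec d) (r : ℝ) (n : ℕ) (η : ℕ × Site d → ℝ) : ℝ :=
  Real.log (ZT β h η (tube d n v r))

lemma all_sites {n : ℕ} {v : Vec d} {r : ℝ} {s : Fin n → Step d} (hs : s ∈ tube d n v r) :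
    sites s ⊆ VT d n 0 v r := by
  intro p hp
  obtain ⟨i, _, rfl⟩ := Finset.mem_image.1 hp
  rw [siteOf_mem_VT]
  exact ⟨by omega, hs _ i.2⟩

lemma XT_extF (β : ℝ) (h v : Vec d) (r : ℝ) (n : ℕ) (η : ℕ × Site d → ℝ) :
    XT β h v r n (extF (VT d n 0 v r) fun p => η p) = XT β h v r n η := by
  unfold XT
  rw [ZT_congr]
  intro s hs p hp
  unfold extF
  rw [dif_pos (all_sites hs hp)]

lemma measurable_XT (β : ℝ) (h v : Vec d) (r : ℝ) (n : ℕ) :
    Measurable (XT β h v r n : (ℕ × Site d → ℝ) → ℝ) :=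
  Real.measurable_log.comp (measurable_ZT β h _)

variable {Ω : Type*} [MeasurableSpace Ω] {μ : Measure Ω} {ρ : Measure ℝ}
  {ω : ℕ × Site d → Ω → ℝ}

lemma XT_law [IsProbabilityMeasure μ] (hω : IID μ ρ ω) (β : ℝ) (h v : Vec d) (r : ℝ) (n : ℕ)
    {B : Set ℝ} (hB : MeasurableSet B) :
    μ {x | XT β h v r n (fun p => ω p x) ∈ B} =
      (Measure.pi fun _ : VT d n 0 v r => ρ)
        {g | XT β h v r n (extF (VT d n 0 v r) g) ∈ B} := by
  have hind : iIndepFun (fun (p : VT d n 0 v r) => ω p) μ :=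
    hω.indep.precomp Subtype.val_injective
  have hmap := (iIndepFun_iff_map_fun_eq_pi_map (f := fun (p : VT d n 0 v r) => ω p)
    fun p => (hω.meas p).aemeasurable).1 hind
  simp only [hω.law] at hmap
  rw [← hmap, Measure.map_apply]
  · congr 1
    ext x
    change XT β h v r n (fun p => ω p x) ∈ B ↔
      XT β h v r n (extF (VT d n 0 v r) fun p => ω p x) ∈ B
    rw [XT_extF β h v r n (fun p => ω p x)]
  · exact measurable_pi_iff.2 fun p => hω.meas p
  · exact ((measurable_XT β h v r n).comp (measurable_extF _)) hB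

/-- The shift of sites. -/
def tauS (e : Step d) (k : ℕ) (p : ℕ × Site d) : ℕ × Site d := (p.1 + k, p.2 + k • vec e)

lemma tauS_injective (e : Step d) (k : ℕ) : Function.Injective (tauS e k) := by
  intro p q h
  unfold tauS at h
  rw [Prod.mk.injEq] at h
  exact Prod.ext (by omega) (add_right_cancel h.2)

lemma IID_shifted (hω : IID μ ρ ω) (e : Step d) (k : ℕ) :
    IID μ ρ (fun p => ω (tauS e k p)) :=
  ⟨fun _ => hω.meas _, hω.indep.precomp (tauS_injective e k), fun _ => hω.law _⟩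

/-- Laws of the log partition function agree for the shifted environment. -/
lemma XT_law_shift [IsProbabilityMeasure μ] (hω : IID μ ρ ω) (e : Step d) (β : ℝ) (h v : Vec d)
    (r : ℝ) (k m : ℕ) {B : Set ℝ} (hB : MeasurableSet B) :
    μ.real {x | XT β h v r m (shiftS e k (fun p => ω p x)) ∈ B} =
      μ.real {x | XT β h v r m (fun p => ω p x) ∈ B} := by
  unfold Measure.real
  rw [XT_law hω β h v r m hB]
  have h2 := XT_law (IID_shifted hω e k) β h v r m hB
  rw [← h2]
  rfl

lemma disjoint_VT (e : Step d) {v : Vec d} (he : 1 ≤ ‖emb (vec e) - v‖) {k m : ℕ} {r : ℝ}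
    (hk : 2 * r < k) :
    Disjoint (VT d (k + m) 0 v r) ((VT d m 0 v r).image (tauS e k)) := by
  classical
  rw [Finset.disjoint_left]
  intro p hp hp'
  rw [Finset.mem_image] at hp'
  obtain ⟨q, hq, rfl⟩ := hp'
  unfold VT at hp hq
  rw [Finset.mem_filter] at hp hq
  have h1 := hp.2.2
  have h2 := hq.2.2
  unfold tauS at h1
  have h3 : (k : ℝ) • (emb (vec e) - v) =
      (emb (q.2 + k • vec e) - ((q.1 + k : ℕ) : ℝ) • v) - (emb q.2 - (q.1 : ℝ) • v) := by
    rw [all_emb_add, all_emb_nsmul, smul_sub]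
    push_cast
    rw [add_smul]
    abel
  have h4 : (k : ℝ) ≤ ‖(k : ℝ) • (emb (vec e) - v)‖ := by
    rw [norm_smul, Real.norm_eq_abs, abs_of_nonneg (Nat.cast_nonneg k)]
    exact le_mul_of_one_le_right (Nat.cast_nonneg k) he
  rw [h3] at h4
  have h5 := norm_sub_le (emb (q.2 + k • vec e) - ((q.1 + k : ℕ) : ℝ) • v)
    (emb q.2 - (q.1 : ℝ) • v)
  simp only at h1
  linarith

lemma XT_indep (hω : IID μ ρ ω) (e : Step d) (β : ℝ) {h v : Vec d}
    (he : 1 ≤ ‖emb (vec e) - v‖) {k m : ℕ} {r : ℝ} (hk : 2 * r < k) :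
    IndepFun (fun x => XT β h v r (k + m) (fun p => ω p x))
      (fun x => XT β h v r m (shiftS e k (fun p => ω p x))) μ := by
  classical
  have h1 := hω.indep.indepFun_finset _ _ (disjoint_VT e he (m := m) hk) hω.meas
  have hψ : Measurable fun g : ((VT d m 0 v r).image (tauS e k) : Finset (ℕ × Site d)) → ℝ =>
      XT β h v r m (extF (VT d m 0 v r)
        fun p => g ⟨tauS e k p, Finset.mem_image_of_mem _ p.2⟩) := by
    refine (measurable_XT β h v r m).comp ((measurable_extF _).comp ?_)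
    exact measurable_pi_iff.2 fun p => measurable_pi_apply _
  have h2 := h1.comp ((measurable_XT β h v r (k + m)).comp
    (measurable_extF (VT d (k + m) 0 v r))) hψ
  have e1' : (fun x => XT β h v r (k + m) (fun p => ω p x)) =
      (XT β h v r (k + m) ∘ extF (VT d (k + m) 0 v r)) ∘
        fun a (i : VT d (k + m) 0 v r) => ω i a := by
    funext x
    exact (XT_extF β h v r (k + m) (fun p => ω p x)).symm
  have e2' : (fun x => XT β h v r m (shiftS e k (fun p => ω p x))) =
      (fun g : ((VT d m 0 v r).image (tauS e k) : Finset (ℕ × Site d)) → ℝ =>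
      XT β h v r m (extF (VT d m 0 v r)
        fun p => g ⟨tauS e k p, Finset.mem_image_of_mem _ p.2⟩)) ∘
        fun a (i : ((VT d m 0 v r).image (tauS e k) : Finset (ℕ × Site d))) => ω i a := by
    funext x
    exact (XT_extF β h v r m (shiftS e k (fun p => ω p x))).symm
  rw [e1', e2']
  exact h2

/-- The fluctuation lower bound. -/
lemma XT_fluct [IsProbabilityMeasure μ] [IsProbabilityMeasure ρ] (hω : IID μ ρ ω) {β ε c : ℝ}
    (hc : 0 < c) (hf : FluctAt ρ β ε c) (h v : Vec d) {n : ℕ} (hn : 1 ≤ n) {r : ℝ} (hr : 0 ≤ r)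
    (hne : (tube d n v r).Nonempty) (α γ : ℝ)
    (hbad : μ {x | XT β h v r n (fun p => ω p x) ∉ Set.Icc α γ} ≤ ENNReal.ofReal ε) :
    c * n ≤ (γ - α) * Real.sqrt (n * (2 * r + 1) ^ d) := by
  have h1 := cond_fluct hω hf h (V := VT d n 0 v r) (B := ∅) (Finset.disjoint_empty_right _)
    hne (fun s hs => (all_sites hs).trans Finset.subset_union_left) (N := n)
    (fun s hs => card_sites_VT hs) (F := fun _ => 0) measurable_const (fun _ _ _ => rfl) α γ
    (by simpa [XT] using hbad)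
  have hn' : (1 : ℝ) ≤ n := by exact_mod_cast hn
  have h2 : 0 < c * n := by positivity
  have h3 : 0 ≤ γ - α := by
    by_contra hcon
    push Not at hcon
    have := mul_nonpos_of_nonpos_of_nonneg hcon.le (Real.sqrt_nonneg (VT d n 0 v r).card)
    linarith
  exact h1.trans (mul_le_mul_of_nonneg_left (Real.sqrt_le_sqrt (card_VT_le hr)) h3)

/-- Markov for the straight path. -/
lemma straightS [IsProbabilityMeasure μ] (hω : IID μ ρ ω)
    (habs : Integrable (fun t : ℝ => |t|) ρ) (e : Step d) (k : ℕ) (K : ℝ) :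
    K * μ.real {x | ∑ i ∈ Finset.range k, ω (i + 1, (i + 1) • vec e) x < -K} ≤
      k * ∫ t, |t| ∂ρ := by
  by_cases hK : 0 ≤ K
  · have hsub : {x | ∑ i ∈ Finset.range k, ω (i + 1, (i + 1) • vec e) x < -K} ⊆
        {x | K ≤ ∑ i ∈ Finset.range k, |ω (i + 1, (i + 1) • vec e) x|} := by
      intro x hx
      have hx : ∑ i ∈ Finset.range k, ω (i + 1, (i + 1) • vec e) x < -K := hx
      have h1 := Finset.abs_sum_le_sum_abs (fun i => ω (i + 1, (i + 1) • vec e) x)
        (Finset.range k)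
      have h2 := neg_abs_le (∑ i ∈ Finset.range k, ω (i + 1, (i + 1) • vec e) x)
      change K ≤ _
      linarith
    have hint : Integrable (fun x => ∑ i ∈ Finset.range k, |ω (i + 1, (i + 1) • vec e) x|) μ :=
      integrable_finsetSum _ fun i _ => hω.integrable_of habs _
    have h1 := mul_meas_ge_le_integral_of_nonneg (Filter.Eventually.of_forall fun x =>
      Finset.sum_nonneg fun i (_ : i ∈ Finset.range k) =>
        abs_nonneg (ω (i + 1, (i + 1) • vec e) x)) hint K
    rw [integral_finsetSum _ fun i _ => hω.integrable_of habs _,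
      Finset.sum_congr rfl fun i _ => hω.integral_of habs _, Finset.sum_const, Finset.card_range,
      nsmul_eq_mul] at h1
    exact (mul_le_mul_of_nonneg_left (measureReal_mono hsub) hK).trans h1
  · push Not at hK
    have h1 : 0 ≤ (k : ℝ) * ∫ t, |t| ∂ρ :=
      mul_nonneg (Nat.cast_nonneg _) (integral_nonneg fun t => abs_nonneg t)
    have h2 : K * μ.real {x | ∑ i ∈ Finset.range k, ω (i + 1, (i + 1) • vec e) x < -K} ≤ 0 :=
      mul_nonpos_of_nonpos_of_nonneg hK.le measureReal_nonneg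
    linarith

lemma all_inner (h : Vec d) (e : Step d) : -‖h‖ ≤ inner ℝ h (emb (vec e)) := by
  have h1 := abs_real_inner_le_norm h (emb (vec e))
  rw [all_norm_vec, mul_one] at h1
  exact (abs_le.1 h1).1

lemma XT_step [IsProbabilityMeasure μ] (hω : IID μ ρ ω) (hd : 0 < d) {β : ℝ} (hβ : 0 < β)
    {e : Step d} {h v : Vec d} (he : 1 ≤ ‖emb (vec e) - v‖)
    {k m : ℕ} {r : ℝ} (hk : 2 * r < k) (hne : (tube d m v r).Nonempty) {R K δ ε α γ : ℝ}
    (hR : R ≤ r) (hε : 0 < ε)
    (hPol : μ.real {x | ¬ (1 / 2 ≤ PolT β h (fun p => ω p x) (tube d (k + m) v R))} ≤ δ)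
    (hK : μ.real {x | ∑ i ∈ Finset.range k, ω (i + 1, (i + 1) • vec e) x < -K} ≤ δ)
    (hδ : 2 * δ < ε ^ 2) (hα : ε ≤ μ.real {x | XT β h v r (k + m) (fun p => ω p x) ≤ α})
    (hγ : ε ≤ μ.real {x | γ ≤ XT β h v r m (fun p => ω p x)}) :
    γ - (β * K + k * ‖h‖) - Real.log 2 ≤ α := by
  by_contra hcon
  push Not at hcon
  have hind := XT_indep hω e β he (h := h) (m := m) hk
  have h1 := hind.measure_inter_preimage_eq_mul (Set.Iic α) (Set.Ici γ) measurableSet_Iic
    measurableSet_Ici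
  have h2 : μ.real ({x | XT β h v r (k + m) (fun p => ω p x) ≤ α} ∩
      {x | γ ≤ XT β h v r m (shiftS e k (fun p => ω p x))}) =
      μ.real {x | XT β h v r (k + m) (fun p => ω p x) ≤ α} *
        μ.real {x | γ ≤ XT β h v r m (shiftS e k (fun p => ω p x))} := by
    have h3 := congrArg ENNReal.toReal h1
    rw [ENNReal.toReal_mul] at h3
    exact h3
  have h4 : μ.real {x | γ ≤ XT β h v r m (shiftS e k (fun p => ω p x))} =
      μ.real {x | γ ≤ XT β h v r m (fun p => ω p x)} :=
    XT_law_shift hω e β h v r k m measurableSet_Ici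
  rw [h4] at h2
  have h5 : ε ^ 2 ≤ μ.real ({x | XT β h v r (k + m) (fun p => ω p x) ≤ α} ∩
      {x | γ ≤ XT β h v r m (shiftS e k (fun p => ω p x))}) := by
    rw [h2, sq]
    exact mul_le_mul hα hγ hε.le measureReal_nonneg
  have hsub : {x | XT β h v r (k + m) (fun p => ω p x) ≤ α} ∩
      {x | γ ≤ XT β h v r m (shiftS e k (fun p => ω p x))} ⊆
      {x | ¬ (1 / 2 ≤ PolT β h (fun p => ω p x) (tube d (k + m) v R))} ∪
        {x | ∑ i ∈ Finset.range k, ω (i + 1, (i + 1) • vec e) x < -K} := by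
    rintro x ⟨hx1, hx2⟩
    have hx1 : XT β h v r (k + m) (fun p => ω p x) ≤ α := hx1
    have hx2 : γ ≤ XT β h v r m (shiftS e k (fun p => ω p x)) := hx2
    by_contra hx
    rw [Set.mem_union, not_or] at hx
    have hP : 1 / 2 ≤ PolT β h (fun p => ω p x) (tube d (k + m) v R) := not_not.1 hx.1
    have hS : -K ≤ ∑ i ∈ Finset.range k, ω (i + 1, (i + 1) • vec e) x := not_lt.1 hx.2
    have h6 := log_ZT_ge hd e k m hR hP hne
    have h7 : β * (-K) ≤ β * ∑ i ∈ Finset.range k, ω (i + 1, (i + 1) • vec e) x :=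
      mul_le_mul_of_nonneg_left hS hβ.le
    have h8 : (k : ℝ) * (-‖h‖) ≤ k * inner ℝ h (emb (vec e)) :=
      mul_le_mul_of_nonneg_left (all_inner h e) (Nat.cast_nonneg k)
    unfold XT at hx1 hx2
    linarith
  have h8 := (measureReal_mono (μ := μ) hsub).trans (measureReal_union_le _ _)
  linarith

lemma XT_base [IsProbabilityMeasure μ] (hd : 0 < d) {β : ℝ} (hβ : 0 < β) {e : Step d}
    {h v : Vec d} {n : ℕ} {r : ℝ} (hr : 0 ≤ r) {R K δ ε α : ℝ} (hR : R ≤ r)
    (hPol : μ.real {x | ¬ (1 / 2 ≤ PolT β h (fun p => ω p x) (tube d n v R))} ≤ δ)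
    (hK : μ.real {x | ∑ i ∈ Finset.range n, ω (i + 1, (i + 1) • vec e) x < -K} ≤ δ)
    (hδ : 2 * δ < ε) (hα : ε ≤ μ.real {x | XT β h v r n (fun p => ω p x) ≤ α}) :
    - (β * K + n * ‖h‖) - Real.log 2 ≤ α := by
  by_contra hcon
  push Not at hcon
  have hsub : {x | XT β h v r n (fun p => ω p x) ≤ α} ⊆
      {x | ¬ (1 / 2 ≤ PolT β h (fun p => ω p x) (tube d n v R))} ∪
        {x | ∑ i ∈ Finset.range n, ω (i + 1, (i + 1) • vec e) x < -K} := by
    intro x hx1
    have hx1 : XT β h v r n (fun p => ω p x) ≤ α := hx1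
    by_contra hx
    rw [Set.mem_union, not_or] at hx
    have hP : 1 / 2 ≤ PolT β h (fun p => ω p x) (tube d n v R) := not_not.1 hx.1
    have hS : -K ≤ ∑ i ∈ Finset.range n, ω (i + 1, (i + 1) • vec e) x := not_lt.1 hx.2
    have h6 := log_ZT_ge hd e n 0 hR hP (by rw [tube_zero v hr]; exact Set.univ_nonempty)
    rw [ZT_zero _ _ _ _ hr, Real.log_one, add_zero] at h6
    have h7 : β * (-K) ≤ β * ∑ i ∈ Finset.range n, ω (i + 1, (i + 1) • vec e) x :=
      mul_le_mul_of_nonneg_left hS hβ.le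
    have h8 : (n : ℝ) * (-‖h‖) ≤ n * inner ℝ h (emb (vec e)) :=
      mul_le_mul_of_nonneg_left (all_inner h e) (Nat.cast_nonneg n)
    unfold XT at hx1
    change _ ≤ Real.log (ZT β h (fun p => ω p x) (tube d n v r)) at h6
    linarith
  have h8 := (measureReal_mono (μ := μ) hsub).trans (measureReal_union_le _ _)
  linarith

lemma all_pos_le {n : ℕ} (h : Vec d) (s : Fin n → Step d) :
    inner ℝ h (emb (pos s n)) ≤ n * ‖h‖ := by
  have h1 := real_inner_le_norm h (emb (pos s n))
  rw [norm_emb] at h1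
  have h2 := mul_le_mul_of_nonneg_left (nrm_pos_le s n) (norm_nonneg h)
  linarith

lemma XT_upper [IsProbabilityMeasure μ] (hω : IID μ ρ ω) {β : ℝ} (h v : Vec d)
    (hexp : Integrable (fun t => Real.exp (β * t)) ρ) {n : ℕ} {r : ℝ}
    (hne : (tube d n v r).Nonempty) (a : ℝ) :
    Real.exp a * μ.real {x | a ≤ XT β h v r n (fun p => ω p x)} ≤
      (2 * d * (Real.exp ‖h‖ * ∫ t, Real.exp (β * t) ∂ρ)) ^ n := by
  classical
  have hpos : ∀ x, 0 < ZT β h (fun p => ω p x) (tube d n v r) := fun x => ZT_pos _ _ _ hne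
  have hset : {x | a ≤ XT β h v r n (fun p => ω p x)} =
      {x | Real.exp a ≤ ZT β h (fun p => ω p x) (tube d n v r)} := by
    ext x
    exact Real.le_log_iff_exp_le (hpos x)
  have hw : ∀ (s : Fin n → Step d) (x : Ω), wgt β h (fun p => ω p x) s =
      Real.exp (inner ℝ h (emb (pos s n))) * Real.exp (β * energy (fun p => ω p x) s) := by
    intro s x
    unfold wgt
    rw [Real.exp_add]
  have hI0 : ∀ s : Fin n → Step d, Integrable (fun x => wgt β h (fun p => ω p x) s) μ := by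
    intro s
    simp only [hw]
    exact (hω.integral_exp_energy hexp s).1.const_mul _
  have hI : ∀ s : Fin n → Step d, Integrable (fun x => if s ∈ tube d n v r then
      wgt β h (fun p => ω p x) s else 0) μ := by
    intro s
    split_ifs
    · exact hI0 s
    · exact integrable_zero _ _ _
  have hint : Integrable (fun x => ZT β h (fun p => ω p x) (tube d n v r)) μ :=
    integrable_finsetSum _ fun s _ => hI s
  rw [hset]
  refine (mul_meas_ge_le_integral_of_nonneg (Filter.Eventually.of_forall fun x =>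
    (hpos x).le) hint (Real.exp a)).trans ?_
  have hM : 0 ≤ ∫ t, Real.exp (β * t) ∂ρ := integral_nonneg fun t => (Real.exp_pos _).le
  have hMn : 0 ≤ (∫ t, Real.exp (β * t) ∂ρ) ^ n := pow_nonneg hM n
  calc ∫ x, ZT β h (fun p => ω p x) (tube d n v r) ∂μ
      = ∑ s : Fin n → Step d, ∫ x, (if s ∈ tube d n v r then
      wgt β h (fun p => ω p x) s else 0) ∂μ := integral_finsetSum _ fun s _ => hI s
    _ ≤ ∑ s : Fin n → Step d, (Real.exp ‖h‖ * ∫ t, Real.exp (β * t) ∂ρ) ^ n := by
        refine Finset.sum_le_sum fun s _ => ?_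
        split_ifs
        · simp only [hw]
          rw [integral_const_mul, (hω.integral_exp_energy hexp s).2, mul_pow,
            ← Real.exp_nat_mul]
          exact mul_le_mul_of_nonneg_right (Real.exp_le_exp.2 (all_pos_le h s)) hMn
        · rw [integral_zero]
          positivity
    _ = (2 * d * (Real.exp ‖h‖ * ∫ t, Real.exp (β * t) ∂ρ)) ^ n := by
        rw [Finset.sum_const, Finset.card_univ, Fintype.card_fun, Fintype.card_prod,
          Fintype.card_fin, Fintype.card_fin, Fintype.card_bool, nsmul_eq_mul,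
          mul_pow (2 * (d : ℝ))]
        push_cast
        ring

lemma XT_upper_quantile [IsProbabilityMeasure μ] (hω : IID μ ρ ω) {β : ℝ}
    (h v : Vec d) (hexp : Integrable (fun t => Real.exp (β * t)) ρ) {n : ℕ} {r : ℝ}
    (hne : (tube d n v r).Nonempty) {ε α : ℝ} (hε : ε < 1)
    (hα : μ.real {x | XT β h v r n (fun p => ω p x) < α} ≤ ε) :
    α ≤ n * Real.log (2 * d * (Real.exp ‖h‖ * ∫ t, Real.exp (β * t) ∂ρ)) -
      Real.log (1 - ε) := by
  have h1 := XT_upper hω h v hexp hne α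
  have h2 : 1 - ε ≤ μ.real {x | α ≤ XT β h v r n (fun p => ω p x)} := by
    have hms : MeasurableSet {x | XT β h v r n (fun p => ω p x) < α} :=
      ((measurable_XT β h v r n).comp hω.measurable_field) measurableSet_Iio
    have h3 : {x | α ≤ XT β h v r n (fun p => ω p x)} =
        {x | XT β h v r n (fun p => ω p x) < α}ᶜ := by
      ext x
      change α ≤ XT β h v r n (fun p => ω p x) ↔ ¬ XT β h v r n (fun p => ω p x) < α
      exact not_lt.symm
    rw [h3, probReal_compl_eq_one_sub hms]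
    linarith
  have h4 : Real.exp α * (1 - ε) ≤
      (2 * d * (Real.exp ‖h‖ * ∫ t, Real.exp (β * t) ∂ρ)) ^ n :=
    (mul_le_mul_of_nonneg_left h2 (Real.exp_pos _).le).trans h1
  have h5 := Real.log_le_log (mul_pos (Real.exp_pos _) (by linarith)) h4
  rw [Real.log_mul (Real.exp_pos _).ne' (by linarith), Real.log_exp, Real.log_pow] at h5
  linarith

theorem all_key [IsProbabilityMeasure μ] [IsProbabilityMeasure ρ] (hd : 0 < d)
    (hω : IID μ ρ ω) (hnc : ∀ c : ℝ, ρ {c} ≠ 1)
    (hexp : ∀ b : ℝ, Integrable (fun t => Real.exp (b * t)) ρ) {β : ℝ} (hβ : 0 < β)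
    (h v : Vec d) {a : ℝ} (ha0 : 0 < a) (had : a * ((d : ℝ) + 2) < 1)
    (ha : nuT μ β ω h v < a) : False := by
  obtain ⟨ε₀, hε₀, c, hc, hf⟩ := fluct ρ hnc β hβ (hexp β)
  have hf' : FluctAt ρ β ε₀ c := hf
  set ε : ℝ := min (ε₀ / 2) (1 / 4) with hεdef
  have hε : 0 < ε := lt_min (by positivity) (by norm_num)
  have hε4 : ε ≤ 1 / 4 := min_le_right _ _
  have hε2 : 2 * ε ≤ ε₀ := by
    have := min_le_left (ε₀ / 2) (1 / 4)
    linarith
  set B : ℝ := ∫ t, |t| ∂ρ with hB
  have habs := integrable_abs_of_exp hexp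
  have hB0 : 0 ≤ B := integral_nonneg fun t => abs_nonneg t
  set δ : ℝ := ε ^ 2 / 4 with hδdef
  have hδ : 0 < δ := by positivity
  have hδ2 : 2 * δ < ε ^ 2 := by rw [hδdef]; nlinarith
  have hδ1 : 2 * δ < ε := by nlinarith
  obtain ⟨e, he⟩ := all_step hd v
  obtain ⟨n0, hn0'⟩ := exists_n0T hd hω.meas ha hδ
  have hn0 : ∀ N ≥ n0, μ.real {x | ¬ (1 / 2 ≤ PolT β h (fun p => ω p x)
      (tube d N v ((N : ℝ) ^ a)))} ≤ δ := by
    intro N hN
    refine (measureReal_mono ?_).trans (hn0' N hN)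
    intro x hx hcon
    apply hx
    have : (1 / 2 : ℝ) ≤ 1 - δ := by linarith
    exact this.trans hcon
  set Kc : ℝ := B / δ + 1 with hKc
  have hKc0 : 0 < Kc := by positivity
  have hKk : ∀ k : ℕ, 1 ≤ k → μ.real {x | ∑ i ∈ Finset.range k, ω (i + 1, (i + 1) • vec e) x <
      -((k : ℝ) * Kc)} ≤ δ := by
    intro k hk
    have h1 := straightS hω habs e k ((k : ℝ) * Kc)
    have hk1 : (1 : ℝ) ≤ k := by exact_mod_cast hk
    have hkK : 0 < (k : ℝ) * Kc := by positivity
    have h2 : (k : ℝ) * B ≤ (k : ℝ) * Kc * δ := by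
      rw [hKc]
      have : (k : ℝ) * (B / δ + 1) * δ = k * B + k * δ := by field_simp
      rw [this]
      have : 0 ≤ (k : ℝ) * δ := by positivity
      linarith
    exact le_of_mul_le_mul_left (h1.trans h2) hkK
  set Lg : ℝ := Real.log (2 * d * (Real.exp ‖h‖ * ∫ t, Real.exp (β * t) ∂ρ)) with hLg
  have hlog1 : 0 ≤ -Real.log (1 - ε) := by
    have := Real.log_nonpos (show 0 ≤ 1 - ε by linarith) (by linarith)
    linarith
  have hlog2 : 0 ≤ Real.log 2 := Real.log_nonneg (by norm_num)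
  set Kt : ℝ := β * Kc + ‖h‖ with hKt
  have hKt0 : 0 ≤ Kt := by
    have := norm_nonneg h
    positivity
  set C5 : ℝ := 2 * |Lg| - Real.log (1 - ε) + Kt + Real.log 2 with hC5
  have hC50 : 0 ≤ C5 := by
    have := abs_nonneg Lg
    linarith
  refine numeric d ha0 had hc (C := 2 * C5 + Kt + Real.log 2) n0 ?_
  intro n r hn hn1 hr hkn
  set k : ℕ := 2 * r + 1 with hk
  have hn1' : (1 : ℝ) ≤ n := by exact_mod_cast hn1
  have hk1 : (1 : ℝ) ≤ k := by exact_mod_cast (show 1 ≤ k by omega)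
  have hkr : (k : ℝ) = 2 * (r : ℝ) + 1 := by rw [hk]; push_cast; ring
  have hr0 : (0 : ℝ) ≤ r := Nat.cast_nonneg r
  have hkr2 : 2 * (r : ℝ) < k := by linarith
  have hR : ∀ N : ℕ, N ≤ 2 * n → (N : ℝ) ^ a ≤ r := by
    intro N hN
    have hN' : (N : ℝ) ≤ 2 * n := by exact_mod_cast hN
    calc (N : ℝ) ^ a ≤ (2 * (n : ℝ)) ^ a := Real.rpow_le_rpow (Nat.cast_nonneg _) hN' ha0.le
      _ ≤ r := by rw [hr]; exact Nat.le_ceil _
  have hPol : ∀ N : ℕ, n ≤ N → μ.real {x | ¬ (1 / 2 ≤ PolT β h (fun p => ω p x)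
      (tube d N v ((N : ℝ) ^ a)))} ≤ δ := fun N hN => hn0 N (hn.trans hN)
  have hne : ∀ N : ℕ, n ≤ N → N ≤ 2 * n → (tube d N v (r : ℝ)).Nonempty := by
    intro N hN hN2
    have hex : ∃ x, 1 / 2 ≤ PolT β h (fun p => ω p x) (tube d N v ((N : ℝ) ^ a)) := by
      by_contra hno
      push Not at hno
      have h1 : {x | ¬ (1 / 2 ≤ PolT β h (fun p => ω p x) (tube d N v ((N : ℝ) ^ a)))} =
          Set.univ := by
        ext x
        simp only [Set.mem_univ, iff_true]
        exact not_le.2 (hno x)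
      have h2 := hPol N hN
      rw [h1, probReal_univ] at h2
      nlinarith
    obtain ⟨x, hx⟩ := hex
    exact (nonempty_of_PolT (lt_of_lt_of_le (by norm_num) hx)).mono (tube_mono v (hR N hN2))
  have hXm : ∀ m : ℕ, Measurable fun x => XT β h v (r : ℝ) m (fun p => ω p x) := fun m =>
    (measurable_XT β h v (r : ℝ) m).comp hω.measurable_field
  have hε1 : ε < 1 := by linarith
  choose αf hα1 hα2 using fun m : ℕ => exists_lower_quantile μ (hXm m) hε hε1
  choose γf hγ1 hγ2 using fun m : ℕ => exists_upper_quantile μ (hXm m) hε hε1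
  set Kd : ℝ := Real.sqrt ((k : ℝ) ^ d) with hKd
  have hKd0 : 0 < Kd := Real.sqrt_pos.2 (by positivity)
  have fact1 : ∀ m : ℕ, n ≤ m → m ≤ 2 * n → c * Real.sqrt n / Kd ≤ γf m - αf m := by
    intro m hm hm2
    have hm1 : (1 : ℝ) ≤ m := by exact_mod_cast hn1.trans hm
    have hbad : μ {x | XT β h v (r : ℝ) m (fun p => ω p x) ∉ Set.Icc (αf m) (γf m)} ≤
        ENNReal.ofReal ε₀ := by
      rw [ENNReal.le_ofReal_iff_toReal_le (measure_ne_top _ _) hε₀.le]
      have hsub : {x | XT β h v (r : ℝ) m (fun p => ω p x) ∉ Set.Icc (αf m) (γf m)} ⊆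
          {x | XT β h v (r : ℝ) m (fun p => ω p x) < αf m} ∪
            {x | γf m < XT β h v (r : ℝ) m (fun p => ω p x)} := by
        intro x hx
        have hx : ¬ (αf m ≤ XT β h v (r : ℝ) m (fun p => ω p x) ∧
          XT β h v (r : ℝ) m (fun p => ω p x) ≤ γf m) := hx
        rw [not_and_or, not_le, not_le] at hx
        exact hx
      have h1 := (measureReal_mono (μ := μ) hsub).trans (measureReal_union_le _ _)
      have h2 := hα1 m
      have h3 := hγ1 m
      change μ.real _ ≤ ε₀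
      linarith
    have h1 := XT_fluct hω hc hf' h v (hn1.trans hm) hr0 (hne m hm hm2) (αf m) (γf m) hbad
    rw [← hkr, Real.sqrt_mul (Nat.cast_nonneg m)] at h1
    have hsm : 0 < Real.sqrt m := Real.sqrt_pos.2 (by linarith)
    have h2 : Real.sqrt m * Real.sqrt m = m := Real.mul_self_sqrt (by linarith)
    have h3 : Real.sqrt m * (c * Real.sqrt m) ≤ Real.sqrt m * ((γf m - αf m) * Kd) := by
      calc Real.sqrt m * (c * Real.sqrt m) = c * (Real.sqrt m * Real.sqrt m) := by ring
        _ = c * m := by rw [h2]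
        _ ≤ (γf m - αf m) * (Real.sqrt m * Real.sqrt ((k : ℝ) ^ d)) := h1
        _ = _ := by rw [hKd]; ring
    have h4 := le_of_mul_le_mul_left h3 hsm
    rw [div_le_iff₀ hKd0]
    have h5 : Real.sqrt n ≤ Real.sqrt m := Real.sqrt_le_sqrt (by exact_mod_cast hm)
    calc c * Real.sqrt n ≤ c * Real.sqrt m := mul_le_mul_of_nonneg_left h5 hc.le
      _ ≤ _ := h4
  have fact2 : ∀ m : ℕ, n ≤ m → k + m ≤ 2 * n →
      γf m - (k : ℝ) * Kt - Real.log 2 ≤ αf (k + m) := by
    intro m hm hm2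
    have h1 := XT_step hω hd hβ he hkr2 (hne m hm (by omega)) (hR (k + m) hm2) hε
      (hPol (k + m) (by omega)) (hKk k (by omega)) hδ2 (hα2 (k + m)) (hγ2 m)
    have e2 : (k : ℝ) * Kt = β * ((k : ℝ) * Kc) + k * ‖h‖ := by rw [hKt]; ring
    rw [e2]
    exact h1
  have fact3 : - ((n : ℝ) * Kt) - Real.log 2 ≤ αf n := by
    have h1 := XT_base hd hβ hr0 (hR n (by omega)) (hPol n le_rfl) (hKk n hn1) hδ1 (hα2 n)
    have e2 : (n : ℝ) * Kt = β * ((n : ℝ) * Kc) + n * ‖h‖ := by rw [hKt]; ring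
    rw [e2]
    exact h1
  have fact4 : ∀ m : ℕ, n ≤ m → m ≤ 2 * n → αf m ≤ m * Lg - Real.log (1 - ε) :=
    fun m hm hm2 => XT_upper_quantile hω h v (hexp β) (hne m hm hm2) hε1 (hα1 m)
  set D : ℝ := c * Real.sqrt n / Kd - (k : ℝ) * Kt - Real.log 2 with hD
  have hind : ∀ j : ℕ, n + j * k ≤ 2 * n → αf n + j * D ≤ αf (n + j * k) := by
    intro j
    induction j with
    | zero => intro _; simp
    | succ j ih =>
      intro hj
      have e1 : n + (j + 1) * k = k + (n + j * k) := by ring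
      rw [e1] at hj ⊢
      have h1 := ih (by omega)
      have h2 := fact2 (n + j * k) (by omega) hj
      have h3 := fact1 (n + j * k) (by omega) (by omega)
      push_cast
      rw [hD] at h1 ⊢
      linarith
  set J : ℕ := n / k with hJ
  have hJk : J * k ≤ n := Nat.div_mul_le_self n k
  have h1 := hind J (by omega)
  have h2 := fact4 (n + J * k) (by omega) (by omega)
  have hnJ : ((n + J * k : ℕ) : ℝ) ≤ 2 * n := by exact_mod_cast (show n + J * k ≤ 2 * n by omega)
  have h3 : ((n + J * k : ℕ) : ℝ) * Lg ≤ 2 * n * |Lg| := by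
    calc ((n + J * k : ℕ) : ℝ) * Lg ≤ ((n + J * k : ℕ) : ℝ) * |Lg| :=
          mul_le_mul_of_nonneg_left (le_abs_self _) (Nat.cast_nonneg _)
      _ ≤ 2 * n * |Lg| := mul_le_mul_of_nonneg_right hnJ (abs_nonneg _)
  have h4 : (J : ℝ) * D ≤ C5 * n := by
    have e1 : -Real.log (1 - ε) ≤ -Real.log (1 - ε) * n := le_mul_of_one_le_right hlog1 hn1'
    have e2 : Real.log 2 ≤ Real.log 2 * n := le_mul_of_one_le_right hlog2 hn1'
    have e3 : C5 * n = 2 * n * |Lg| + -Real.log (1 - ε) * n + (n : ℝ) * Kt +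
        Real.log 2 * n := by
      rw [hC5]
      ring
    rw [e3]
    linarith
  have hn2 : (n : ℝ) ≤ 2 * k * J := by
    have hJ1 : 1 ≤ J := Nat.div_pos hkn (by omega)
    have h5 : n < k * (J + 1) := by
      rw [hJ]
      exact Nat.lt_mul_div_succ n (by omega)
    have h6 : n ≤ 2 * k * J := by nlinarith
    exact_mod_cast h6
  have hD2 : D ≤ 2 * k * C5 := by
    by_cases hD0 : D ≤ 0
    · have : 0 ≤ 2 * (k : ℝ) * C5 := by positivity
      linarith
    · push Not at hD0
      have h5 : (n : ℝ) * D ≤ n * (2 * k * C5) := by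
        calc (n : ℝ) * D ≤ (2 * k * J) * D := mul_le_mul_of_nonneg_right hn2 hD0.le
          _ = 2 * k * (J * D) := by ring
          _ ≤ 2 * k * (C5 * n) := mul_le_mul_of_nonneg_left h4 (by positivity)
          _ = n * (2 * k * C5) := by ring
      exact le_of_mul_le_mul_left h5 (by linarith)
  have h6 : c * Real.sqrt n / Kd ≤ (k : ℝ) * (2 * C5 + Kt + Real.log 2) := by
    have e2 : Real.log 2 ≤ k * Real.log 2 := le_mul_of_one_le_left hlog2 hk1
    have e3 : (k : ℝ) * (2 * C5 + Kt + Real.log 2) =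
        2 * k * C5 + (k : ℝ) * Kt + k * Real.log 2 := by ring
    rw [e3]
    rw [hD] at hD2
    linarith
  rw [div_le_iff₀ hKd0] at h6
  rw [← hkr]
  calc c * Real.sqrt n ≤ (k : ℝ) * (2 * C5 + Kt + Real.log 2) * Kd := h6
    _ = _ := by rw [hKd]; ring

/-- `ν(h, v) ≥ 1 / (d + 2)` for every tilt `h` and every direction `v`. -/
theorem nuT_ge [IsProbabilityMeasure μ] [IsProbabilityMeasure ρ] (hd : 0 < d)
    (hω : IID μ ρ ω) (hnc : ∀ c : ℝ, ρ {c} ≠ 1)
    (hexp : ∀ b : ℝ, Integrable (fun t => Real.exp (b * t)) ρ) {β : ℝ} (hβ : 0 < β)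
    (h v : Vec d) : 1 / ((d : ℝ) + 2) ≤ nuT μ β ω h v := by
  by_contra hcon
  push Not at hcon
  obtain ⟨a, ha1, ha2⟩ := exists_between hcon
  have h0 : 0 ≤ nuT μ β ω h v := Real.sInf_nonneg fun b hb => hb.1.le
  have hd2 : (0 : ℝ) < (d : ℝ) + 2 := by positivity
  exact all_key hd hω hnc hexp hβ h v (lt_of_le_of_lt h0 ha1) ((lt_div_iff₀ hd2).1 ha2) ha1

end Pool.Agent.W_7d29a1_h46
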