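import Pool.Agent.W_7d29a1_h46.Dim

/-!
Crude upper bound for the variance of the free energy (TASK).
-/

namespace Pool.Agent.W_7d29a1_h46

open MeasureTheory ProbabilityTheory Filter Pool.Agent.W_MP_7d29a1_pr

variable {d : ℕ} {Ω : Type*} [MeasurableSpace Ω] {μ : Measure Ω} [IsProbabilityMeasure μ]
  {ρ : Measure ℝ} [IsProbabilityMeasure ρ] {ω : ℕ × Site d → Ω → ℝ} {β : ℝ}

/-- the dominating function -/
noncomputable def VarU_A (β : ℝ) (h : Vec d) (n : ℕ) (η : ℕ × Site d → ℝ) : ℝ :=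
  ‖h‖ * n + |β| * ∑ p ∈ FF d n n, |η p|

lemma VarU_A_nonneg (β : ℝ) (h : Vec d) (n : ℕ) (η : ℕ × Site d → ℝ) : 0 ≤ VarU_A β h n η := by
  unfold VarU_A
  have : 0 ≤ ∑ p ∈ FF d n n, |η p| := Finset.sum_nonneg fun p _ => abs_nonneg _
  positivity

lemma VarU_exponent (β : ℝ) (h : Vec d) {n : ℕ} (η : ℕ × Site d → ℝ) (s : Fin n → Step d) :
    |inner ℝ h (emb (pos s n)) + β * energy η s| ≤ VarU_A β h n η := by
  unfold VarU_A
  have h1 : |inner ℝ h (emb (pos s n))| ≤ ‖h‖ * n := by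
    refine (abs_real_inner_le_norm _ _).trans ?_
    rw [norm_emb]
    exact mul_le_mul_of_nonneg_left (nrm_pos_le s n) (norm_nonneg h)
  have h2 : |energy η s| ≤ ∑ p ∈ FF d n n, |η p| := by
    rw [energy_eq]
    exact (Finset.abs_sum_le_sum_abs _ _).trans
      (Finset.sum_le_sum_of_subset_of_nonneg (sites_subset_FF s) fun p _ _ => abs_nonneg _)
  refine (abs_add_le _ _).trans (add_le_add h1 ?_)
  rw [abs_mul]
  exact mul_le_mul_of_nonneg_left h2 (abs_nonneg β)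

lemma VarU_card (d n : ℕ) :
    ((Finset.univ : Finset (Fin n → Step d)).card : ℝ) = (2 * d : ℝ) ^ n := by
  rw [Finset.card_univ, Fintype.card_fun, Fintype.card_prod, Fintype.card_fin, Fintype.card_fin,
    Fintype.card_bool]
  push_cast
  ring

lemma VarU_log (hd : 0 < d) (β : ℝ) (h : Vec d) (n : ℕ) (η : ℕ × Site d → ℝ) :
    |Real.log (Zn β h η n)| ≤ VarU_A β h n η := by
  have hd0 : (0 : ℝ) < (2 * d : ℝ) ^ n := by
    have : (0 : ℝ) < d := by exact_mod_cast hd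
    positivity
  have hZ : ZT β h η (Set.univ : Set (Fin n → Step d)) = ∑ s : Fin n → Step d, wgt β h η s := by
    unfold ZT
    simp
  have h1 : Real.exp (-VarU_A β h n η) * (2 * d : ℝ) ^ n ≤
      ZT β h η (Set.univ : Set (Fin n → Step d)) := by
    rw [hZ, ← VarU_card, mul_comm, ← nsmul_eq_mul, ← Finset.sum_const]
    refine Finset.sum_le_sum fun s _ => Real.exp_le_exp.mpr ?_
    exact (abs_le.mp (VarU_exponent β h η s)).1
  have h2 : ZT β h η (Set.univ : Set (Fin n → Step d)) ≤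
      Real.exp (VarU_A β h n η) * (2 * d : ℝ) ^ n := by
    rw [hZ, ← VarU_card, mul_comm, ← nsmul_eq_mul, ← Finset.sum_const]
    refine Finset.sum_le_sum fun s _ => Real.exp_le_exp.mpr ?_
    exact (abs_le.mp (VarU_exponent β h η s)).2
  have h3 : Real.exp (-VarU_A β h n η) ≤ Zn β h η n := by
    unfold Zn
    rwa [le_div_iff₀ hd0]
  have h4 : Zn β h η n ≤ Real.exp (VarU_A β h n η) := by
    unfold Zn
    rwa [div_le_iff₀ hd0]
  have hpos : 0 < Zn β h η n := lt_of_lt_of_le (Real.exp_pos _) h3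
  rw [abs_le]
  constructor
  · rw [Real.le_log_iff_exp_le hpos]
    exact h3
  · rw [Real.log_le_iff_le_exp hpos]
    exact h4

omit [IsProbabilityMeasure ρ] in
lemma VarU_sq_int (hexp : ∀ b : ℝ, Integrable (fun t => Real.exp (b * t)) ρ) :
    Integrable (fun t : ℝ => t ^ 2) ρ := by
  refine (((hexp 1).add (hexp (-1))).const_mul 2).mono' (by fun_prop)
    (Filter.Eventually.of_forall fun t => ?_)
  rw [Real.norm_eq_abs, abs_of_nonneg (sq_nonneg t)]
  simp only [Pi.add_apply, one_mul, neg_mul]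
  rcases le_total 0 t with ht | ht
  · have h1 := Real.quadratic_le_exp_of_nonneg ht
    have h2 := Real.exp_pos (-t)
    linarith
  · have h1 := Real.quadratic_le_exp_of_nonneg (neg_nonneg.mpr ht)
    have h2 := Real.exp_pos t
    have h3 : (-t) ^ 2 = t ^ 2 := by ring
    rw [h3] at h1
    linarith

omit [IsProbabilityMeasure μ] [IsProbabilityMeasure ρ] in
lemma VarU_measurable (β : ℝ) (h : Vec d) (n : ℕ) (hω : IID μ ρ ω) :
    Measurable (fun y => Real.log (Zn β h (fun p => ω p y) n)) := by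
  unfold Zn
  exact Real.measurable_log.comp (((measurable_ZT β h _).comp hω.measurable_field).div_const _)

omit [IsProbabilityMeasure μ] in
lemma VarU_memLp (hω : IID μ ρ ω) (hexp : ∀ b : ℝ, Integrable (fun t => Real.exp (b * t)) ρ)
    (p : ℕ × Site d) : MemLp (fun y => |ω p y|) 2 μ := by
  rw [memLp_two_iff_integrable_sq]
  · have h1 := hω.integrable_of (VarU_sq_int hexp) p
    refine h1.congr (Filter.Eventually.of_forall fun y => ?_)
    simp only [sq_abs]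
  · exact (hω.meas p).abs.aestronglyMeasurable

lemma VarU_A_memLp (hω : IID μ ρ ω) (hexp : ∀ b : ℝ, Integrable (fun t => Real.exp (b * t)) ρ)
    (β : ℝ) (h : Vec d) (n : ℕ) : MemLp (fun y => VarU_A β h n (fun p => ω p y)) 2 μ := by
  unfold VarU_A
  have h1 : MemLp (fun y => ∑ p ∈ FF d n n, |ω p y|) 2 μ :=
    memLp_finsetSum _ fun p _ => VarU_memLp hω hexp p
  exact (memLp_const (‖h‖ * (n : ℝ))).add (h1.const_mul |β|)

/-- The second moment needed for Chebyshev (same proof as `var_upper`). -/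
theorem memLp_log (hd : 0 < d) (hω : IID μ ρ ω)
    (hexp : ∀ b : ℝ, Integrable (fun t => Real.exp (b * t)) ρ) (h : Vec d) (n : ℕ) :
    MemLp (fun y => Real.log (Zn β h (fun p => ω p y) n)) 2 μ := by
  refine (VarU_A_memLp hω hexp β h n).mono (VarU_measurable β h n hω).aestronglyMeasurable
    (Filter.Eventually.of_forall fun y => ?_)
  rw [Real.norm_eq_abs, Real.norm_eq_abs, abs_of_nonneg (VarU_A_nonneg _ _ _ _)]
  exact VarU_log hd β h n _

/-- TASK VarL1. Crude upper bound: `Var log Z_n(h) ≤ C n ^ (2 d + 2)`.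
Proof. `|log Z_n(h)| ≤ ‖h‖ n + |β| ∑_{p ∈ FF d n n} |η p|` (every walk has weight between
`exp (∓ ...)`, `sites_subset_FF`, `energy_eq`, `nrm_pos_le`; `Zn` is the average over the `(2d)^n`
walks). So `Var X ≤ E X ^ 2` (`variance_le_expectation_sq`) `≤ 2 ‖h‖² n² + 2 β² (card FF)² E ω²`
(Cauchy–Schwarz `sq_sum_le_card_mul_sum_sq`), `card_FF`: `n (2n+1)^d ≤ 3^d n^{d+1}`; `ω p` has a finite
second moment because `t² ≤ 2 (e^t + e^{-t})`. -/
theorem var_upper (hd : 0 < d) (hω : IID μ ρ ω)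
    (hexp : ∀ b : ℝ, Integrable (fun t => Real.exp (b * t)) ρ) (h : Vec d) :
    ∃ C : ℝ, ∀ n : ℕ, 1 ≤ n →
      Var[fun y => Real.log (Zn β h (fun p => ω p y) n); μ] ≤ C * (n : ℝ) ^ (2 * d + 2) := by
  set m2 : ℝ := ∫ t, t ^ 2 ∂ρ with hm2
  have hm20 : 0 ≤ m2 := integral_nonneg fun t => sq_nonneg t
  refine ⟨2 * ‖h‖ ^ 2 + 2 * |β| ^ 2 * (((3 : ℝ) ^ d) ^ 2 * m2), fun n hn => ?_⟩
  have hn1 : (1 : ℝ) ≤ n := by exact_mod_cast hn
  have hsqint : ∀ p : ℕ × Site d, Integrable (fun y => (ω p y) ^ 2) μ := fun p =>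
    hω.integrable_of (VarU_sq_int hexp) p
  -- the second moment of the dominating function
  have hpt : ∀ y, (Real.log (Zn β h (fun p => ω p y) n)) ^ 2 ≤
      2 * (‖h‖ * n) ^ 2 + 2 * |β| ^ 2 * ((FF d n n).card * ∑ p ∈ FF d n n, (ω p y) ^ 2) := by
    intro y
    have h1 := VarU_log hd β h n (fun p => ω p y)
    have h2 : (Real.log (Zn β h (fun p => ω p y) n)) ^ 2 ≤ (VarU_A β h n (fun p => ω p y)) ^ 2 := by
      rw [← sq_abs (Real.log _)]
      exact pow_le_pow_left₀ (abs_nonneg _) h1 2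
    refine h2.trans ?_
    unfold VarU_A
    have h3 : (∑ p ∈ FF d n n, |ω p y|) ^ 2 ≤ (FF d n n).card * ∑ p ∈ FF d n n, (ω p y) ^ 2 := by
      have := sq_sum_le_card_mul_sum_sq (s := FF d n n) (f := fun p => |ω p y|)
      simpa only [sq_abs] using this
    have h4 : 0 ≤ 2 * |β| ^ 2 := by positivity
    have h5 := mul_le_mul_of_nonneg_left h3 h4
    nlinarith [sq_nonneg (‖h‖ * n - |β| * ∑ p ∈ FF d n n, |ω p y|)]
  have hint : Integrable (fun y => 2 * (‖h‖ * n) ^ 2 +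
      2 * |β| ^ 2 * ((FF d n n).card * ∑ p ∈ FF d n n, (ω p y) ^ 2)) μ :=
    (integrable_const _).add (((integrable_finsetSum _ fun p _ => hsqint p).const_mul _).const_mul _)
  have h1 : Var[fun y => Real.log (Zn β h (fun p => ω p y) n); μ] ≤
      ∫ y, (Real.log (Zn β h (fun p => ω p y) n)) ^ 2 ∂μ :=
    variance_le_expectation_sq (VarU_measurable β h n hω).aestronglyMeasurable
  have h2 : ∫ y, (Real.log (Zn β h (fun p => ω p y) n)) ^ 2 ∂μ ≤
      ∫ y, (2 * (‖h‖ * n) ^ 2 +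
        2 * |β| ^ 2 * ((FF d n n).card * ∑ p ∈ FF d n n, (ω p y) ^ 2)) ∂μ :=
    integral_mono_of_nonneg (Filter.Eventually.of_forall fun y => sq_nonneg _) hint
      (Filter.Eventually.of_forall hpt)
  have h3 : ∫ y, (2 * (‖h‖ * n) ^ 2 +
      2 * |β| ^ 2 * ((FF d n n).card * ∑ p ∈ FF d n n, (ω p y) ^ 2)) ∂μ =
      2 * (‖h‖ * n) ^ 2 + 2 * |β| ^ 2 * ((FF d n n).card * ((FF d n n).card * m2)) := by
    rw [integral_add (integrable_const _)
      (((integrable_finsetSum _ fun p _ => hsqint p).const_mul _).const_mul _),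
      integral_const, integral_const_mul, integral_const_mul,
      integral_finsetSum _ fun p _ => hsqint p]
    rw [Finset.sum_congr rfl fun p _ => hω.integral_of (VarU_sq_int hexp) p, Finset.sum_const,
      nsmul_eq_mul, ← hm2]
    simp
  have hFF : ((FF d n n).card : ℝ) ≤ 3 ^ d * (n : ℝ) ^ (d + 1) := by
    rw [card_FF]
    push_cast
    have h4 : (2 * (n : ℝ) + 1) ^ d ≤ (3 * n) ^ d :=
      pow_le_pow_left₀ (by positivity) (by linarith) d
    calc (n : ℝ) * (2 * n + 1) ^ d ≤ n * (3 * n) ^ d :=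
          mul_le_mul_of_nonneg_left h4 (by positivity)
      _ = 3 ^ d * (n : ℝ) ^ (d + 1) := by rw [mul_pow]; ring
  have hFF2 : ((FF d n n).card : ℝ) * ((FF d n n).card * m2) ≤
      ((3 : ℝ) ^ d) ^ 2 * m2 * (n : ℝ) ^ (2 * d + 2) := by
    have h5 : ((FF d n n).card : ℝ) * (FF d n n).card ≤
        (3 ^ d * (n : ℝ) ^ (d + 1)) * (3 ^ d * (n : ℝ) ^ (d + 1)) :=
      mul_le_mul hFF hFF (Nat.cast_nonneg _) (by positivity)
    calc ((FF d n n).card : ℝ) * ((FF d n n).card * m2)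
        = ((FF d n n).card * (FF d n n).card) * m2 := by ring
      _ ≤ ((3 ^ d * (n : ℝ) ^ (d + 1)) * (3 ^ d * (n : ℝ) ^ (d + 1))) * m2 :=
          mul_le_mul_of_nonneg_right h5 hm20
      _ = ((3 : ℝ) ^ d) ^ 2 * m2 * (n : ℝ) ^ (2 * d + 2) := by ring
  have hn2 : (n : ℝ) ^ 2 ≤ (n : ℝ) ^ (2 * d + 2) := pow_le_pow_right₀ hn1 (by omega)
  have h6 : 2 * (‖h‖ * n) ^ 2 ≤ 2 * ‖h‖ ^ 2 * (n : ℝ) ^ (2 * d + 2) := by
    rw [mul_pow, ← mul_assoc]
    exact mul_le_mul_of_nonneg_left hn2 (by positivity)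
  have h7 : 2 * |β| ^ 2 * ((FF d n n).card * ((FF d n n).card * m2)) ≤
      2 * |β| ^ 2 * (((3 : ℝ) ^ d) ^ 2 * m2 * (n : ℝ) ^ (2 * d + 2)) :=
    mul_le_mul_of_nonneg_left hFF2 (by positivity)
  calc _ ≤ _ := h1
    _ ≤ _ := h2
    _ = _ := h3
    _ ≤ 2 * ‖h‖ ^ 2 * (n : ℝ) ^ (2 * d + 2) +
        2 * |β| ^ 2 * (((3 : ℝ) ^ d) ^ 2 * m2 * (n : ℝ) ^ (2 * d + 2)) := add_le_add h6 h7
    _ = _ := by ring

end Pool.Agent.W_7d29a1_h46
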