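import Pool.Agent.W_7d29a1_h46.Peano

/-!
The dimension of the points without an expansion of order `1 + α` (TASK).
-/

namespace Pool.Agent.W_7d29a1_h46

open Set MeasureTheory Filter Topology
open scoped NNReal ENNReal

/-- Where the expansion of order `1 + α` fails the right derivative oscillates. -/
theorem PeanoD_large {L : ℝ → ℝ} (hL : ConvexOn ℝ univ L) {α : ℝ} (h0 : 0 < α) {h : ℝ}
    (hE : ¬ ∃ v, Expd L α h v) {ε : ℝ} (hε : 0 < ε) :
    ∃ t : ℝ, 0 < |t| ∧ |t| < ε ∧ |t| ^ α < |PeanoG L (h + t) - PeanoG L h| := by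
  by_contra hcon
  push Not at hcon
  have hm := Peano_mono hL
  have hW : 0 ≤ PeanoG L (h + 1) - PeanoG L (h - 1) := by
    have := hm (show h - 1 ≤ h + 1 by linarith)
    linarith
  have hεα : 0 < ε ^ α := Real.rpow_pos_of_pos hε α
  have hWε : 0 ≤ (PeanoG L (h + 1) - PeanoG L (h - 1)) / ε ^ α := div_nonneg hW hεα.le
  refine hE ⟨PeanoG L h, 1 + (PeanoG L (h + 1) - PeanoG L (h - 1)) / ε ^ α, ?_⟩
  intro t ht
  rcases eq_or_ne t 0 with rfl | ht0
  · have h1 : |(0 : ℝ)| ^ (1 + α) = 0 := by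
      rw [abs_zero, Real.zero_rpow (by linarith)]
    rw [h1]
    simp
  have htp : 0 < |t| := abs_pos.2 ht0
  have htα : 0 ≤ |t| ^ α := Real.rpow_nonneg (abs_nonneg t) α
  have habs : |PeanoG L (h + t) - PeanoG L h| ≤
      (1 + (PeanoG L (h + 1) - PeanoG L (h - 1)) / ε ^ α) * |t| ^ α := by
    by_cases hlt : |t| < ε
    · refine (hcon t htp hlt).trans ?_
      nlinarith [mul_nonneg hWε htα]
    · push Not at hlt
      have h2 : |PeanoG L (h + t) - PeanoG L h| ≤ PeanoG L (h + 1) - PeanoG L (h - 1) := by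
        have ht' := abs_le.mp ht
        have a1 := hm (show h + t ≤ h + 1 by linarith [ht'.2])
        have a2 := hm (show h - 1 ≤ h + t by linarith [ht'.1])
        have a3 := hm (show h ≤ h + 1 by linarith)
        have a4 := hm (show h - 1 ≤ h by linarith)
        rw [abs_le]
        constructor <;> linarith
      have h3 : PeanoG L (h + 1) - PeanoG L (h - 1) ≤
          (PeanoG L (h + 1) - PeanoG L (h - 1)) / ε ^ α * |t| ^ α := by
        rw [div_mul_eq_mul_div, le_div_iff₀ hεα]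
        exact mul_le_mul_of_nonneg_left (Real.rpow_le_rpow hε.le hlt h0.le) hW
      rw [add_mul]
      linarith
  have hsub := Peano_sub hL (h + t) h
  have hpow : |t| ^ (1 + α) = |t| * |t| ^ α := by
    rw [Real.rpow_add htp, Real.rpow_one]
  rw [hpow]
  have hfin : t * (PeanoG L (h + t) - PeanoG L h) ≤
      (1 + (PeanoG L (h + 1) - PeanoG L (h - 1)) / ε ^ α) * (|t| * |t| ^ α) := by
    calc t * (PeanoG L (h + t) - PeanoG L h) ≤ |t * (PeanoG L (h + t) - PeanoG L h)| := le_abs_self _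
      _ = |t| * |PeanoG L (h + t) - PeanoG L h| := abs_mul _ _
      _ ≤ |t| * ((1 + (PeanoG L (h + 1) - PeanoG L (h - 1)) / ε ^ α) * |t| ^ α) :=
        mul_le_mul_of_nonneg_left habs (abs_nonneg t)
      _ = _ := by ring
  have e : h - (h + t) = -t := by ring
  rw [e] at hsub
  nlinarith [hsub, hfin]

/-- The points of the dyadic grid. -/
noncomputable def PeanoD_q (M j i : ℕ) : ℝ := -(M : ℝ) - (1 / 2) ^ j + i * (1 / 2) ^ j

theorem PeanoD_dyadic {L : ℝ → ℝ} (hL : ConvexOn ℝ univ L) {α : ℝ} (h0 : 0 < α) {h : ℝ}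
    (hE : ¬ ∃ v, Expd L α h v) {M : ℕ} (hM : h ∈ Ico (-(M : ℝ)) M) (J : ℕ) :
    ∃ j, J ≤ j ∧ ∃ i < 2 * M * 2 ^ j, h ∈ Icc (PeanoD_q M j (i + 1)) (PeanoD_q M j (i + 2)) ∧
      ((1 / 2 : ℝ) ^ (j + 1)) ^ α <
        PeanoG L (PeanoD_q M j (i + 3)) - PeanoG L (PeanoD_q M j i) := by
  obtain ⟨t, ht0, ht1, ht2⟩ := PeanoD_large hL h0 hE (show (0 : ℝ) < (1 / 2) ^ J by positivity)
  have hJ1 : ((1 : ℝ) / 2) ^ J ≤ 1 := pow_le_one₀ (by norm_num) (by norm_num)
  obtain ⟨j, hj1, hj2⟩ := exists_nat_pow_near_of_lt_one ht0 (ht1.le.trans hJ1)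
    (show (0 : ℝ) < 1 / 2 by norm_num) (by norm_num)
  have hJj : J ≤ j := by
    by_contra hlt
    push Not at hlt
    have : ((1 : ℝ) / 2) ^ J ≤ (1 / 2) ^ (j + 1) :=
      pow_le_pow_of_le_one (by norm_num) (by norm_num) hlt
    linarith
  have h2j : (0 : ℝ) < 2 ^ j := by positivity
  have hdj : (0 : ℝ) < (1 / 2) ^ j := by positivity
  have hid : (2 : ℝ) ^ j * (1 / 2) ^ j = 1 := by
    rw [← mul_pow]; norm_num
  have hnn : 0 ≤ (h + M) * 2 ^ j := mul_nonneg (by linarith [hM.1]) h2j.le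
  refine ⟨j, hJj, ⌊(h + M) * 2 ^ j⌋₊, ?_, ?_, ?_⟩
  · rw [Nat.floor_lt hnn]
    push_cast
    have := hM.2
    nlinarith
  · have f1 := Nat.floor_le hnn
    have f2 := Nat.lt_floor_add_one ((h + M) * 2 ^ j)
    have g1 := mul_le_mul_of_nonneg_right f1 hdj.le
    have g2 := mul_lt_mul_of_pos_right f2 hdj
    rw [mul_assoc, hid, mul_one] at g1 g2
    constructor
    · unfold PeanoD_q
      push_cast
      linarith
    · unfold PeanoD_q
      push_cast
      linarith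
  · have f1 := Nat.floor_le hnn
    have f2 := Nat.lt_floor_add_one ((h + M) * 2 ^ j)
    have g1 := mul_le_mul_of_nonneg_right f1 hdj.le
    have g2 := mul_lt_mul_of_pos_right f2 hdj
    rw [mul_assoc, hid, mul_one] at g1 g2
    have hm := Peano_mono hL
    set i := ⌊(h + M) * 2 ^ j⌋₊ with hi
    have t1 := (abs_le.1 hj2).1
    have t2 := (abs_le.1 hj2).2
    have u1 : PeanoD_q M j i ≤ h := by
      unfold PeanoD_q; linarith
    have u2 : PeanoD_q M j i ≤ h + t := by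
      unfold PeanoD_q; linarith
    have u3 : h ≤ PeanoD_q M j (i + 3) := by
      unfold PeanoD_q; push_cast; linarith
    have u4 : h + t ≤ PeanoD_q M j (i + 3) := by
      unfold PeanoD_q; push_cast; linarith
    have v1 := hm u1
    have v2 := hm u2
    have v3 := hm u3
    have v4 := hm u4
    have w1 : |PeanoG L (h + t) - PeanoG L h| ≤
        PeanoG L (PeanoD_q M j (i + 3)) - PeanoG L (PeanoD_q M j i) := by
      rw [abs_le]
      constructor <;> linarith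
    have w2 : ((1 / 2 : ℝ) ^ (j + 1)) ^ α < |t| ^ α :=
      Real.rpow_lt_rpow (by positivity) hj1 h0
    linarith

/-- The dyadic intervals of level `j` on which the right derivative jumps. -/
noncomputable def PeanoD_A (L : ℝ → ℝ) (α : ℝ) (M j : ℕ) : Finset ℕ :=
  open Classical in (Finset.range (2 * M * 2 ^ j)).filter (fun i => ((1 / 2 : ℝ) ^ (j + 1)) ^ α <
    PeanoG L (PeanoD_q M j (i + 3)) - PeanoG L (PeanoD_q M j i))

theorem PeanoD_count {L : ℝ → ℝ} (hL : ConvexOn ℝ univ L) (α : ℝ) (M j : ℕ) :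
    ((PeanoD_A L α M j).card : ℝ) * ((1 / 2 : ℝ) ^ (j + 1)) ^ α ≤
      3 * (PeanoG L (M + 1) - PeanoG L (-(M : ℝ) - 1)) := by
  classical
  have hm := Peano_mono hL
  set F : ℕ → ℝ := fun i => PeanoG L (PeanoD_q M j i) with hF
  have hdj : (0 : ℝ) < (1 / 2) ^ j := by positivity
  have hd1 : ((1 : ℝ) / 2) ^ j ≤ 1 := pow_le_one₀ (by norm_num) (by norm_num)
  have hid : (2 : ℝ) ^ j * (1 / 2) ^ j = 1 := by
    rw [← mul_pow]; norm_num
  have hFm : Monotone F := by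
    intro x y hxy
    refine hm ?_
    unfold PeanoD_q
    have : (x : ℝ) ≤ y := by exact_mod_cast hxy
    nlinarith
  have hnn : ∀ i, 0 ≤ F (i + 3) - F i := fun i => by
    have := hFm (show i ≤ i + 3 by omega)
    linarith
  have h1 : ((PeanoD_A L α M j).card : ℝ) * ((1 / 2 : ℝ) ^ (j + 1)) ^ α ≤
      ∑ i ∈ PeanoD_A L α M j, (F (i + 3) - F i) := by
    rw [← nsmul_eq_mul]
    refine Finset.card_nsmul_le_sum _ _ _ fun i hi => ?_
    unfold PeanoD_A at hi
    exact (Finset.mem_filter.1 hi).2.le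
  have h2 : ∑ i ∈ PeanoD_A L α M j, (F (i + 3) - F i) ≤
      ∑ i ∈ Finset.range (2 * M * 2 ^ j), (F (i + 3) - F i) := by
    refine Finset.sum_le_sum_of_subset_of_nonneg ?_ fun i _ _ => hnn i
    unfold PeanoD_A
    exact Finset.filter_subset _ _
  have h3 : ∀ n : ℕ, ∑ i ∈ Finset.range n, (F (i + 3) - F i) =
      (F (n + 2) - F 2) + (F (n + 1) - F 1) + (F n - F 0) := by
    intro n
    induction n with
    | zero => simp
    | succ n ih =>
      rw [Finset.sum_range_succ, ih]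
      have e1 : n + 1 + 2 = n + 3 := by omega
      have e2 : n + 1 + 1 = n + 2 := by omega
      rw [e1, e2]
      ring
  set n := 2 * M * 2 ^ j with hn
  have h4 : F (n + 2) ≤ PeanoG L (M + 1) := by
    refine hm ?_
    unfold PeanoD_q
    have : ((n : ℕ) : ℝ) * (1 / 2) ^ j = 2 * M := by
      rw [hn]
      push_cast
      rw [mul_assoc, hid, mul_one]
    push_cast
    push_cast at this
    nlinarith
  have h5 : PeanoG L (-(M : ℝ) - 1) ≤ F 0 := by
    refine hm ?_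
    unfold PeanoD_q
    push_cast
    linarith
  have m1 := hFm (show n + 1 ≤ n + 2 by omega)
  have m2 := hFm (show n ≤ n + 2 by omega)
  have m3 := hFm (show 0 ≤ 1 by omega)
  have m4 := hFm (show 0 ≤ 2 by omega)
  have h6 := h3 n
  linarith

/-- Numerical form: the contribution of level `j` to the Hausdorff sum. -/
theorem PeanoD_level {L : ℝ → ℝ} (hL : ConvexOn ℝ univ L) (α s : ℝ) (M j : ℕ) :
    ((PeanoD_A L α M j).card : ℝ) * (((1 / 2 : ℝ) ^ j) ^ s) ≤
      3 * (PeanoG L (M + 1) - PeanoG L (-(M : ℝ) - 1)) * (1 / 2 : ℝ) ^ (-α) *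
        ((1 / 2 : ℝ) ^ (s - α)) ^ j := by
  have hx : (0 : ℝ) < 1 / 2 := by norm_num
  have h1 := PeanoD_count hL α M j
  have e1 : ((1 / 2 : ℝ) ^ (j + 1)) ^ α = (1 / 2 : ℝ) ^ (((j : ℝ) + 1) * α) := by
    rw [Real.rpow_mul hx.le, ← Real.rpow_natCast (1 / 2 : ℝ) (j + 1)]
    push_cast
    rfl
  have e2 : ((1 / 2 : ℝ) ^ j) ^ s = (1 / 2 : ℝ) ^ (((j : ℝ) + 1) * α) *
      ((1 / 2 : ℝ) ^ (-α) * ((1 / 2 : ℝ) ^ (s - α)) ^ j) := by
    rw [← Real.rpow_natCast (1 / 2 : ℝ) j, ← Real.rpow_mul hx.le,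
      ← Real.rpow_natCast ((1 / 2 : ℝ) ^ (s - α)) j, ← Real.rpow_mul hx.le,
      ← Real.rpow_add hx, ← Real.rpow_add hx]
    congr 1
    ring
  rw [e1] at h1
  rw [e2, ← mul_assoc]
  calc ((PeanoD_A L α M j).card : ℝ) * (1 / 2 : ℝ) ^ (((j : ℝ) + 1) * α) *
        ((1 / 2 : ℝ) ^ (-α) * ((1 / 2 : ℝ) ^ (s - α)) ^ j)
      ≤ 3 * (PeanoG L (M + 1) - PeanoG L (-(M : ℝ) - 1)) *
        ((1 / 2 : ℝ) ^ (-α) * ((1 / 2 : ℝ) ^ (s - α)) ^ j) :=
        mul_le_mul_of_nonneg_right h1 (by positivity)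
    _ = _ := by ring

theorem PeanoD_zero {L : ℝ → ℝ} (hL : ConvexOn ℝ univ L) {α : ℝ} (h0 : 0 < α) (M : ℕ)
    {s : ℝ} (hs : α < s) :
    μH[s] ({h : ℝ | ¬ ∃ v, Expd L α h v} ∩ Ico (-(M : ℝ)) M) = 0 := by
  have hx : (0 : ℝ) < 1 / 2 := by norm_num
  set ρ : ℝ := (1 / 2 : ℝ) ^ (s - α) with hρ
  have hρ0 : 0 < ρ := Real.rpow_pos_of_pos hx _
  have hρ1 : ρ < 1 := Real.rpow_lt_one hx.le (by norm_num) (by linarith)
  set K : ℝ := 3 * (PeanoG L (M + 1) - PeanoG L (-(M : ℝ) - 1)) * (1 / 2 : ℝ) ^ (-α) with hK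
  have hK0 : 0 ≤ K := by
    have := Peano_mono hL (show -(M : ℝ) - 1 ≤ M + 1 by
      have : (0 : ℝ) ≤ M := Nat.cast_nonneg M
      linarith)
    have h1 : (0 : ℝ) ≤ (1 / 2 : ℝ) ^ (-α) := (Real.rpow_pos_of_pos hx _).le
    rw [hK]
    exact mul_nonneg (by linarith) h1
  set T : ∀ J : ℕ, (Σ j : ℕ, {i // i ∈ PeanoD_A L α M (J + j)}) → Set ℝ := fun J p =>
    Icc (PeanoD_q M (J + p.1) (p.2.1 + 1)) (PeanoD_q M (J + p.1) (p.2.1 + 2)) with hT
  have hdiam : ∀ (J : ℕ) (p : Σ j : ℕ, {i // i ∈ PeanoD_A L α M (J + j)}),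
      Metric.ediam (T J p) = ENNReal.ofReal ((1 / 2) ^ (J + p.1)) := by
    intro J p
    rw [hT]
    simp only
    rw [Real.ediam_Icc]
    congr 1
    unfold PeanoD_q
    push_cast
    ring
  have hle := Measure.hausdorffMeasure_le_liminf_tsum (l := atTop) s
    ({h : ℝ | ¬ ∃ v, Expd L α h v} ∩ Ico (-(M : ℝ)) M)
    (fun J : ℕ => ENNReal.ofReal ((1 / 2 : ℝ) ^ J)) ?_ T ?_ ?_
  · refine le_antisymm (hle.trans ?_) (bot_le)
    have hbound : ∀ J : ℕ, (∑' p : (Σ j : ℕ, {i // i ∈ PeanoD_A L α M (J + j)}),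
        Metric.ediam (T J p) ^ s) ≤ ENNReal.ofReal (K * ρ ^ J) * ENNReal.ofReal (1 - ρ)⁻¹ := by
      intro J
      rw [ENNReal.tsum_sigma']
      have h1 : ∀ j : ℕ, (∑' i : {i // i ∈ PeanoD_A L α M (J + j)},
          Metric.ediam (T J ⟨j, i⟩) ^ s) ≤ ENNReal.ofReal (K * ρ ^ J * ρ ^ j) := by
        intro j
        rw [tsum_fintype]
        have h2 : ∀ i : {i // i ∈ PeanoD_A L α M (J + j)},
            Metric.ediam (T J ⟨j, i⟩) ^ s = ENNReal.ofReal (((1 / 2 : ℝ) ^ (J + j)) ^ s) := by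
          intro i
          rw [hdiam]
          exact ENNReal.ofReal_rpow_of_pos (by positivity)
        rw [Finset.sum_congr rfl fun i _ => h2 i, Finset.sum_const, Finset.card_univ,
          Fintype.card_coe, nsmul_eq_mul, ← ENNReal.ofReal_natCast,
          ← ENNReal.ofReal_mul (Nat.cast_nonneg _)]
        refine ENNReal.ofReal_le_ofReal ?_
        have h3 := PeanoD_level hL α s M (J + j)
        rw [← hρ, ← hK] at h3
        have hsplit : K * ρ ^ (J + j) = K * ρ ^ J * ρ ^ j := by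
          rw [pow_add ρ J j]
          exact (mul_assoc _ _ _).symm
        rw [hsplit] at h3
        exact h3
      refine (ENNReal.tsum_le_tsum h1).trans ?_
      have hKJ : 0 ≤ K * ρ ^ J := mul_nonneg hK0 (pow_nonneg hρ0.le _)
      simp only [ENNReal.ofReal_mul hKJ]
      rw [ENNReal.tsum_mul_left, ← ENNReal.ofReal_tsum_of_nonneg (fun j => pow_nonneg hρ0.le j)
        (summable_geometric_of_lt_one hρ0.le hρ1), tsum_geometric_of_lt_one hρ0.le hρ1]
    have hlim : Tendsto (fun J : ℕ => ENNReal.ofReal (K * ρ ^ J) * ENNReal.ofReal (1 - ρ)⁻¹)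
        atTop (𝓝 0) := by
      have h1 : Tendsto (fun J : ℕ => K * ρ ^ J) atTop (𝓝 0) := by
        have := (tendsto_pow_atTop_nhds_zero_of_lt_one hρ0.le hρ1).const_mul K
        rwa [mul_zero] at this
      have h2 := ENNReal.tendsto_ofReal h1
      rw [ENNReal.ofReal_zero] at h2
      have h3 := ENNReal.Tendsto.mul_const h2 (b := ENNReal.ofReal (1 - ρ)⁻¹)
        (Or.inr ENNReal.ofReal_ne_top)
      rwa [zero_mul] at h3
    refine (liminf_le_liminf (Eventually.of_forall hbound)).trans ?_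
    rw [hlim.liminf_eq]
  · have h1 : Tendsto (fun J : ℕ => (1 / 2 : ℝ) ^ J) atTop (𝓝 0) :=
      tendsto_pow_atTop_nhds_zero_of_lt_one (by norm_num) (by norm_num)
    have h2 := ENNReal.tendsto_ofReal h1
    rwa [ENNReal.ofReal_zero] at h2
  · refine Eventually.of_forall fun J p => ?_
    rw [hdiam]
    exact ENNReal.ofReal_le_ofReal
      (pow_le_pow_of_le_one (by norm_num) (by norm_num) (Nat.le_add_right _ _))
  · refine Eventually.of_forall fun J => ?_
    rintro h ⟨hE, hM⟩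
    obtain ⟨j, hj, i, hi, hmem, hlt⟩ := PeanoD_dyadic hL h0 hE hM J
    obtain ⟨j', rfl⟩ := Nat.exists_eq_add_of_le hj
    have hiA : i ∈ PeanoD_A L α M (J + j') := by
      unfold PeanoD_A
      rw [Finset.mem_filter]
      exact ⟨Finset.mem_range.2 hi, hlt⟩
    rw [mem_iUnion]
    exact ⟨⟨j', ⟨i, hiA⟩⟩, hmem⟩

/-- TASK Peano2. The exceptional set for the expansion of order `1 + α` has dimension at most `α`.
Proof. Let `g` be the right derivative as above (monotone, `L (h+t) - L h - g h t ≤ t (g (h+t) - g h)`).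
If `Expd L α h (g h)` fails then for every `ε > 0` there is `t`, `0 < |t| < ε`, with
`|g (h+t) - g h| > |t| ^ α` (otherwise `|g(h+t) - g h| ≤ |t|^α` for `|t| < ε`, and for
`ε ≤ |t| ≤ 1` it is `≤ ((g (h+1) - g (h-1)) / ε^α) |t|^α`).
By `dimH_iUnion` it is enough to bound the dimension of the exceptional `h` in `[-M, M]`. Let `s > α`.
For such `h` and infinitely many `j` there is `t` with `2^{-j-1} < |t| ≤ 2^{-j}`,
`|g (h+t) - g h| > |t|^α ≥ 2^{-(j+1)α}`; with `k = ⌊2^j h⌋` the interval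
`[(k-1) 2^{-j}, (k+2) 2^{-j}]` contains `h` and `h+t`, so
`g ((k+2) 2^{-j}) - g ((k-1) 2^{-j}) ≥ 2^{-(j+1)α}`. The number `N_j` of such `k` with
`|k| ≤ M 2^j + 1` satisfies `N_j 2^{-(j+1)α} ≤ 3 (g (M+3) - g (-M-3))` (telescoping, each point is
in at most three of the intervals). So the exceptional set in `[-M, M]` is covered, for each `J`, by
the intervals `[k 2^{-j}, (k+1) 2^{-j}]`, `j ≥ J`, `k` as above, and
`∑_{j ≥ J} N_j (2^{-j})^s ≤ 3 (g (M+3) - g (-M-3)) 2^α ∑_{j ≥ J} 2^{-j(s-α)} → 0`.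
So `μH[s] = 0` (`hausdorffMeasure_le_liminf_tsum` or the definition `mkMetric`), `dimH ≤ s`. -/
theorem dimH_not_expd {L : ℝ → ℝ} (hL : ConvexOn ℝ univ L) {α : ℝ} (h0 : 0 < α) (h1 : α ≤ 1) :
    dimH {h : ℝ | ¬ ∃ v, Expd L α h v} ≤ ENNReal.ofReal α := by
  have hU : {h : ℝ | ¬ ∃ v, Expd L α h v} =
      ⋃ M : ℕ, ({h : ℝ | ¬ ∃ v, Expd L α h v} ∩ Ico (-(M : ℝ)) M) := by
    rw [← inter_iUnion]
    have : (⋃ M : ℕ, Ico (-(M : ℝ)) M) = univ := by
      rw [eq_univ_iff_forall]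
      intro x
      obtain ⟨M, hM⟩ := exists_nat_gt |x|
      rw [mem_iUnion]
      exact ⟨M, by linarith [neg_abs_le x], by linarith [le_abs_self x]⟩
    rw [this, inter_univ]
  rw [hU, dimH_iUnion]
  refine iSup_le fun M => ?_
  refine le_of_forall_gt_imp_ge_of_dense fun a ha => ?_
  obtain ⟨s, hs1, hs2⟩ := ENNReal.lt_iff_exists_nnreal_btwn.1 ha
  have hs : α < (s : ℝ) := by
    rw [← ENNReal.ofReal_coe_nnreal] at hs1
    exact (ENNReal.ofReal_lt_ofReal_iff_of_nonneg h0.le).1 hs1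
  refine le_trans ?_ hs2.le
  refine dimH_le_of_hausdorffMeasure_ne_top ?_
  rw [PeanoD_zero hL h0 M hs]
  exact ENNReal.zero_ne_top

end Pool.Agent.W_7d29a1_h46
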