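import Pool.Agent.W_7d29a1_h46.Dim

/-!
Superdiffusivity at all large dyadic scales, for almost every direction.
-/

namespace Pool.Agent.W_7d29a1_h46

open MeasureTheory ProbabilityTheory Filter Topology Metric Pool.Agent.W_MP_7d29a1_pr
open scoped NNReal ENNReal

variable {d : ℕ} {Ω : Type*} [MeasurableSpace Ω] {μ : Measure Ω} [IsProbabilityMeasure μ]
  {ρ : Measure ℝ} [IsProbabilityMeasure ρ] {ω : ℕ × Site d → Ω → ℝ} {β : ℝ}

/-- The directions with a good tube at the scale `n`, for a tilt of norm at most `M`. -/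
def GS (μ : Measure Ω) (β : ℝ) (ω : ℕ × Site d → Ω → ℝ) (κ a : ℝ) (M n : ℕ) : Set (Vec d) :=
  {v | ‖v‖ ≤ M ∧ ∃ h : Vec d, ‖h‖ ≤ M ∧
    μ.real {x | ¬ (1 - κ ≤ PolT β h (fun p => ω p x) (tube d n v ((n : ℝ) ^ a)))} ≤ κ}

/-- The window inequality together with almost monotonicity. -/
lemma scale_pair (hd : 0 < d) (hω : IID μ ρ ω) {ε c c' : ℝ}
    (hf : FluctAt ρ β ε c) {κ : ℝ} (hκ0 : 0 < κ) (hκ : κ ≤ 1 / 8) (hκε : 2 * κ ≤ ε) {a : ℝ}
    (hpow : ∀ (n : ℕ) (y : ℝ), 1 ≤ n →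
      c * ((n - n / 2 : ℕ) : ℝ) ≤ 5 / 2 * y * Real.sqrt (n * (2 * (n : ℝ) ^ a + 1) ^ d) →
      4 / 5 ≤ y → c' * (n : ℝ) ^ ee d a ≤ y) {n : ℕ} (hn : 0 < n) {h h' v v' : Vec d}
    (hfar : 8 * (n : ℝ) ^ a ≤ n * ‖v - v'‖)
    (hP : μ.real {x | ¬ (1 - κ ≤ PolT β h (fun p => ω p x) (tube d n v ((n : ℝ) ^ a)))} ≤ κ)
    (hP' : μ.real {x | ¬ (1 - κ ≤ PolT β h' (fun p => ω p x) (tube d n v' ((n : ℝ) ^ a)))} ≤ κ) :
    3 / 2 * (c' * (n : ℝ) ^ (ee d a - 1)) ≤ ‖(v + h) - (v' + h')‖ ^ 2 := by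
  have hn0 : (0 : ℝ) < n := by exact_mod_cast hn
  have hr : 0 < (n : ℝ) ^ a := Real.rpow_pos_of_pos hn0 _
  obtain ⟨w1, w2⟩ := window hd hn hω hf hr hκ0 hκ hκε hfar hP hP'
  have w3 := hpow n _ hn w1 w2
  -- a good environment
  obtain ⟨x, hx1, hx2⟩ : ∃ x, 1 - κ ≤ PolT β h (fun p => ω p x) (tube d n v ((n : ℝ) ^ a)) ∧
      1 - κ ≤ PolT β h' (fun p => ω p x) (tube d n v' ((n : ℝ) ^ a)) := by
    by_contra hcon
    push Not at hcon
    have h1 : {x | ¬ (1 - κ ≤ PolT β h (fun p => ω p x) (tube d n v ((n : ℝ) ^ a)))} ∪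
        {x | ¬ (1 - κ ≤ PolT β h' (fun p => ω p x) (tube d n v' ((n : ℝ) ^ a)))} =
          Set.univ := by
      ext x
      simp only [Set.mem_union, Set.mem_univ, iff_true]
      by_cases hx : 1 - κ ≤ PolT β h (fun p => ω p x) (tube d n v ((n : ℝ) ^ a))
      · exact Or.inr (not_le.2 (hcon x hx))
      · exact Or.inl hx
    have h2 := measureReal_union_le (μ := μ)
      {x | ¬ (1 - κ ≤ PolT β h (fun p => ω p x) (tube d n v ((n : ℝ) ^ a)))}
      {x | ¬ (1 - κ ≤ PolT β h' (fun p => ω p x) (tube d n v' ((n : ℝ) ^ a)))}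
    rw [h1, probReal_univ] at h2
    linarith
  obtain ⟨_, _, hone⟩ := compare_tube hd hn hr hκ0 hκ hfar hx1 hx2
  -- almost monotone
  have hmono : -(1 / 4) * (‖h - h'‖ * ‖v - v'‖) ≤ inner ℝ (v - v') (h - h') := by
    have e1 : (n : ℝ) * inner ℝ (h' - h) v' - n * inner ℝ (h' - h) v =
        n * inner ℝ (v - v') (h - h') := by
      rw [← mul_sub, ← inner_sub_right, real_inner_comm]
      congr 1
      have : inner ℝ (v' - v) (h' - h) = inner ℝ (-(v - v')) (-(h - h')) := by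
        rw [neg_sub, neg_sub]
      rw [this, inner_neg_neg]
    have e2 : ‖h' - h‖ * (8 * (n : ℝ) ^ a) ≤ ‖h' - h‖ * (n * ‖v - v'‖) :=
      mul_le_mul_of_nonneg_left hfar (norm_nonneg _)
    rw [norm_sub_rev h' h] at e2 hone
    have e3 : (n : ℝ) * (-(1 / 4) * (‖h - h'‖ * ‖v - v'‖)) ≤ n * inner ℝ (v - v') (h - h') := by
      nlinarith
    exact le_of_mul_le_mul_left e3 hn0
  have hsq : ‖(v + h) - (v' + h')‖ ^ 2 = ‖v - v'‖ ^ 2 + 2 * inner ℝ (v - v') (h - h') +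
      ‖h - h'‖ ^ 2 := by
    have : (v + h) - (v' + h') = (v - v') + (h - h') := by abel
    rw [this, norm_add_sq_real]
  have h5 : c' * (n : ℝ) ^ (ee d a - 1) ≤ ‖h - h'‖ * ‖v - v'‖ := by
    rw [Real.rpow_sub_one hn0.ne', ← mul_div_assoc, div_le_iff₀ hn0]
    rw [norm_sub_rev h' h] at w3
    linarith
  rw [hsq]
  nlinarith [sq_nonneg (‖v - v'‖ - ‖h - h'‖)]

/-- Packing bound. -/
lemma card_packing (hd : 0 < d) {ι : Type*} (F : Finset ι) (u : ι → Vec d) {s R : ℝ} (hs : 0 < s)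
    (hR : 0 ≤ R) (hu : ∀ i ∈ F, ‖u i‖ ≤ R) (hsep : ∀ i ∈ F, ∀ j ∈ F, i ≠ j → s ≤ ‖u i - u j‖) :
    (F.card : ℝ) * (s / 2) ^ d ≤ (R + s / 2) ^ d := by
  have : Nonempty (Fin d) := ⟨⟨0, hd⟩⟩
  have hdisj : (F : Set ι).PairwiseDisjoint fun i => ball (u i) (s / 2) := by
    intro i hi j hj hij
    refine ball_disjoint_ball ?_
    rw [dist_eq_norm]
    have := hsep i hi j hj hij
    linarith
  have h1 : ∑ i ∈ F, (volume : Measure (Vec d)) (ball (u i) (s / 2)) ≤
      (volume : Measure (Vec d)) (ball 0 (R + s / 2)) := by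
    rw [← measure_biUnion_finset hdisj fun i _ => measurableSet_ball]
    refine measure_mono (Set.iUnion₂_subset fun i hi => ?_)
    intro y hy
    rw [mem_ball, dist_eq_norm] at hy ⊢
    have h2 := hu i hi
    have h3 : ‖y - 0‖ ≤ ‖y - u i‖ + ‖u i‖ := by
      rw [sub_zero]
      exact norm_le_norm_sub_add y (u i)
    linarith
  have hfin : Module.finrank ℝ (Vec d) = d := by simp
  have h4 : ∀ x : Vec d, ∀ r : ℝ, 0 ≤ r → (volume : Measure (Vec d)) (ball x r) =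
      ENNReal.ofReal (r ^ d) * (volume : Measure (Vec d)) (ball 0 1) := by
    intro x r hr
    rw [Measure.addHaar_ball _ _ hr, hfin]
  simp only [h4 _ _ (show (0 : ℝ) ≤ s / 2 by positivity),
    h4 _ _ (show (0 : ℝ) ≤ R + s / 2 by positivity)] at h1
  rw [Finset.sum_const, nsmul_eq_mul, ← mul_assoc] at h1
  have hpos : (volume : Measure (Vec d)) (ball (0 : Vec d) 1) ≠ 0 :=
    (measure_ball_pos _ _ one_pos).ne'
  have hne : (volume : Measure (Vec d)) (ball (0 : Vec d) 1) ≠ ⊤ := measure_ball_lt_top.ne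
  have h5 := (ENNReal.mul_le_mul_iff_left hpos hne).1 h1
  rw [← ENNReal.ofReal_natCast, ← ENNReal.ofReal_mul (Nat.cast_nonneg _)] at h5
  exact (ENNReal.ofReal_le_ofReal_iff (by positivity)).1 h5

/-- A set all of whose `ℓ`-separated finite subsets have at most `B` elements is covered by at most
`B` balls of radius `ℓ`. -/
lemma exists_cover {G : Set (Vec d)} {ℓ B : ℝ} (hℓ : 0 < ℓ)
    (hB : ∀ F : Finset (Vec d), (∀ v ∈ F, v ∈ G) → (∀ v ∈ F, ∀ w ∈ F, v ≠ w → ℓ ≤ ‖v - w‖) →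
      (F.card : ℝ) ≤ B) :
    ∃ F : Finset (Vec d), (F.card : ℝ) ≤ B ∧ G ⊆ ⋃ v ∈ F, ball v ℓ := by
  classical
  set S : Set ℕ := {m | ∃ F : Finset (Vec d), (∀ v ∈ F, v ∈ G) ∧
    (∀ v ∈ F, ∀ w ∈ F, v ≠ w → ℓ ≤ ‖v - w‖) ∧ F.card = m} with hS
  have hne : S.Nonempty := ⟨0, ∅, by simp, by simp, by simp⟩
  have hbdd : BddAbove S := by
    refine ⟨⌊B⌋₊, ?_⟩
    rintro m ⟨F, h1, h2, rfl⟩
    exact Nat.le_floor (hB F h1 h2)
  obtain ⟨F, h1, h2, h3⟩ := Nat.sSup_mem hne hbdd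
  refine ⟨F, hB F h1 h2, fun w hw => ?_⟩
  by_contra hcon
  simp only [Set.mem_iUnion, not_exists, mem_ball, not_lt, dist_eq_norm] at hcon
  have hwF : w ∉ F := by
    intro hwF
    have := hcon w hwF
    rw [sub_self, norm_zero] at this
    linarith
  have h4 : (insert w F).card ∈ S := by
    refine ⟨insert w F, ?_, ?_, rfl⟩
    · intro v hv
      rcases Finset.mem_insert.1 hv with rfl | hv
      · exact hw
      · exact h1 v hv
    · intro v hv v' hv' hne'
      rcases Finset.mem_insert.1 hv with e1 | hvF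
      · rcases Finset.mem_insert.1 hv' with e2 | hvF'
        · exact absurd (e1.trans e2.symm) hne'
        · rw [e1]
          exact hcon v' hvF'
      · rcases Finset.mem_insert.1 hv' with e2 | hvF'
        · rw [e2, norm_sub_rev]
          exact hcon v hvF
        · exact h2 v hvF v' hvF' hne'
  have h5 := le_csSup hbdd h4
  rw [Finset.card_insert_of_notMem hwF, h3] at h5
  omega

/-- The volume of the set of directions with a good tube at the scale `n`. -/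
lemma vol_GS (hd : 0 < d) (hω : IID μ ρ ω) {ε c : ℝ} (hc : 0 < c)
    (hf : FluctAt ρ β ε c) {κ : ℝ} (hκ0 : 0 < κ) (hκ : κ ≤ 1 / 8) (hκε : 2 * κ ≤ ε) {a : ℝ}
    (ha0 : 0 < a) (M : ℕ) :
    ∃ C : ℝ, 0 < C ∧ ∀ n : ℕ, 0 < n → (volume : Measure (Vec d)) (GS μ β ω κ a M n) ≤
      ENNReal.ofReal ((C * (n : ℝ) ^ (-((1 + ee d a - 2 * a) / 2))) ^ d) *
        (volume : Measure (Vec d)) (ball 0 1) := by
  classical
  have : Nonempty (Fin d) := ⟨⟨0, hd⟩⟩
  obtain ⟨c', hc', hpow⟩ := pow_form (d := d) (c := c) ha0 hc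
  have hee := ee_lt_one d ha0
  set q : ℝ := Real.sqrt (3 / 2 * c') with hq
  have hq0 : 0 < q := Real.sqrt_pos.2 (by positivity)
  set K : ℝ := 4 * M + q with hK
  have hK0 : 0 < K := by positivity
  refine ⟨K * 8 / q, by positivity, fun n hn => ?_⟩
  have hn0 : (0 : ℝ) < n := by exact_mod_cast hn
  have hn1 : (1 : ℝ) ≤ n := by exact_mod_cast hn
  set s : ℝ := q * (n : ℝ) ^ ((ee d a - 1) / 2) with hs
  have hs0 : 0 < s := mul_pos hq0 (Real.rpow_pos_of_pos hn0 _)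
  have hsq : s ^ 2 = 3 / 2 * (c' * (n : ℝ) ^ (ee d a - 1)) := by
    rw [hs, mul_pow, hq, Real.sq_sqrt (by positivity), ← Real.rpow_natCast ((n : ℝ) ^ _),
      ← Real.rpow_mul hn0.le]
    push_cast
    rw [div_mul_cancel₀ _ two_ne_zero]
    ring
  have hsq1 : s ≤ q := by
    have : (n : ℝ) ^ ((ee d a - 1) / 2) ≤ 1 :=
      Real.rpow_le_one_of_one_le_of_nonpos hn1 (by linarith)
    calc s ≤ q * 1 := mul_le_mul_of_nonneg_left this hq0.le
      _ = q := mul_one q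
  set ℓ : ℝ := 8 * (n : ℝ) ^ (a - 1) with hℓ
  have hℓ0 : 0 < ℓ := mul_pos (by norm_num) (Real.rpow_pos_of_pos hn0 _)
  have hℓn : n * ℓ = 8 * (n : ℝ) ^ a := by
    rw [hℓ, Real.rpow_sub_one hn0.ne']
    field_simp
  -- the cardinality of separated sets
  have hcard : ∀ F : Finset (Vec d), (∀ v ∈ F, v ∈ GS μ β ω κ a M n) →
      (∀ v ∈ F, ∀ w ∈ F, v ≠ w → ℓ ≤ ‖v - w‖) → (F.card : ℝ) ≤ (K / s) ^ d := by
    intro F hF hsep
    choose! g hg using fun (v : Vec d) (hv : v ∈ F) => (hF v hv).2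
    have h1 := card_packing hd F (fun v => v + g v) (s := s) (R := 2 * M) hs0 (by positivity)
      (fun v hv => by
        have h2 := norm_add_le v (g v)
        have h3 := (hF v hv).1
        have h4 := (hg v hv).1
        linarith)
      (fun v hv w hw hvw => by
        have hfar : 8 * (n : ℝ) ^ a ≤ n * ‖v - w‖ := by
          rw [← hℓn]
          exact mul_le_mul_of_nonneg_left (hsep v hv w hw hvw) hn0.le
        have h2 := scale_pair hd hω hf hκ0 hκ hκε hpow hn hfar (hg v hv).2 (hg w hw).2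
        rw [← hsq] at h2
        exact le_of_sq_le_sq h2 (norm_nonneg _))
    have h2 : (F.card : ℝ) * (s / 2) ^ d ≤ (K / s) ^ d * (s / 2) ^ d := by
      refine h1.trans ?_
      rw [← mul_pow]
      refine pow_le_pow_left₀ (by positivity) ?_ d
      have : K / s * (s / 2) = K / 2 := by field_simp
      rw [this, hK]
      linarith
    exact le_of_mul_le_mul_right h2 (by positivity)
  obtain ⟨F, hF1, hF2⟩ := exists_cover hℓ0 hcard
  have hfin : Module.finrank ℝ (Vec d) = d := by simp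
  have hV : ∀ v : Vec d, (volume : Measure (Vec d)) (ball v ℓ) =
      ENNReal.ofReal (ℓ ^ d) * (volume : Measure (Vec d)) (ball 0 1) := by
    intro v
    rw [Measure.addHaar_ball _ _ hℓ0.le, hfin]
  calc (volume : Measure (Vec d)) (GS μ β ω κ a M n)
      ≤ (volume : Measure (Vec d)) (⋃ v ∈ F, ball v ℓ) := measure_mono hF2
    _ ≤ ∑ v ∈ F, (volume : Measure (Vec d)) (ball v ℓ) := measure_biUnion_finset_le _ _
    _ = ENNReal.ofReal (F.card * ℓ ^ d) * (volume : Measure (Vec d)) (ball 0 1) := by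
        simp only [hV]
        rw [Finset.sum_const, nsmul_eq_mul, ENNReal.ofReal_mul (Nat.cast_nonneg _),
          ENNReal.ofReal_natCast, mul_assoc]
    _ ≤ _ := by
        gcongr
        calc (F.card : ℝ) * ℓ ^ d ≤ (K / s) ^ d * ℓ ^ d :=
              mul_le_mul_of_nonneg_right hF1 (by positivity)
          _ = (K / s * ℓ) ^ d := (mul_pow _ _ _).symm
          _ = (K * 8 / q * (n : ℝ) ^ (-((1 + ee d a - 2 * a) / 2))) ^ d := by
              congr 1
              rw [hs, hℓ]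
              have : (n : ℝ) ^ (-((1 + ee d a - 2 * a) / 2)) =
                  (n : ℝ) ^ (a - 1) / (n : ℝ) ^ ((ee d a - 1) / 2) := by
                rw [← Real.rpow_sub hn0]
                congr 1
                ring
              rw [this]
              have hp : 0 < (n : ℝ) ^ ((ee d a - 1) / 2) := Real.rpow_pos_of_pos hn0 _
              field_simp

/-- For almost every direction `v` of norm at most `M` and all large dyadic scales there is no tilt of
norm at most `M` with a good tube. -/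
theorem scale_ae_aux (hd : 0 < d) (hω : IID μ ρ ω) {ε c : ℝ} (hc : 0 < c)
    (hf : FluctAt ρ β ε c) {κ : ℝ} (hκ0 : 0 < κ) (hκ : κ ≤ 1 / 8) (hκε : 2 * κ ≤ ε) {a : ℝ}
    (ha0 : 0 < a) (ha : 2 * a < 1 + ee d a) (M : ℕ) :
    ∀ᵐ v : Vec d, ∀ᶠ k : ℕ in atTop, v ∉ GS μ β ω κ a M (2 ^ k) := by
  obtain ⟨C, hC, hvol⟩ := vol_GS hd hω hc hf hκ0 hκ hκε ha0 M
  refine ae_eventually_notMem ?_
  set σ : ℝ := (1 + ee d a - 2 * a) / 2 with hσ
  have hσ0 : 0 < σ := by
    rw [hσ]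
    linarith
  set V : ℝ≥0∞ := (volume : Measure (Vec d)) (ball 0 1) with hV
  have hVtop : V ≠ ⊤ := measure_ball_lt_top.ne
  have hle : ∀ k : ℕ, (volume : Measure (Vec d)) (GS μ β ω κ a M (2 ^ k)) ≤
      ENNReal.ofReal (C ^ d * ((2 : ℝ) ^ (-σ * d)) ^ k) * V := by
    intro k
    refine (hvol (2 ^ k) (by positivity)).trans (le_of_eq ?_)
    congr 2
    rw [mul_pow]
    congr 1
    push_cast
    rw [← Real.rpow_natCast ((2 : ℝ) ^ (-σ * d)) k, ← Real.rpow_mul (by norm_num),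
      ← Real.rpow_natCast (2 : ℝ) k, ← Real.rpow_mul (by norm_num), ← Real.rpow_natCast _ d,
      ← Real.rpow_mul (by norm_num)]
    congr 1
    ring
  have hd0 : (0 : ℝ) < d := by exact_mod_cast hd
  have hr1 : (2 : ℝ) ^ (-σ * d) < 1 := by
    refine Real.rpow_lt_one_of_one_lt_of_neg (by norm_num) ?_
    nlinarith
  have hsum : Summable fun k : ℕ => C ^ d * ((2 : ℝ) ^ (-σ * d)) ^ k :=
    (summable_geometric_of_lt_one (by positivity) hr1).mul_left _
  refine ne_top_of_le_ne_top ?_ (ENNReal.tsum_le_tsum hle)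
  rw [ENNReal.tsum_mul_right]
  exact ENNReal.mul_ne_top hsum.tsum_ofReal_ne_top hVtop

/-- Superdiffusivity at all large dyadic scales: there is `κ > 0` such that for every `a` with
`2 a < 1 + max 0 ((1 - a d) / 2)` (that is, `a < 3/5` for `d = 1` and `a < 1/2` for `d ≥ 2`), for
almost every direction `v` and every `M`, at all large scales `n = 2 ^ k` no polymer with a tilt of
norm at most `M` has mass `≥ 1 - κ` in the tube of width `n ^ a` around `v` with probability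
`≥ 1 - κ`. -/
theorem scale_ae (hd : 0 < d) (hω : IID μ ρ ω) (hnc : ∀ c : ℝ, ρ {c} ≠ 1) (hβ : 0 < β)
    (hexp : Integrable (fun t => Real.exp (β * t)) ρ) :
    ∃ κ > 0, ∀ a : ℝ, 0 < a → 2 * a < 1 + ee d a → ∀ᵐ v : Vec d, ∀ M : ℕ, ∀ᶠ k : ℕ in atTop,
      ∀ h : Vec d, ‖h‖ ≤ M →
        μ.real {x | 1 - κ ≤ PolT β h (fun p => ω p x)
          (tube d (2 ^ k) v (((2 ^ k : ℕ) : ℝ) ^ a))} < 1 - κ := by
  obtain ⟨ε, hε, c, hc, hf⟩ := fluct ρ hnc β hβ hexp
  set κ : ℝ := min (ε / 2) (1 / 8) with hκd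
  have hκ0 : 0 < κ := lt_min (by positivity) (by norm_num)
  have hκ : κ ≤ 1 / 8 := min_le_right _ _
  have hκε : 2 * κ ≤ ε := by
    have := min_le_left (ε / 2) (1 / 8)
    linarith
  refine ⟨κ, hκ0, fun a ha0 ha => ?_⟩
  have h1 : ∀ᵐ v : Vec d, ∀ M : ℕ, ∀ᶠ k : ℕ in atTop, v ∉ GS μ β ω κ a M (2 ^ k) :=
    ae_all_iff.2 fun M => scale_ae_aux hd hω hc hf hκ0 hκ hκε ha0 ha M
  filter_upwards [h1] with v hv M
  filter_upwards [hv (max M ⌈‖v‖⌉₊)] with k hk h hh
  by_contra hcon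
  push Not at hcon
  apply hk
  refine ⟨?_, h, ?_, ?_⟩
  · exact (Nat.le_ceil _).trans (by exact_mod_cast le_max_right _ _)
  · exact hh.trans (by exact_mod_cast le_max_left _ _)
  · set A : Set Ω := {x | 1 - κ ≤ PolT β h (fun p => ω p x)
          (tube d (2 ^ k) v (((2 ^ k : ℕ) : ℝ) ^ a))} with hA
    have hm : MeasurableSet A := measurableSet_le measurable_const
      ((measurable_PolT β h _).comp (measurable_pi_iff.2 hω.meas))
    have h2 : μ.real Aᶜ = 1 - μ.real A := probReal_compl_eq_one_sub hm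
    change μ.real Aᶜ ≤ κ
    linarith

end Pool.Agent.W_7d29a1_h46
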