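import Pool.Agent.W_7d29a1_h46.VarU

/-!
Lower bound for the variance of the free energy (TASKS).
-/

namespace Pool.Agent.W_7d29a1_h46

open MeasureTheory ProbabilityTheory Filter Pool.Agent.W_MP_7d29a1_pr

variable {d : ℕ} {Ω : Type*} [MeasurableSpace Ω] {μ : Measure Ω} [IsProbabilityMeasure μ]
  {ρ : Measure ℝ} [IsProbabilityMeasure ρ] {ω : ℕ × Site d → Ω → ℝ} {β : ℝ}

/-- the window inequality with a concentration radius -/
lemma VarL_window (hd : 0 < d) (hω : IID μ ρ ω)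
    (hexp : ∀ b : ℝ, Integrable (fun t => Real.exp (b * t)) ρ) {ε c : ℝ} (hε : 0 < ε)
    (hf : FluctAt ρ β ε c) {κ r R : ℝ} (hr : 0 ≤ r) (hκ0 : 0 < κ) (hκ : κ ≤ 1 / 8)
    (hκε : κ ≤ ε / 2) {h v : Vec d} {n : ℕ}
    (hP : μ.real {x | ¬ (1 - κ ≤ PolT β h (fun p => ω p x) (tube d n v r))} ≤ κ) (hR : 0 < R)
    (hvar : Var[fun y => Real.log (Zn β h (fun p => ω p y) n); μ] ≤ ε / 2 * R ^ 2) :
    c * n ≤ (2 * R + 1) * Real.sqrt (n * (2 * r + 1) ^ d) := by
  classical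
  set T := tube d n v r with hT
  set X : Ω → ℝ := fun y => Real.log (Zn β h (fun p => ω p y) n) with hX
  set m : ℝ := ∫ y, X y ∂μ with hm
  have hd0 : (0 : ℝ) < (2 * d : ℝ) ^ n := by
    have : (0 : ℝ) < d := by exact_mod_cast hd
    positivity
  set ℓ : ℝ := Real.log ((2 * d : ℝ) ^ n) with hℓ
  have hZuniv : ∀ y, Real.log (ZT β h (fun p => ω p y) (Set.univ : Set (Fin n → Step d))) =
      X y + ℓ := by
    intro y
    have h1 := ZT_univ_pos (n := n) hd β h (fun p => ω p y)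
    simp only [hX, hℓ, Zn]
    rw [Real.log_div h1.ne' hd0.ne']
    ring
  have hlog : -(1 / 7 : ℝ) ≤ Real.log (1 - κ) :=
    log_seven.trans (Real.log_le_log (by norm_num) (by linarith))
  -- the tube is nonempty
  have hne : T.Nonempty := by
    by_contra hcon
    have h1 : {x | ¬ (1 - κ ≤ PolT β h (fun p => ω p x) T)} = Set.univ := by
      ext x
      simp only [Set.mem_univ, iff_true]
      intro h2
      have h2' : 1 - κ ≤ PolT β h (fun p => ω p x) T := h2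
      exact hcon (nonempty_of_PolT (lt_of_lt_of_le (by linarith) h2'))
    rw [h1, probReal_univ] at hP
    linarith
  -- the bad event
  have hcheb := meas_ge_le_variance_div_sq (memLp_log (μ := μ) (β := β) hd hω hexp h n) hR
  have hbad : {x | Real.log (ZT β h (fun p => ω p x) T) -
      (fun _ : ℕ × Site d → ℝ => (0 : ℝ)) (fun p => ω p x) ∉
        Set.Icc (m + ℓ - R - 1) (m + ℓ + R)} ⊆
      {x | R ≤ |X x - m|} ∪ {x | ¬ (1 - κ ≤ PolT β h (fun p => ω p x) T)} := by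
    intro x hx
    by_contra hcon
    rw [Set.mem_union, not_or] at hcon
    have h1 : ¬ R ≤ |X x - m| := hcon.1
    have h2 : 1 - κ ≤ PolT β h (fun p => ω p x) T := not_not.1 hcon.2
    rw [not_le, abs_lt] at h1
    have h3 := le_ZT_of_PolT hd h2
    have h4 := ZT_univ_pos (n := n) hd β h (fun p => ω p x)
    have h5 := ZT_pos β h (fun p => ω p x) hne
    have h6 := Real.log_le_log (mul_pos (by linarith) h4) h3
    rw [Real.log_mul (by linarith) h4.ne', hZuniv] at h6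
    have h7 := Real.log_le_log h5 (ZT_mono β h (fun p => ω p x) (Set.subset_univ T))
    rw [hZuniv] at h7
    apply hx
    change _ ≤ _ - (0 : ℝ) ∧ _ - (0 : ℝ) ≤ _
    constructor
    · linarith
    · linarith
  have hmeas : μ {x | Real.log (ZT β h (fun p => ω p x) T) -
      (fun _ : ℕ × Site d → ℝ => (0 : ℝ)) (fun p => ω p x) ∉
        Set.Icc (m + ℓ - R - 1) (m + ℓ + R)} ≤ ENNReal.ofReal ε := by
    have h1 : μ {x | R ≤ |X x - m|} ≤ ENNReal.ofReal (ε / 2) := by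
      refine hcheb.trans (ENNReal.ofReal_le_ofReal ?_)
      rw [div_le_iff₀ (by positivity)]
      exact hvar
    have h2 : μ {x | ¬ (1 - κ ≤ PolT β h (fun p => ω p x) T)} ≤ ENNReal.ofReal (ε / 2) := by
      rw [ENNReal.le_ofReal_iff_toReal_le (measure_ne_top _ _) (by positivity)]
      exact hP.trans hκε
    calc _ ≤ μ ({x | R ≤ |X x - m|} ∪ {x | ¬ (1 - κ ≤ PolT β h (fun p => ω p x) T)}) :=
          measure_mono hbad
      _ ≤ μ {x | R ≤ |X x - m|} + μ {x | ¬ (1 - κ ≤ PolT β h (fun p => ω p x) T)} :=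
          measure_union_le _ _
      _ ≤ ENNReal.ofReal (ε / 2) + ENNReal.ofReal (ε / 2) := add_le_add h1 h2
      _ = ENNReal.ofReal ε := by
          rw [← ENNReal.ofReal_add (by positivity) (by positivity)]
          congr 1
          ring
  have hmain := cond_fluct hω hf h (V := VT d n 0 v r) (B := FF d n n \ VT d n 0 v r)
    Finset.disjoint_sdiff hne (fun s _ p hp => by
      have h1 := sites_subset_FF s hp
      rw [Finset.mem_union, Finset.mem_sdiff]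
      by_cases h2 : p ∈ VT d n 0 v r
      · exact Or.inl h2
      · exact Or.inr ⟨h1, h2⟩) (N := n) (fun s hs => by
      have := card_sites_VT (k := 0) hs
      rwa [Nat.sub_zero] at this) (F := fun _ => 0) measurable_const (fun _ _ _ => rfl)
    (m + ℓ - R - 1) (m + ℓ + R) hmeas
  refine hmain.trans ?_
  have h1 : m + ℓ + R - (m + ℓ - R - 1) = 2 * R + 1 := by ring
  rw [h1]
  exact mul_le_mul_of_nonneg_left (Real.sqrt_le_sqrt (card_VT_le hr)) (by linarith)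

/-- TASK VarL2. If `ν(h, v) < a` and `a d < 1` then `Var log Z_n(h) ≥ c n^{1 - a d}`.
Proof. `ε, c` from `fluct ρ hnc β hβ (hexp β)` (this is `FluctAt ρ β ε c`), `κ = min (ε / 2) (1 / 8)`
(make `ε ≤ 1` if needed), `n₀` from `exists_n0T`. Fix `n ≥ max n₀ 1`, `r = n ^ a`,
`T = tube d n v r`, `σ² = Var X`, `X = log Zn`. By Chebyshev (`meas_ge_le_variance_div_sq`, with
`memLp_log`) `P(|X - E X| ≥ R) ≤ σ² / R² ≤ ε / 2` for `R = σ √(2/ε) + 1` (or any `R > 0` with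
`σ² ≤ (ε / 2) R²`). On the event `1 - κ ≤ PolT` one has
`log ZT T ∈ [log ZT univ + log (1 - κ), log ZT univ]`, and
`log ZT univ = X + n log (2d)`. So `P(log ZT T ∉ [α, γ]) ≤ ε/2 + κ ≤ ε` with
`α = E X + n log (2d) - R - 1`, `γ = E X + n log (2d) + R`. Now `cond_fluct` with
`V = VT d n 0 v r`, `B = FF d n n \ V`, `N = n - 0` (`card_sites_VT`), `F = 0` gives
`c n ≤ (2R + 1) √(n (2r+1)^d) ≤ (2R+1) 3^{d/2} n^{(1+ad)/2}` (`card_VT_le`, see `pow_form` for the
power computation), so `2R + 1 ≥ c' n^{(1-ad)/2}`, and for large `n` (as `1 - a d > 0`)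
`σ² ≥ c'' n^{1-ad}`. -/
theorem var_lower (hd : 0 < d) (hω : IID μ ρ ω) (hnc : ∀ c : ℝ, ρ {c} ≠ 1) (hβ : 0 < β)
    (hexp : ∀ b : ℝ, Integrable (fun t => Real.exp (b * t)) ρ) {a : ℝ} (ha0 : 0 < a)
    (had : a * d < 1) {h v : Vec d} (ha : nuT μ β ω h v < a) :
    ∃ c > 0, ∀ᶠ n : ℕ in atTop,
      c * (n : ℝ) ^ (1 - a * d) ≤ Var[fun y => Real.log (Zn β h (fun p => ω p y) n); μ] := by
  obtain ⟨ε, hε, c, hc, hf⟩ := fluct ρ hnc β hβ (hexp β)
  have hf' : FluctAt ρ β ε c := hf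
  set κ : ℝ := min (ε / 2) (1 / 8) with hκ
  have hκ0 : 0 < κ := lt_min (by positivity) (by norm_num)
  obtain ⟨n0, hn0⟩ := exists_n0T hd hω.meas ha hκ0
  set c1 : ℝ := c / Real.sqrt (3 ^ d) with hc1
  have h3 : 0 < Real.sqrt ((3 : ℝ) ^ d) := Real.sqrt_pos.2 (by positivity)
  have hc1p : 0 < c1 := by positivity
  have hexp2 : 0 < (1 - a * d) / 2 := by linarith
  have hlarge : ∀ᶠ n : ℕ in atTop, 6 / c1 ≤ (n : ℝ) ^ ((1 - a * d) / 2) :=
    ((tendsto_rpow_atTop hexp2).comp tendsto_natCast_atTop_atTop).eventually_ge_atTop (6 / c1)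
  refine ⟨ε * c1 ^ 2 / 32, by positivity, ?_⟩
  filter_upwards [hlarge, eventually_ge_atTop (max n0 1)] with n hn hn'
  have hnn0 : n0 ≤ n := (le_max_left _ _).trans hn'
  have hn1 : (1 : ℝ) ≤ n := by exact_mod_cast (le_max_right n0 1).trans hn'
  have hnpos : (0 : ℝ) < n := by linarith
  set σ2 : ℝ := Var[fun y => Real.log (Zn β h (fun p => ω p y) n); μ] with hσ2
  have hσ0 : 0 ≤ σ2 := variance_nonneg _ _
  set q : ℝ := Real.sqrt (2 * σ2 / ε) with hq
  have hq0 : 0 ≤ q := Real.sqrt_nonneg _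
  have hq2 : q ^ 2 = 2 * σ2 / ε := Real.sq_sqrt (by positivity)
  have hna : 0 ≤ (n : ℝ) ^ a := by positivity
  have hwin := VarL_window hd hω hexp hε hf' hna hκ0 (min_le_right _ _) (min_le_left _ _)
    (hn0 n hnn0) (R := q + 1) (by linarith) (by
      have h4 : σ2 = ε / 2 * q ^ 2 := by
        rw [hq2]
        field_simp
      change σ2 ≤ _
      calc σ2 = ε / 2 * q ^ 2 := h4
        _ ≤ ε / 2 * (q + 1) ^ 2 := by
          apply mul_le_mul_of_nonneg_left _ (by positivity)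
          exact pow_le_pow_left₀ hq0 (by linarith) 2)
  -- powers
  have hna1 : 1 ≤ (n : ℝ) ^ a := Real.one_le_rpow hn1 ha0.le
  have e1 : (n : ℝ) * (2 * (n : ℝ) ^ a + 1) ^ d ≤ 3 ^ d * (n : ℝ) ^ (1 + a * d) := by
    have e2 : (2 * (n : ℝ) ^ a + 1) ^ d ≤ (3 * (n : ℝ) ^ a) ^ d :=
      pow_le_pow_left₀ (by positivity) (by linarith) d
    have e3 : (n : ℝ) ^ (1 + a * d) = n * ((n : ℝ) ^ a) ^ d := by
      rw [Real.rpow_add hnpos, Real.rpow_one, Real.rpow_mul hnpos.le, Real.rpow_natCast]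
    rw [e3]
    calc (n : ℝ) * (2 * (n : ℝ) ^ a + 1) ^ d ≤ n * (3 * (n : ℝ) ^ a) ^ d :=
          mul_le_mul_of_nonneg_left e2 hnpos.le
      _ = 3 ^ d * (n * ((n : ℝ) ^ a) ^ d) := by rw [mul_pow]; ring
  have e4 : Real.sqrt (n * (2 * (n : ℝ) ^ a + 1) ^ d) ≤
      Real.sqrt (3 ^ d) * (n : ℝ) ^ ((1 + a * d) / 2) := by
    refine (Real.sqrt_le_sqrt e1).trans (le_of_eq ?_)
    rw [Real.sqrt_mul (by positivity), Real.sqrt_eq_rpow ((n : ℝ) ^ (1 + a * d)),
      ← Real.rpow_mul hnpos.le]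
    ring_nf
  have e7 : (n : ℝ) = (n : ℝ) ^ ((1 - a * d) / 2) * (n : ℝ) ^ ((1 + a * d) / 2) := by
    rw [← Real.rpow_add hnpos]
    have : (1 - a * d) / 2 + (1 + a * d) / 2 = 1 := by ring
    rw [this, Real.rpow_one]
  have hpos2 : 0 < (n : ℝ) ^ ((1 + a * d) / 2) := by positivity
  set P : ℝ := (n : ℝ) ^ ((1 - a * d) / 2) with hP
  have hPpos : 0 < P := by positivity
  have e8 : c * P ≤ (2 * (q + 1) + 1) * Real.sqrt (3 ^ d) := by
    have e9 : c * (P * (n : ℝ) ^ ((1 + a * d) / 2)) ≤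
        (2 * (q + 1) + 1) * (Real.sqrt (3 ^ d) * (n : ℝ) ^ ((1 + a * d) / 2)) := by
      rw [← e7]
      exact hwin.trans (mul_le_mul_of_nonneg_left e4 (by linarith))
    have e10 : (c * P) * (n : ℝ) ^ ((1 + a * d) / 2) ≤
        ((2 * (q + 1) + 1) * Real.sqrt (3 ^ d)) * (n : ℝ) ^ ((1 + a * d) / 2) := by
      calc (c * P) * (n : ℝ) ^ ((1 + a * d) / 2) = c * (P * (n : ℝ) ^ ((1 + a * d) / 2)) := by ring
        _ ≤ _ := e9
        _ = _ := by ring
    exact le_of_mul_le_mul_right e10 hpos2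
  have e11 : c1 * P ≤ 2 * q + 3 := by
    rw [hc1, div_mul_eq_mul_div, div_le_iff₀ h3]
    linarith
  have e12 : 6 ≤ c1 * P := by
    rw [div_le_iff₀ hc1p] at hn
    linarith
  have e13 : c1 * P / 4 ≤ q := by linarith
  have e14 : (c1 * P / 4) ^ 2 ≤ 2 * σ2 / ε := by
    rw [← hq2]
    exact pow_le_pow_left₀ (by positivity) e13 2
  have e15 : P ^ 2 = (n : ℝ) ^ (1 - a * d) := by
    rw [hP, ← Real.rpow_natCast, ← Real.rpow_mul hnpos.le]
    congr 1
    push_cast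
    ring
  rw [le_div_iff₀ hε] at e14
  rw [← e15]
  have e16 : (c1 * P / 4) ^ 2 * ε = 2 * (ε * c1 ^ 2 / 32 * P ^ 2) := by ring
  linarith

/-- TASK VarL3. If `ν(h, v) < a` and `a d < 1` then `χ(h) ≥ (1 - a d) / 2`.
Proof. `le_of_forall_lt`: let `x < (1 - a d) / 2`, `0 < x` (if `x ≤ 0` use any positive element, the
set is nonempty); then `x` is in the set of `chiT`, since `n ^ (2 x) ≤ c n^{1-ad}` eventually
(`var_lower`); `le_csSup` with the upper bound `d + 2` of the set from `var_upper`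
(`n^{2x} ≤ C n^{2d+2}` for large `n` forces `x ≤ d + 1`). -/
theorem chi_ge (hd : 0 < d) (hω : IID μ ρ ω) (hnc : ∀ c : ℝ, ρ {c} ≠ 1) (hβ : 0 < β)
    (hexp : ∀ b : ℝ, Integrable (fun t => Real.exp (b * t)) ρ) {a : ℝ} (ha0 : 0 < a)
    (had : a * d < 1) {h v : Vec d} (ha : nuT μ β ω h v < a) :
    (1 - a * d) / 2 ≤ chiT μ β ω h := by
  obtain ⟨c, hc, hlow⟩ := var_lower hd hω hnc hβ hexp ha0 had ha
  obtain ⟨C, hC⟩ := var_upper (β := β) hd hω hexp h
  have hbdd : BddAbove {x : ℝ | 0 < x ∧ ∀ᶠ n : ℕ in Filter.atTop,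
      (n : ℝ) ^ (2 * x) ≤ Var[fun y => Real.log (Zn β h (fun p => ω p y) n); μ]} := by
    refine ⟨d + 1, ?_⟩
    rintro x ⟨-, hx⟩
    by_contra hcon
    rw [not_le] at hcon
    have h1 : 0 < 2 * x - (2 * d + 2 : ℝ) := by linarith
    have h2 : ∀ᶠ n : ℕ in atTop, C + 1 ≤ (n : ℝ) ^ (2 * x - (2 * d + 2 : ℝ)) :=
      ((tendsto_rpow_atTop h1).comp tendsto_natCast_atTop_atTop).eventually_ge_atTop (C + 1)
    obtain ⟨n, hn1, hn2, hn3⟩ := (hx.and (h2.and (eventually_ge_atTop 1))).exists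
    have hnpos : (0 : ℝ) < n := by exact_mod_cast hn3
    have h3 := hn1.trans (hC n hn3)
    have h4 : (n : ℝ) ^ (2 * x) = (n : ℝ) ^ (2 * x - (2 * d + 2 : ℝ)) * (n : ℝ) ^ (2 * d + 2) := by
      rw [← Real.rpow_natCast (n : ℝ) (2 * d + 2), ← Real.rpow_add hnpos]
      congr 1
      push_cast
      ring
    rw [h4] at h3
    have h5 : (0 : ℝ) < (n : ℝ) ^ (2 * d + 2) := by positivity
    have h6 := le_of_mul_le_mul_right h3 h5
    linarith
  have hmem : ∀ x : ℝ, 0 < x → x < (1 - a * d) / 2 → x ≤ chiT μ β ω h := by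
    intro x hx0 hx
    refine le_csSup hbdd ⟨hx0, ?_⟩
    have h1 : 0 < 1 - a * d - 2 * x := by linarith
    have h2 : ∀ᶠ n : ℕ in atTop, 1 / c ≤ (n : ℝ) ^ (1 - a * d - 2 * x) :=
      ((tendsto_rpow_atTop h1).comp tendsto_natCast_atTop_atTop).eventually_ge_atTop (1 / c)
    filter_upwards [hlow, h2, eventually_ge_atTop 1] with n hn1 hn2 hn3
    have hnpos : (0 : ℝ) < n := by exact_mod_cast hn3
    refine le_trans ?_ hn1
    have h4 : (n : ℝ) ^ (1 - a * d) = (n : ℝ) ^ (1 - a * d - 2 * x) * (n : ℝ) ^ (2 * x) := by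
      rw [← Real.rpow_add hnpos]
      congr 1
      ring
    rw [h4]
    have h5 : (0 : ℝ) < (n : ℝ) ^ (2 * x) := by positivity
    rw [div_le_iff₀ hc] at hn2
    calc (n : ℝ) ^ (2 * x) = 1 * (n : ℝ) ^ (2 * x) := (one_mul _).symm
      _ ≤ ((n : ℝ) ^ (1 - a * d - 2 * x) * c) * (n : ℝ) ^ (2 * x) :=
          mul_le_mul_of_nonneg_right hn2 h5.le
      _ = c * ((n : ℝ) ^ (1 - a * d - 2 * x) * (n : ℝ) ^ (2 * x)) := by ring
  have hpos : 0 < (1 - a * d) / 2 := by linarith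
  refine le_of_forall_lt fun y hy => ?_
  have h1 : max y 0 < (1 - a * d) / 2 := max_lt hy hpos
  obtain ⟨x, hx1, hx2⟩ := exists_between h1
  exact lt_of_lt_of_le ((le_max_left _ _).trans_lt hx1)
    (hmem x ((le_max_right _ _).trans_lt hx1) hx2)

end Pool.Agent.W_7d29a1_h46
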