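import Pool.Agent.W_7d29a1_h46.Curv
import Pool.Agent.W_7d29a1_h46.VarL
import Pool.Agent.W_7d29a1_h46.PeanoD
import Pool.Agent.W_7d29a1_h46.Scale
import Pool.Agent.W_MP_7d29a1_pr.Main

/-!
Assembly.
-/

namespace Pool.Agent.W_7d29a1_h46

open MeasureTheory ProbabilityTheory Filter Topology Pool.Agent.W_MP_7d29a1_pr
open scoped NNReal ENNReal

/-! ### The line as `ℝ^1` -/

/-- `tv` as a linear isometry equivalence. -/
noncomputable def tvL : ℝ ≃ₗᵢ[ℝ] Vec 1 :=
  LinearIsometryEquiv.ofSurjective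
    { toFun := tv
      map_add' := fun x y => by ext i; simp [tr_tv_apply]
      map_smul' := fun c x => by ext i; simp [tr_tv_apply]
      norm_map' := fun x => by
        change ‖tv x‖ = ‖x‖
        rw [tr_norm, tr_tv_apply, Real.norm_eq_abs] } tv_surjective

lemma tvL_apply (x : ℝ) : tvL x = tv x := rfl

lemma ae_tv {P : Vec 1 → Prop} (h : ∀ᵐ x : ℝ, P (tv x)) : ∀ᵐ v : Vec 1, P v := by
  have h1 := (tvL.symm.measurePreserving).quasiMeasurePreserving.ae h
  filter_upwards [h1] with v hv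
  rwa [← tvL_apply, tvL.apply_symm_apply] at hv

lemma dimH_tv (s : Set (Vec 1)) : dimH s = dimH (tv ⁻¹' s) := by
  rw [← tv_isometry.dimH_image (tv ⁻¹' s), Set.image_preimage_eq s tv_surjective]

lemma tv_zero_apply (h : Vec 1) : tv (h 0) = h := by
  ext i
  rw [tr_tv_apply, Subsingleton.elim i 0]

section

variable {Ω : Type*} [MeasurableSpace Ω] {μ : Measure Ω} [IsProbabilityMeasure μ]
  {ρ : Measure ℝ} [IsProbabilityMeasure ρ] {ω : ℕ × Site 1 → Ω → ℝ} {β : ℝ}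


lemma isProb_map : IsProbabilityMeasure (ρ.map fun t => β * t) :=
  Measure.isProbabilityMeasure_map (by fun_prop)

lemma lam_convex (hexp : ∀ b : ℝ, Integrable (fun t => Real.exp (b * t)) ρ) :
    ConvexOn ℝ Set.univ (W_7d29a1_h47.Lam (ρ.map fun t => β * t)) := by
  have := isProb_map (ρ := ρ) (β := β)
  exact W_7d29a1_h47.Lam_convex (EM_map hexp β)

/-- Almost every tilt has a direction with wandering exponent at most `3 / 4`. -/
lemma ae_upper (hω : IID μ ρ ω) (hexp : ∀ b : ℝ, Integrable (fun t => Real.exp (b * t)) ρ) :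
    ∀ᵐ h : Vec 1, ∃ v, nuT μ β ω h v ≤ 3 / 4 := by
  refine ae_tv ?_
  filter_upwards [ae_expd (lam_convex (β := β) hexp)] with h hh
  obtain ⟨v, hv⟩ := hh
  refine ⟨tv v, (nuT_le_of_expd hω hexp one_pos hv).trans (le_of_eq (by norm_num))⟩

/-- The dimension of the tilts with large wandering exponent. -/
lemma dim_upper (hω : IID μ ρ ω) (hexp : ∀ b : ℝ, Integrable (fun t => Real.exp (b * t)) ρ)
    {a : ℝ} (ha0 : 3 / 4 ≤ a) (ha1 : a < 1) :
    dimH {h : Vec 1 | ∀ v, a < nuT μ β ω h v} ≤ ENNReal.ofReal (2 * (1 - a) / (2 * a - 1)) := by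
  set α : ℝ := 2 * (1 - a) / (2 * a - 1) with hα
  have h1 : (0 : ℝ) < 2 * a - 1 := by linarith
  have hα0 : 0 < α := div_pos (by linarith) h1
  have hα1 : α ≤ 1 := by
    rw [hα, div_le_one h1]
    linarith
  have he : 1 / 2 + 1 / (2 * (1 + α)) = a := by
    rw [hα]
    field_simp
    ring
  rw [dimH_tv]
  refine (dimH_mono ?_).trans (dimH_not_expd (lam_convex (β := β) hexp) hα0 hα1)
  intro h hh hcon
  obtain ⟨v, hv⟩ := hcon
  have h2 := nuT_le_of_expd hω hexp hα0 hv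
  rw [he] at h2
  have h3 : a < nuT μ β ω (tv h) (tv v) := hh (tv v)
  linarith

lemma chi_pos (hω : IID μ ρ ω) (hnc : ∀ c : ℝ, ρ {c} ≠ 1) (hβ : 0 < β)
    (hexp : ∀ b : ℝ, Integrable (fun t => Real.exp (b * t)) ρ) {h v : Vec 1}
    (hv : nuT μ β ω h v < 1) : 0 < chiT μ β ω h := by
  obtain ⟨a, ha, ha1⟩ := exists_between (max_lt hv one_pos)
  have ha0 : 0 < a := (le_max_right _ _).trans_lt ha
  have h1 := chi_ge (d := 1) one_pos hω hnc hβ hexp ha0 (by simpa using ha1)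
    ((le_max_left _ _).trans_lt ha)
  refine lt_of_lt_of_le ?_ h1
  push_cast
  linarith

lemma chi_eighth (hω : IID μ ρ ω) (hnc : ∀ c : ℝ, ρ {c} ≠ 1) (hβ : 0 < β)
    (hexp : ∀ b : ℝ, Integrable (fun t => Real.exp (b * t)) ρ) {h v : Vec 1}
    (hv : nuT μ β ω h v ≤ 3 / 4) : 1 / 8 ≤ chiT μ β ω h := by
  refine le_of_forall_pos_le_add fun ε hε => ?_
  set a : ℝ := 3 / 4 + min (2 * ε) (1 / 8) with ha
  have hm : 0 < min (2 * ε) (1 / 8 : ℝ) := lt_min (by positivity) (by norm_num)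
  have hm1 : min (2 * ε) (1 / 8 : ℝ) ≤ 1 / 8 := min_le_right _ _
  have hm2 : min (2 * ε) (1 / 8 : ℝ) ≤ 2 * ε := min_le_left _ _
  have h1 := chi_ge (d := 1) (a := a) one_pos hω hnc hβ hexp (by linarith)
    (by push_cast; linarith) (lt_of_le_of_lt hv (by linarith))
  push_cast at h1
  linarith

/-- Outside a set of dimension zero the exponents are nontrivial. -/
lemma dim_zero (hω : IID μ ρ ω) (hnc : ∀ c : ℝ, ρ {c} ≠ 1) (hβ : 0 < β)
    (hexp : ∀ b : ℝ, Integrable (fun t => Real.exp (b * t)) ρ) :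
    dimH {h : Vec 1 | ¬ ((∃ v, nuT μ β ω h v < 1) ∧ 0 < chiT μ β ω h)} = 0 := by
  have hsub : ∀ a : ℝ, a < 1 → {h : Vec 1 | ¬ ((∃ v, nuT μ β ω h v < 1) ∧ 0 < chiT μ β ω h)} ⊆
      {h : Vec 1 | ∀ v, a < nuT μ β ω h v} := by
    intro a ha h hh v
    by_contra hcon
    push Not at hcon
    exact hh ⟨⟨v, by linarith⟩, chi_pos hω hnc hβ hexp (by linarith)⟩
  have hle : ∀ a : ℝ, 3 / 4 ≤ a → a < 1 →
      dimH {h : Vec 1 | ¬ ((∃ v, nuT μ β ω h v < 1) ∧ 0 < chiT μ β ω h)} ≤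
        ENNReal.ofReal (2 * (1 - a) / (2 * a - 1)) := fun a h1 h2 =>
    (dimH_mono (hsub a h2)).trans (dim_upper hω hexp h1 h2)
  refine le_antisymm ?_ bot_le
  have ht : Tendsto (fun n : ℕ => ENNReal.ofReal (2 * (1 - (1 - 1 / ((n : ℝ) + 4))) /
      (2 * (1 - 1 / ((n : ℝ) + 4)) - 1))) atTop (𝓝 (ENNReal.ofReal (2 * (1 - (1 - 0)) /
      (2 * (1 - 0) - 1)))) := by
    refine ENNReal.tendsto_ofReal ?_
    have h1 : Tendsto (fun n : ℕ => 1 / ((n : ℝ) + 4)) atTop (𝓝 0) := by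
      simp only [one_div]
      exact (tendsto_atTop_add_const_right _ _ tendsto_natCast_atTop_atTop).inv_tendsto_atTop
    have h2 := h1.const_sub 1
    exact ((h2.const_sub 1).const_mul 2).div ((h2.const_mul 2).sub_const 1) (by norm_num)
  have h0 : ENNReal.ofReal (2 * (1 - (1 - 0)) / (2 * (1 - 0) - 1)) = 0 := by norm_num
  rw [h0] at ht
  refine ge_of_tendsto' ht fun n => hle _ ?_ ?_
  · have : 1 / ((n : ℝ) + 4) ≤ 1 / 4 := by
      apply one_div_le_one_div_of_le (by norm_num)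
      have : (0 : ℝ) ≤ n := Nat.cast_nonneg n
      linarith
    linarith
  · have : (0 : ℝ) < 1 / ((n : ℝ) + 4) := by positivity
    linarith

/-- The free energy as a function on `ℝ^1`, and the curved tilts. -/
lemma free_energy (hω : IID μ ρ ω) (hnc : ∀ c : ℝ, ρ {c} ≠ 1) (hβ : 0 < β)
    (hexp : ∀ b : ℝ, Integrable (fun t => Real.exp (b * t)) ρ) :
    ∃ L : Vec 1 → ℝ, ConvexOn ℝ Set.univ L ∧
      (∀ h, ∀ᵐ x ∂μ, Tendsto (fun n : ℕ => Real.log (Zn β h (fun p => ω p x) n) / n) atTop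
        (𝓝 (L h))) ∧
      {h : Vec 1 | ∃ v, nuT μ β ω h v < 3 / 5 ∧ ∃ c > 0, ∃ δ > 0, ∀ t : Vec 1, ‖t‖ < δ →
        L h + inner ℝ v t + c * ‖t‖ ^ 2 ≤ L (h + t)}.Countable := by
  have hprob := isProb_map (ρ := ρ) (β := β)
  have hEM := EM_map hexp β
  refine ⟨fun h => W_7d29a1_h47.Lam (ρ.map fun t => β * t) (h 0) - Real.log 2, ?_, ?_, ?_⟩
  · have h1 := lam_convex (β := β) hexp
    refine ⟨convex_univ, fun x _ y _ s t hs ht hst => ?_⟩
    have h2 := h1.2 (Set.mem_univ (x 0)) (Set.mem_univ (y 0)) hs ht hst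
    have e : (s • x + t • y) 0 = s • x 0 + t • y 0 := by simp
    beta_reduce
    rw [e]
    simp only [smul_eq_mul] at h2 ⊢
    have : s * Real.log 2 + t * Real.log 2 = Real.log 2 := by rw [← add_mul, hst, one_mul]
    linarith
  · intro h
    have h1 := W_7d29a1_h47.tendsto_logZ hEM (h 0)
    have h2 := (mp_toE hω β).quasiMeasurePreserving.ae h1
    filter_upwards [h2] with x hx
    have h3 := hx.sub_const (Real.log 2)
    refine h3.congr' ?_
    filter_upwards [eventually_ge_atTop 1] with n hn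
    have hn0 : (n : ℝ) ≠ 0 := by
      have : (0 : ℝ) < n := by exact_mod_cast hn
      exact this.ne'
    have e1 : Zn β h (fun p => ω p x) n =
        W_7d29a1_h47.Z (toE β fun p => ω p x) (h 0) 0 0 n / 2 ^ n := by
      unfold Zn
      rw [← ZT_univ1, tv_zero_apply]
      norm_num
    rw [e1, Real.log_div (W_7d29a1_h47.Z_pos _ _ _ _ _).ne' (by positivity), Real.log_pow]
    field_simp
  · have h1 := countable_curved hω hnc hβ hexp
    refine (h1.image tv).mono ?_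
    rintro h ⟨v, hv, c, hc, δ, hδ, ht⟩
    refine ⟨h 0, ⟨v 0, ?_, c, hc, δ, hδ, fun t htδ => ?_⟩, tv_zero_apply h⟩
    · rwa [tv_zero_apply, tv_zero_apply]
    · have h2 := ht (tv t) (by rw [tr_norm, tr_tv_apply]; exact htδ)
      have e1 : inner ℝ v (tv t) = v 0 * t := by
        simp [PiLp.inner_apply, tr_tv_apply, mul_comm]
      have e2 : ‖tv t‖ ^ 2 = t ^ 2 := by rw [tr_norm, tr_tv_apply, sq_abs]
      have e3 : (h + tv t) 0 = h 0 + t := by rw [PiLp.add_apply, tr_tv_apply]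
      simp only [e1, e2, e3] at h2
      linarith

end

/-- `ν(0, 0)` is the exponent `ν` of the problem. -/
lemma nuT_zero {Ω : Type*} [MeasurableSpace Ω] (μ : Measure Ω) {d : ℕ} (β : ℝ)
    (ω : ℕ × Site d → Ω → ℝ) : nuT μ β ω 0 0 = nu μ β ω := by
  have h1 : ∀ (n : ℕ) (r : ℝ), tube d n 0 r = inBall d n r := by
    intro n r
    ext s
    unfold tube inBall
    simp only [smul_zero, sub_zero, norm_emb]
  have h2 : ∀ (n : ℕ) (η : ℕ × Site d → ℝ) (E : Set (Fin n → Step d)),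
      PolT β 0 η E = Pol β η n E := by
    intro n η E
    unfold PolT ZT wgt
    rw [Pol_eq]
    unfold ZE
    simp only [inner_zero_left, zero_add]
    congr 1
    simp only [Set.mem_univ, if_true]
  unfold nuT nu nuSetT nuSet
  simp only [h1, h2]

end Pool.Agent.W_7d29a1_h46
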