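import Pool.Agent.W_7d29a1_h46.Tr

/-!
Tilts at which the free energy is curved (TASKS).
-/

namespace Pool.Agent.W_7d29a1_h46

open MeasureTheory ProbabilityTheory Filter Topology Pool.Agent.W_MP_7d29a1_pr

variable {Ω : Type*} [MeasurableSpace Ω] {μ : Measure Ω} [IsProbabilityMeasure μ]
  {ρ : Measure ℝ} [IsProbabilityMeasure ρ] {ω : ℕ × Site 1 → Ω → ℝ} {β : ℝ}

/-- TASK Curv1. The direction of a tube with large mass is a subgradient of the free energy
`Λ = Lam (ρ.map (β * ·))` at the tilt.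
Proof. Let `n ≥ m`, `T = tube 1 n (tv v) (n^a)`. On the event `A_n = {1 - κ ≤ PolT T}`, of probability
`≥ 1 - κ > 0`: `ZT h' univ ≥ ZT h' T ≥ exp (n v (h' - h) - |h' - h| n^a) ZT h T`
`≥ exp (...) (1 - κ) ZT h univ` (`ZT_tilt_ge`, `tube_end`, `le_ZT_of_PolT`). Also
`(1/n) log ZT h univ → Λ(h)` almost surely and the same for `h'` (`tendsto_logZ`, `ZT_univ1`,
`mp_toE`); so the probability of `{|(1/n) log ZT - Λ| > ε}` (for `h` or `h'`) tends to `0` and the
event meets `A_n` for large `n`. Divide by `n`, let `n → ∞`, `ε → 0` (`a < 1`). -/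
lemma subgrad (hω : IID μ ρ ω) (hexp : ∀ b : ℝ, Integrable (fun t => Real.exp (b * t)) ρ)
    {κ a : ℝ} (hκ : κ < 1) (ha1 : a < 1) {m : ℕ} {h v : ℝ} (hp : Pc μ β ω κ a m (tv h) (tv v))
    (h' : ℝ) :
    W_7d29a1_h47.Lam (ρ.map fun t => β * t) h + v * (h' - h) ≤
      W_7d29a1_h47.Lam (ρ.map fun t => β * t) h' := by
  have hprob : IsProbabilityMeasure (ρ.map fun t => β * t) :=
    Measure.isProbabilityMeasure_map (measurable_const_mul β).aemeasurable
  have hEM : W_7d29a1_h47.EM (ρ.map fun t => β * t) := EM_map hexp β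
  have hmp := mp_toE hω β
  set Λ : ℝ → ℝ := W_7d29a1_h47.Lam (ρ.map fun t => β * t) with hΛ
  set F : ℝ → ℕ → Ω → ℝ := fun g n x =>
    Real.log (ZT β (tv g) (fun p => ω p x) (Set.univ : Set (Fin n → Step 1))) / n with hF
  have hlim : ∀ g : ℝ, ∀ᵐ x ∂μ, Tendsto (fun n : ℕ => F g n x) atTop (𝓝 (Λ g)) := by
    intro g
    have h1 := hmp.quasiMeasurePreserving.ae (W_7d29a1_h47.tendsto_logZ hEM g)
    filter_upwards [h1] with x hx
    refine hx.congr fun n => ?_
    rw [hF]
    simp only [ZT_univ1]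
  set D : ℕ → Ω → ℝ := fun n x => F h' n x - F h n x with hD
  have hDlim : ∀ᵐ x ∂μ, Tendsto (fun n : ℕ => D n x) atTop (𝓝 (Λ h' - Λ h)) := by
    filter_upwards [hlim h', hlim h] with x h1 h2
    exact h1.sub h2
  have hFm : ∀ g n, Measurable (F g n) := by
    intro g n
    have h1 : Measurable fun x : Ω =>
        ZT β (tv g) (fun p => ω p x) (Set.univ : Set (Fin n → Step 1)) :=
      (measurable_ZT β (tv g) (Set.univ : Set (Fin n → Step 1))).comp hω.measurable_field
    exact (Real.measurable_log.comp h1).div_const _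
  have hDm : ∀ n, AEStronglyMeasurable (D n) μ := fun n =>
    ((hFm h' n).sub (hFm h n)).aestronglyMeasurable
  have hmeas := tendstoInMeasure_of_tendsto_ae hDm hDlim
  -- the bound on the good event
  have hgood : ∀ n : ℕ, 0 < n → ∀ x : Ω,
      1 - κ ≤ PolT β (tv h) (fun p => ω p x) (tube 1 n (tv v) ((n : ℝ) ^ a)) →
      v * (h' - h) - |h' - h| * (n : ℝ) ^ (a - 1) + Real.log (1 - κ) / n ≤ D n x := by
    intro n hn x hx
    have hn0 : (0 : ℝ) < n := by exact_mod_cast hn
    have hκ1 : 0 < 1 - κ := by linarith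
    have q1 := le_ZT_of_PolT (by norm_num : 0 < 1) hx
    have hin : ∀ y z : ℝ, inner ℝ (tv y - tv z) (tv v) = v * (y - z) := by
      intro y z
      rw [inner_sub_left]
      simp only [tv, EuclideanSpace.inner_single_left, PiLp.single_apply]
      simp
      ring
    have hnorm : ‖tv h' - tv h‖ = |h' - h| := by
      rw [← dist_eq_norm, tv_isometry.dist_eq, Real.dist_eq]
    have hA : ∀ s ∈ tube 1 n (tv v) ((n : ℝ) ^ a),
        n * (v * (h' - h)) - |h' - h| * (n : ℝ) ^ a ≤ inner ℝ (tv h' - tv h) (emb (pos s n)) := by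
      intro s hs
      have := abs_le.1 (tube_end hs (tv h' - tv h))
      rw [hin, hnorm] at this
      linarith [this.1]
    have q2 := ZT_tilt_ge β (tv h) (tv h') (fun p => ω p x) hA
    have q3 := ZT_mono β (tv h') (fun p => ω p x)
      (Set.subset_univ (tube 1 n (tv v) ((n : ℝ) ^ a)))
    have z1 := ZT_univ_pos (n := n) (by norm_num : 0 < 1) β (tv h) (fun p => ω p x)
    have z2 := ZT_univ_pos (n := n) (by norm_num : 0 < 1) β (tv h') (fun p => ω p x)
    have q4 : Real.exp (n * (v * (h' - h)) - |h' - h| * (n : ℝ) ^ a) *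
        ((1 - κ) * ZT β (tv h) (fun p => ω p x) (Set.univ : Set (Fin n → Step 1))) ≤
        ZT β (tv h') (fun p => ω p x) (Set.univ : Set (Fin n → Step 1)) :=
      (mul_le_mul_of_nonneg_left q1 (Real.exp_pos _).le).trans (q2.trans q3)
    have q5 := Real.log_le_log (mul_pos (Real.exp_pos _) (mul_pos hκ1 z1)) q4
    rw [Real.log_mul (Real.exp_pos _).ne' (mul_pos hκ1 z1).ne', Real.log_exp,
      Real.log_mul hκ1.ne' z1.ne'] at q5
    have e1 : D n x = (Real.log (ZT β (tv h') (fun p => ω p x) (Set.univ : Set (Fin n → Step 1))) -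
        Real.log (ZT β (tv h) (fun p => ω p x) (Set.univ : Set (Fin n → Step 1)))) / n := by
      rw [hD, hF]
      simp only
      rw [sub_div]
    have e2 : v * (h' - h) - |h' - h| * (n : ℝ) ^ (a - 1) + Real.log (1 - κ) / n =
        (n * (v * (h' - h)) - |h' - h| * (n : ℝ) ^ a + Real.log (1 - κ)) / n := by
      rw [Real.rpow_sub_one hn0.ne']
      field_simp
    rw [e1, e2]
    refine div_le_div_of_nonneg_right ?_ hn0.le
    linarith
  -- the limit of the lower bound
  have hbd : Tendsto (fun n : ℕ => v * (h' - h) - |h' - h| * (n : ℝ) ^ (a - 1) +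
      Real.log (1 - κ) / n) atTop (𝓝 (v * (h' - h))) := by
    have t1 : Tendsto (fun n : ℕ => (n : ℝ) ^ (a - 1)) atTop (𝓝 0) := by
      have hc : Tendsto (fun n : ℕ => (n : ℝ)) atTop atTop := tendsto_natCast_atTop_atTop
      have := (tendsto_rpow_neg_atTop (show 0 < 1 - a by linarith)).comp hc
      refine this.congr fun n => ?_
      simp only [Function.comp]
      congr 1
      ring
    have t2 : Tendsto (fun n : ℕ => Real.log (1 - κ) / (n : ℝ)) atTop (𝓝 0) :=
      tendsto_const_div_atTop_nhds_zero_nat _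
    have t3 := ((t1.const_mul |h' - h|).const_sub (v * (h' - h))).add t2
    simpa using t3
  by_contra hcon
  rw [not_le] at hcon
  set ε : ℝ := (v * (h' - h) - (Λ h' - Λ h)) / 2 with hε
  have hε0 : 0 < ε := by rw [hε]; linarith
  have m1 := hmeas (ENNReal.ofReal ε) (by simpa using hε0)
  have m2 : ∀ᶠ n : ℕ in atTop,
      μ {x | ENNReal.ofReal ε ≤ edist (D n x) (Λ h' - Λ h)} < ENNReal.ofReal (1 - κ) :=
    m1.eventually_lt_const (by simpa using hκ)
  have m3 : ∀ᶠ n : ℕ in atTop, v * (h' - h) - ε < v * (h' - h) -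
      |h' - h| * (n : ℝ) ^ (a - 1) + Real.log (1 - κ) / n :=
    hbd.eventually_const_lt (by linarith)
  obtain ⟨n, hn2, hn3, hnm, hn0⟩ :=
    (m2.and (m3.and ((eventually_ge_atTop m).and (eventually_gt_atTop 0)))).exists
  have hcover : (Set.univ : Set Ω) ⊆
      {x | ¬ (1 - κ ≤ PolT β (tv h) (fun p => ω p x) (tube 1 n (tv v) ((n : ℝ) ^ a)))} ∪
      {x | ENNReal.ofReal ε ≤ edist (D n x) (Λ h' - Λ h)} := by
    intro x _
    by_cases hx : 1 - κ ≤ PolT β (tv h) (fun p => ω p x) (tube 1 n (tv v) ((n : ℝ) ^ a))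
    · right
      have g1 := hgood n hn0 x hx
      have g2 : ε ≤ dist (D n x) (Λ h' - Λ h) := by
        rw [Real.dist_eq]
        refine le_trans ?_ (le_abs_self _)
        have : v * (h' - h) - (Λ h' - Λ h) = 2 * ε := by rw [hε]; ring
        linarith
      show ENNReal.ofReal ε ≤ edist (D n x) (Λ h' - Λ h)
      rw [edist_dist]
      exact ENNReal.ofReal_le_ofReal g2
    · left
      exact hx
  have r1 : (1 : ℝ) ≤ μ.real {x | ¬ (1 - κ ≤ PolT β (tv h) (fun p => ω p x)
      (tube 1 n (tv v) ((n : ℝ) ^ a)))} +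
      μ.real {x | ENNReal.ofReal ε ≤ edist (D n x) (Λ h' - Λ h)} := by
    have u1 : μ.real (Set.univ : Set Ω) = 1 := by simp
    exact u1.symm.le.trans ((measureReal_mono hcover).trans (measureReal_union_le _ _))
  have r2 := hp.2 n hnm
  have r3 : μ.real {x | ENNReal.ofReal ε ≤ edist (D n x) (Λ h' - Λ h)} < 1 - κ := by
    have hκ1 : 0 < 1 - κ := by linarith
    have := (ENNReal.toReal_lt_toReal (measure_ne_top _ _) ENNReal.ofReal_ne_top).2 hn2
    rwa [ENNReal.toReal_ofReal hκ1.le] at this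
  linarith

/-- TASK Curv2. A subset of `ℝ` has only countably many isolated points. -/
lemma countable_isolated (H : Set ℝ) :
    {x ∈ H | ∃ δ > 0, ∀ y ∈ H, |y - x| < δ → y = x}.Countable := by
  set S : Set ℝ := {x ∈ H | ∃ δ > 0, ∀ y ∈ H, |y - x| < δ → y = x} with hS
  have : DiscreteTopology S := by
    rw [discreteTopology_iff_isOpen_singleton]
    rintro ⟨x, hx, δ, hδ, h⟩
    rw [Metric.isOpen_singleton_iff]
    refine ⟨δ, hδ, ?_⟩
    rintro ⟨y, hy⟩ hyx
    apply Subtype.ext
    exact h y hy.1 (by simpa [Subtype.dist_eq, Real.dist_eq] using hyx)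
  rw [← Set.countable_coe_iff]
  exact TopologicalSpace.separableSpace_iff_countable.1 inferInstance

end Pool.Agent.W_7d29a1_h46
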