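import Pool.Agent.W_7d29a1_h46.Basic

/-!
Deterministic comparison of two tubes and two tilts.
-/

namespace Pool.Agent.W_7d29a1_h46

open MeasureTheory ProbabilityTheory Filter Pool.Agent.W_MP_7d29a1_pr

variable {d n : ℕ}

lemma log_six : (1 : ℝ) ≤ Real.log (49 / 8) := by
  rw [Real.le_log_iff_exp_le (by norm_num)]
  have := Real.exp_one_lt_d9
  linarith

/-- Two disjoint sets of walks `T`, `T'` which carry almost all the mass for the tilts `h`, `h'`. -/
theorem compare (hd : 0 < d) {β : ℝ} {h h' : Vec d} {η : ℕ × Site d → ℝ}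
    {T T' : Set (Fin n → Step d)} {κ A A' : ℝ} (hκ0 : 0 < κ) (hκ : κ ≤ 1 / 8)
    (hdis : Disjoint T T') (hT : 1 - κ ≤ PolT β h η T) (hT' : 1 - κ ≤ PolT β h' η T')
    (hA : ∀ s ∈ T, A ≤ inner ℝ (h' - h) (emb (pos s n)))
    (hA' : ∀ s ∈ T', inner ℝ (h' - h) (emb (pos s n)) ≤ A') :
    A + Real.log (1 - κ) ≤ Real.log (ZT β h' η T') - Real.log (ZT β h η T) ∧
      Real.log (ZT β h' η T') - Real.log (ZT β h η T) ≤ A' - Real.log (1 - κ) ∧ 1 ≤ A' - A := by
  have hκ1 : 0 < 1 - κ := by linarith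
  have hne : T.Nonempty := nonempty_of_PolT (lt_of_lt_of_le hκ1 hT)
  have hne' : T'.Nonempty := nonempty_of_PolT (lt_of_lt_of_le hκ1 hT')
  have p1 := ZT_pos β h η hne
  have p2 := ZT_pos β h' η hne'
  have p3 := ZT_pos β h η hne'
  have p4 := ZT_pos β h' η hne
  have q1 := le_ZT_of_PolT hd hT
  have q2 := le_ZT_of_PolT hd hT'
  have t1 : Real.exp A * ZT β h η T ≤ ZT β h' η T := ZT_tilt_ge β h h' η hA
  have t2 : Real.exp (-A') * ZT β h' η T' ≤ ZT β h η T' := by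
    refine ZT_tilt_ge β h' h η fun s hs => ?_
    have := hA' s hs
    rw [inner_sub_left] at this ⊢
    linarith
  have m1 : ZT β h' η T ≤ ZT β h' η Set.univ := ZT_mono _ _ _ (Set.subset_univ _)
  have m2 : ZT β h η T' ≤ ZT β h η Set.univ := ZT_mono _ _ _ (Set.subset_univ _)
  have e1 : (1 - κ) * (Real.exp A * ZT β h η T) ≤ ZT β h' η T' :=
    (mul_le_mul_of_nonneg_left (t1.trans m1) hκ1.le).trans q2
  have e2 : (1 - κ) * (Real.exp (-A') * ZT β h' η T') ≤ ZT β h η T :=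
    (mul_le_mul_of_nonneg_left (t2.trans m2) hκ1.le).trans q1
  have l1 := Real.log_le_log (by positivity) e1
  have l2 := Real.log_le_log (by positivity) e2
  rw [Real.log_mul hκ1.ne' (by positivity), Real.log_mul (Real.exp_pos _).ne' p1.ne',
    Real.log_exp] at l1
  rw [Real.log_mul hκ1.ne' (by positivity), Real.log_mul (Real.exp_pos _).ne' p2.ne',
    Real.log_exp] at l2
  refine ⟨by linarith, by linarith, ?_⟩
  -- disjointness
  have d1 := ZT_disjoint β h η hdis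
  have d2 : ZT β h η T' ≤ κ * ZT β h η (Set.univ : Set (Fin n → Step d)) := by linarith
  have d3 : (1 - κ) * ZT β h η T' ≤ κ * ZT β h η T := by
    calc (1 - κ) * ZT β h η T' ≤ (1 - κ) * (κ * ZT β h η (Set.univ : Set (Fin n → Step d))) :=
          mul_le_mul_of_nonneg_left d2 hκ1.le
      _ = κ * ((1 - κ) * ZT β h η (Set.univ : Set (Fin n → Step d))) := by ring
      _ ≤ κ * ZT β h η T := mul_le_mul_of_nonneg_left q1 hκ0.le
  have d4 : (1 - κ) * (Real.exp (-A') * ((1 - κ) * (Real.exp A * ZT β h η T))) ≤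
      κ * ZT β h η T := by
    refine le_trans ?_ d3
    refine mul_le_mul_of_nonneg_left (le_trans ?_ t2) hκ1.le
    exact mul_le_mul_of_nonneg_left e1 (Real.exp_pos _).le
  have d5 : (1 - κ) ^ 2 * Real.exp (A - A') ≤ κ := by
    have e3 : (1 - κ) * (Real.exp (-A') * ((1 - κ) * (Real.exp A * ZT β h η T))) =
        ((1 - κ) ^ 2 * Real.exp (A - A')) * ZT β h η T := by
      rw [show A - A' = -A' + A by ring, Real.exp_add]
      ring
    rw [e3] at d4
    exact le_of_mul_le_mul_right d4 p1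
  have d6 : (49 / 64 : ℝ) ≤ (1 - κ) ^ 2 := by nlinarith
  have d7 : (49 / 64 : ℝ) * Real.exp (A - A') ≤ 1 / 8 := by
    calc (49 / 64 : ℝ) * Real.exp (A - A') ≤ (1 - κ) ^ 2 * Real.exp (A - A') :=
          mul_le_mul_of_nonneg_right d6 (Real.exp_pos _).le
      _ ≤ κ := d5
      _ ≤ 1 / 8 := hκ
  have d8 : (49 / 8 : ℝ) ≤ Real.exp (A' - A) := by
    have e4 : Real.exp (A' - A) * Real.exp (A - A') = 1 := by
      rw [← Real.exp_add]; simp
    have e5 := Real.exp_pos (A - A')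
    have e6 := Real.exp_pos (A' - A)
    nlinarith
  have d9 := Real.log_le_log (by norm_num) d8
  rw [Real.log_exp] at d9
  exact log_six.trans d9

/-- The end point of a walk in a tube. -/
lemma tube_end {v : Vec d} {r : ℝ} {s : Fin n → Step d} (hs : s ∈ tube d n v r) (g : Vec d) :
    |inner ℝ g (emb (pos s n)) - n * inner ℝ g v| ≤ ‖g‖ * r := by
  have h1 := hs n le_rfl
  have h2 : inner ℝ g (emb (pos s n)) - n * inner ℝ g v =
      inner ℝ g (emb (pos s n) - (n : ℝ) • v) := by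
    rw [inner_sub_right, inner_smul_right]
  rw [h2]
  exact (abs_real_inner_le_norm _ _).trans (mul_le_mul_of_nonneg_left h1 (norm_nonneg g))

/-- Walks in tubes around distant directions are apart at late times. -/
lemma tube_far {v v' : Vec d} {r : ℝ} (hr : 0 < r) (hfar : 8 * r ≤ n * ‖v - v'‖)
    {s : Fin n → Step d} (hs : s ∈ tube d n v r) {i : ℕ} (hi : i ≤ n) (hi2 : n / 2 < i) :
    r < ‖emb (pos s i) - (i : ℝ) • v'‖ := by
  have h1 := hs i hi
  have h2 : (n : ℝ) ≤ 2 * i := by exact_mod_cast (show n ≤ 2 * i by omega)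
  have h3 : 4 * r ≤ i * ‖v - v'‖ := by
    have := mul_le_mul_of_nonneg_right h2 (norm_nonneg (v - v'))
    linarith
  have h4 : (i : ℝ) * ‖v - v'‖ = ‖(i : ℝ) • v - (i : ℝ) • v'‖ := by
    rw [← smul_sub, norm_smul, Real.norm_eq_abs, abs_of_nonneg (Nat.cast_nonneg i)]
  have h5 : ‖(i : ℝ) • v - (i : ℝ) • v'‖ ≤
      ‖emb (pos s i) - (i : ℝ) • v'‖ + ‖emb (pos s i) - (i : ℝ) • v‖ := by
    have e : (i : ℝ) • v - (i : ℝ) • v' =
        (emb (pos s i) - (i : ℝ) • v') - (emb (pos s i) - (i : ℝ) • v) := by abel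
    rw [e]
    exact norm_sub_le _ _
  linarith

lemma tube_disjoint (hn : 0 < n) {v v' : Vec d} {r : ℝ} (hr : 0 < r)
    (hfar : 8 * r ≤ n * ‖v - v'‖) : Disjoint (tube d n v r) (tube d n v' r) := by
  rw [Set.disjoint_left]
  intro s hs hs'
  have h1 := tube_far hr hfar hs le_rfl (by omega)
  have h2 := hs' n le_rfl
  linarith

/-- The comparison for two tubes. -/
theorem compare_tube (hd : 0 < d) (hn : 0 < n) {β : ℝ} {h h' v v' : Vec d}
    {η : ℕ × Site d → ℝ} {κ r : ℝ} (hr : 0 < r) (hκ0 : 0 < κ) (hκ : κ ≤ 1 / 8)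
    (hfar : 8 * r ≤ n * ‖v - v'‖) (hT : 1 - κ ≤ PolT β h η (tube d n v r))
    (hT' : 1 - κ ≤ PolT β h' η (tube d n v' r)) :
    (n * inner ℝ (h' - h) v - ‖h' - h‖ * r) + Real.log (1 - κ) ≤
        Real.log (ZT β h' η (tube d n v' r)) - Real.log (ZT β h η (tube d n v r)) ∧
      Real.log (ZT β h' η (tube d n v' r)) - Real.log (ZT β h η (tube d n v r)) ≤
        (n * inner ℝ (h' - h) v' + ‖h' - h‖ * r) - Real.log (1 - κ) ∧
      1 ≤ (n * inner ℝ (h' - h) v' + ‖h' - h‖ * r) -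
        (n * inner ℝ (h' - h) v - ‖h' - h‖ * r) := by
  refine compare hd hκ0 hκ (tube_disjoint hn hr hfar) hT hT' (fun s hs => ?_) fun s hs => ?_
  · have := abs_le.1 (tube_end hs (h' - h))
    linarith [this.1]
  · have := abs_le.1 (tube_end hs (h' - h))
    linarith [this.2]

lemma log_seven : -(1 / 7 : ℝ) ≤ Real.log (7 / 8) := by
  have h := Real.one_sub_inv_le_log_of_pos (show (0 : ℝ) < 7 / 8 by norm_num)
  norm_num at h ⊢
  linarith

/-- The length of the window is at most `(5 / 2) n ‖h' - h‖ ‖v - v'‖`. -/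
lemma window_le {h h' v v' : Vec d} {κ r : ℝ} (hκ0 : 0 < κ) (hκ : κ ≤ 1 / 8)
    (hfar : 8 * r ≤ n * ‖v - v'‖)
    (h1 : 1 ≤ (n * inner ℝ (h' - h) v' + ‖h' - h‖ * r) -
        (n * inner ℝ (h' - h) v - ‖h' - h‖ * r)) :
    ((n * inner ℝ (h' - h) v' + ‖h' - h‖ * r) - Real.log (1 - κ)) -
        ((n * inner ℝ (h' - h) v - ‖h' - h‖ * r) + Real.log (1 - κ)) ≤
      5 / 2 * (n * ‖h' - h‖ * ‖v - v'‖) ∧ 4 / 5 ≤ n * ‖h' - h‖ * ‖v - v'‖ := by
  have hlog : -(1 / 7 : ℝ) ≤ Real.log (1 - κ) :=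
    log_seven.trans (Real.log_le_log (by norm_num) (by linarith))
  have h2 : (n : ℝ) * inner ℝ (h' - h) v' - n * inner ℝ (h' - h) v ≤
      n * (‖h' - h‖ * ‖v - v'‖) := by
    rw [← mul_sub, ← inner_sub_right, ← norm_sub_rev v' v]
    exact mul_le_mul_of_nonneg_left (real_inner_le_norm _ _) (Nat.cast_nonneg n)
  have h3 : ‖h' - h‖ * (8 * r) ≤ ‖h' - h‖ * (n * ‖v - v'‖) :=
    mul_le_mul_of_nonneg_left hfar (norm_nonneg _)
  constructor
  · nlinarith
  · nlinarith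

end Pool.Agent.W_7d29a1_h46
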