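import Pool.Agent.W_7d29a1_h46.Num

/-!
The dimension of the exceptional directions.
-/

namespace Pool.Agent.W_7d29a1_h46

open MeasureTheory ProbabilityTheory Filter Pool.Agent.W_MP_7d29a1_pr
open scoped NNReal ENNReal

/-- The direction `v` and the tilt `h` belong to the piece `m`. -/
def Pc {Ω : Type*} [MeasurableSpace Ω] (μ : Measure Ω) {d : ℕ} (β : ℝ)
    (ω : ℕ × Site d → Ω → ℝ) (κ a : ℝ) (m : ℕ) (h v : Vec d) : Prop :=
  ‖v‖ ≤ m ∧ ∀ N : ℕ, m ≤ N →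
    μ.real {x | ¬ (1 - κ ≤ PolT β h (fun p => ω p x) (tube d N v ((N : ℝ) ^ a)))} ≤ κ

variable {d : ℕ} {Ω : Type*} [MeasurableSpace Ω] {μ : Measure Ω} [IsProbabilityMeasure μ]
  {ρ : Measure ℝ} [IsProbabilityMeasure ρ] {ω : ℕ × Site d → Ω → ℝ} {β : ℝ}

lemma exists_piece (hd : 0 < d) (hmeas : ∀ p, Measurable (ω p)) {a : ℝ} {h v : Vec d}
    (ha : nuT μ β ω h v < a) {κ : ℝ} (hκ : 0 < κ) : ∃ m : ℕ, Pc μ β ω κ a (m + 1) h v := by
  obtain ⟨n0, hn0⟩ := exists_n0T hd hmeas ha hκ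
  refine ⟨max n0 ⌈‖v‖⌉₊, ?_, fun N hN => hn0 N ?_⟩
  · have h1 := Nat.le_ceil ‖v‖
    have h2 : (⌈‖v‖⌉₊ : ℝ) ≤ (max n0 ⌈‖v‖⌉₊ : ℕ) := by exact_mod_cast le_max_right _ _
    push_cast at h2 ⊢
    linarith
  · exact (le_max_left n0 _).trans ((Nat.le_succ _).trans hN)

lemma piece_holder (hd : 0 < d) (hω : IID μ ρ ω) {ε c : ℝ} (hc : 0 < c)
    (hf : FluctAt ρ β ε c) {κ : ℝ} (hκ0 : 0 < κ) (hκ : κ ≤ 1 / 8) (hκε : 2 * κ ≤ ε) {a : ℝ}
    (ha0 : 0 < a) (ha1 : a < 1) (had : 1 < a * ((d : ℝ) + 2)) (m : ℕ) :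
    ∃ C : ℝ, 0 < C ∧ ∀ h h' v v' : Vec d, Pc μ β ω κ a (m + 1) h v →
      Pc μ β ω κ a (m + 1) h' v' → ‖v - v'‖ ≤ C * ‖h - h'‖ ^ (1 / pp d a) := by
  obtain ⟨c', hc', hpow⟩ := pow_form (d := d) (c := c) ha0 hc
  obtain ⟨C, hC, hnum⟩ := holder_num (d := d) (a := a) (c := c') (m := m + 1) (by omega) ha0 ha1
    had hc'
  refine ⟨C, hC, fun h h' v v' hp hp' => ?_⟩
  rcases eq_or_ne v v' with rfl | hne
  · rw [sub_self, norm_zero]
    positivity
  have ht : 0 < ‖v - v'‖ := norm_pos_iff.2 (sub_ne_zero.2 hne)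
  rw [norm_sub_rev h h']
  refine hnum _ _ (norm_nonneg _) ht ?_ fun n hn hfar => ?_
  · have := norm_sub_le v v'
    have h1 := hp.1
    have h2 := hp'.1
    linarith
  · have hn1 : 0 < n := by omega
    have hr : 0 < (n : ℝ) ^ a := Real.rpow_pos_of_pos (by exact_mod_cast hn1) _
    obtain ⟨w1, w2⟩ := window hd hn1 hω hf hr hκ0 hκ hκε hfar (hp.2 n hn) (hp'.2 n hn)
    exact hpow n _ hn1 w1 w2

/-- The Hausdorff dimension of the set of exceptional directions of a piece. -/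
lemma piece_dim (hd : 0 < d) (hω : IID μ ρ ω) {ε c : ℝ} (hc : 0 < c)
    (hf : FluctAt ρ β ε c) {κ : ℝ} (hκ0 : 0 < κ) (hκ : κ ≤ 1 / 8) (hκε : 2 * κ ≤ ε) {a : ℝ}
    (ha0 : 0 < a) (ha1 : a < 1) (had : 1 < a * ((d : ℝ) + 2)) (m : ℕ) :
    dimH {v : Vec d | ∃ h, Pc μ β ω κ a (m + 1) h v} ≤ ENNReal.ofReal (d * pp d a) := by
  classical
  obtain ⟨C, hC, hH⟩ := piece_holder hd hω hc hf hκ0 hκ hκε ha0 ha1 had m
  have hpp := pp_pos ha0 ha1 had
  set G : Set (Vec d) := {v : Vec d | ∃ h, Pc μ β ω κ a (m + 1) h v} with hG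
  choose! g hg using fun (v : Vec d) (hv : v ∈ G) => hv
  have hinj : Set.InjOn g G := by
    intro v hv v' hv' he
    have h1 := hH _ _ _ _ (hg v hv) (hg v' hv')
    rw [he, sub_self, norm_zero, Real.zero_rpow (by positivity), mul_zero] at h1
    exact sub_eq_zero.1 (norm_le_zero_iff.1 h1)
  set f : Vec d → Vec d := Function.invFunOn g G with hf'
  have hfg : f '' (g '' G) = G := hinj.leftInvOn_invFunOn.image_image
  have hr : 0 < 1 / pp d a := by positivity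
  have hrc : ((1 / pp d a).toNNReal : ℝ) = 1 / pp d a := Real.coe_toNNReal _ hr.le
  have hhol : HolderOnWith C.toNNReal (1 / pp d a).toNNReal f (g '' G) := by
    rintro _ ⟨v, hv, rfl⟩ _ ⟨v', hv', rfl⟩
    have e1 : f (g v) = v := hinj.leftInvOn_invFunOn hv
    have e2 : f (g v') = v' := hinj.leftInvOn_invFunOn hv'
    rw [e1, e2, edist_dist, edist_dist, dist_eq_norm, dist_eq_norm, hrc]
    have h1 := hH _ _ _ _ (hg v hv) (hg v' hv')
    change ENNReal.ofReal ‖v - v'‖ ≤ ENNReal.ofReal C * ENNReal.ofReal ‖g v - g v'‖ ^ (1 / pp d a)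
    rw [ENNReal.ofReal_rpow_of_nonneg (norm_nonneg _) hr.le, ← ENNReal.ofReal_mul hC.le]
    exact ENNReal.ofReal_le_ofReal h1
  have hr' : 0 < (1 / pp d a).toNNReal := Real.toNNReal_pos.2 hr
  have h3 := hhol.dimH_image_le hr'
  rw [hfg] at h3
  refine h3.trans ?_
  have h4 : dimH (g '' G) ≤ d := by
    refine (dimH_mono (Set.subset_univ _)).trans ?_
    rw [Real.dimH_univ_eq_finrank]
    simp
  have h5 : dimH (g '' G) / ENNReal.ofReal (1 / pp d a) ≤ d / ENNReal.ofReal (1 / pp d a) :=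
    ENNReal.div_le_div_right h4 _
  refine h5.trans (le_of_eq ?_)
  rw [← ENNReal.ofReal_natCast, ← ENNReal.ofReal_div_of_pos hr]
  congr 1
  field_simp

/-- The dimension bound for the exceptional directions. -/
theorem dim_bound (hd : 0 < d) (hω : IID μ ρ ω) (hnc : ∀ c : ℝ, ρ {c} ≠ 1) (hβ : 0 < β)
    (hexp : Integrable (fun t => Real.exp (β * t)) ρ) {a : ℝ}
    (ha0 : 1 / ((d : ℝ) + 2) < a) (ha1 : a < 1) :
    dimH {v : Vec d | ∃ h, nuT μ β ω h v < a} ≤ ENNReal.ofReal (d * pp d a) := by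
  obtain ⟨ε, hε, c, hc, hf⟩ := fluct ρ hnc β hβ hexp
  have hd2 : (0 : ℝ) < (d : ℝ) + 2 := by positivity
  have had : 1 < a * ((d : ℝ) + 2) := (div_lt_iff₀ hd2).1 ha0
  have ha : 0 < a := lt_trans (by positivity) ha0
  set κ : ℝ := min (ε / 2) (1 / 8) with hκd
  have hκ0 : 0 < κ := lt_min (by positivity) (by norm_num)
  have hκ : κ ≤ 1 / 8 := min_le_right _ _
  have hκε : 2 * κ ≤ ε := by
    have := min_le_left (ε / 2) (1 / 8)
    linarith
  have hsub : {v : Vec d | ∃ h, nuT μ β ω h v < a} ⊆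
      ⋃ m : ℕ, {v : Vec d | ∃ h, Pc μ β ω κ a (m + 1) h v} := by
    rintro v ⟨h, hv⟩
    obtain ⟨m, hm⟩ := exists_piece hd hω.meas hv hκ0
    exact Set.mem_iUnion.2 ⟨m, h, hm⟩
  refine (dimH_mono hsub).trans ?_
  rw [dimH_iUnion]
  exact iSup_le fun m => piece_dim hd hω hc hf hκ0 hκ hκε ha ha1 had m

/-- A set of dimension less than `d` is a null set. -/
lemma null_of_dim {s : Set (Vec d)} (hs : dimH s < d) : (volume : Measure (Vec d)) s = 0 := by
  have h1 : (volume : Measure (Vec d)) ≪ Measure.hausdorffMeasure ((d : ℝ≥0) : ℝ) := by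
    have h2 : (Measure.hausdorffMeasure ((d : ℝ≥0) : ℝ) : Measure (Vec d)).IsAddHaarMeasure := by
      have : ((d : ℝ≥0) : ℝ) = (Module.finrank ℝ (Vec d) : ℝ) := by simp
      rw [this]
      infer_instance
    exact Measure.absolutelyContinuous_isAddHaarMeasure _ _
  exact measure_zero_of_dimH_lt h1 (by exact_mod_cast hs)

/-- Almost every direction has wandering exponent at least `b`, if the dimension bound is less than
`d` below `b`. -/
theorem ae_of (hd : 0 < d) (hω : IID μ ρ ω) (hnc : ∀ c : ℝ, ρ {c} ≠ 1) (hβ : 0 < β)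
    (hexp : Integrable (fun t => Real.exp (β * t)) ρ) {b : ℝ} (hb0 : 1 / ((d : ℝ) + 2) < b)
    (hb1 : b ≤ 1) (hb : ∀ a, 1 / ((d : ℝ) + 2) < a → a < b → pp d a < 1) :
    ∀ᵐ v : Vec d, ∀ h, b ≤ nuT μ β ω h v := by
  rw [ae_iff]
  set u : ℕ → ℝ := fun k => b - (b - 1 / ((d : ℝ) + 2)) / ((k : ℝ) + 2) with hu
  have hdelta : 0 < b - 1 / ((d : ℝ) + 2) := by linarith
  have hu1 : ∀ k, u k < b := fun k => by
    have : 0 < (b - 1 / ((d : ℝ) + 2)) / ((k : ℝ) + 2) := by positivity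
    simp only [hu]
    linarith
  have hu0 : ∀ k, 1 / ((d : ℝ) + 2) < u k := fun k => by
    have : (b - 1 / ((d : ℝ) + 2)) / ((k : ℝ) + 2) < b - 1 / ((d : ℝ) + 2) := by
      rw [div_lt_iff₀ (by positivity)]
      have : (0 : ℝ) ≤ k := Nat.cast_nonneg k
      nlinarith
    simp only [hu]
    linarith
  have hsub : {v : Vec d | ¬ ∀ h, b ≤ nuT μ β ω h v} ⊆
      ⋃ k : ℕ, {v : Vec d | ∃ h, nuT μ β ω h v < u k} := by
    intro v hv
    have hv' : ¬ ∀ h, b ≤ nuT μ β ω h v := hv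
    push Not at hv'
    obtain ⟨h, hh⟩ := hv'
    obtain ⟨k, hk⟩ := exists_nat_gt ((b - 1 / ((d : ℝ) + 2)) / (b - nuT μ β ω h v))
    refine Set.mem_iUnion.2 ⟨k, h, ?_⟩
    have h1 : 0 < b - nuT μ β ω h v := by linarith
    rw [div_lt_iff₀ h1] at hk
    have h2 : (b - 1 / ((d : ℝ) + 2)) / ((k : ℝ) + 2) < b - nuT μ β ω h v := by
      rw [div_lt_iff₀ (by positivity)]
      nlinarith
    simp only [hu]
    linarith
  refine measure_mono_null hsub (measure_iUnion_null fun k => null_of_dim ?_)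
  have h1 : u k < 1 := (hu1 k).trans_le hb1
  refine (dim_bound hd hω hnc hβ hexp (hu0 k) h1).trans_lt ?_
  have h2 := hb (u k) (hu0 k) (hu1 k)
  have h3 : (0 : ℝ) < d := by exact_mod_cast hd
  rw [← ENNReal.ofReal_natCast]
  exact (ENNReal.ofReal_lt_ofReal_iff h3).2 (by nlinarith)

/-- Almost every direction has wandering exponent at least `1 / 2`. -/
theorem ae_half (hd : 0 < d) (hω : IID μ ρ ω) (hnc : ∀ c : ℝ, ρ {c} ≠ 1) (hβ : 0 < β)
    (hexp : Integrable (fun t => Real.exp (β * t)) ρ) :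
    ∀ᵐ v : Vec d, ∀ h, 1 / 2 ≤ nuT μ β ω h v := by
  have hd1 : (1 : ℝ) ≤ d := by exact_mod_cast hd
  refine ae_of hd hω hnc hβ hexp ?_ (by norm_num) fun a ha0 ha => ?_
  · exact one_div_lt_one_div_of_lt (by norm_num) (by linarith)
  · unfold pp
    rw [div_lt_one (by linarith)]
    exact (min_le_left _ _).trans_lt (by linarith)

/-- In dimension one, almost every direction has wandering exponent at least `3 / 5`. -/
theorem ae_three_fifths (hd : d = 1) (hω : IID μ ρ ω) (hnc : ∀ c : ℝ, ρ {c} ≠ 1) (hβ : 0 < β)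
    (hexp : Integrable (fun t => Real.exp (β * t)) ρ) :
    ∀ᵐ v : Vec d, ∀ h, 3 / 5 ≤ nuT μ β ω h v := by
  have hd1 : (d : ℝ) = 1 := by exact_mod_cast hd
  refine ae_of (by omega) hω hnc hβ hexp ?_ (by norm_num) fun a ha0 ha => ?_
  · rw [hd1]
    norm_num
  · unfold pp
    rw [div_lt_one (by linarith), hd1]
    exact (min_le_right _ _).trans_lt (by linarith)

end Pool.Agent.W_7d29a1_h46
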