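import Pool.Agent.W_MP_7d29a1_pr.Model

/-!
The directed polymer with a tilt, around a direction.

The walks, positions and energies are those of `Pool/Agent/W_MP_7d29a1_pr/Model.lean`: walks of
length `n` are step sequences `s : Fin n → Step d` of simple random walk on `ℤ^d`, `pos s i` is
the position `S_i` and `energy η s = ∑_{i ≤ n} η (i, S_i)`.
-/

namespace Pool.Agent.W_7d29a1_h46

open MeasureTheory ProbabilityTheory Pool.Agent.W_MP_7d29a1_pr

/-- The space `ℝ^d` with the Euclidean norm. -/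
abbrev Vec (d : ℕ) := EuclideanSpace ℝ (Fin d)

/-- A lattice point as a vector of `ℝ^d`. -/
noncomputable def emb {d : ℕ} (x : Site d) : Vec d := WithLp.toLp 2 fun j => (x j : ℝ)

/-- The weight `exp (⟨h, S_n⟩ + β ∑_{i ≤ n} η (i, S_i))` of the walk `s` under the tilt `h`. -/
noncomputable def wgt {d n : ℕ} (β : ℝ) (h : Vec d) (η : ℕ × Site d → ℝ) (s : Fin n → Step d) : ℝ :=
  Real.exp (inner ℝ h (emb (pos s n)) + β * energy η s)

open Classical in
/-- The total weight of a set `E` of walks of length `n`. -/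
noncomputable def ZT {d n : ℕ} (β : ℝ) (h : Vec d) (η : ℕ × Site d → ℝ)
    (E : Set (Fin n → Step d)) : ℝ :=
  ∑ s : Fin n → Step d, if s ∈ E then wgt β h η s else 0

/-- The polymer measure with tilt `h`: the law of the walk with density proportional to
`exp (⟨h, S_n⟩ + β ∑_{i ≤ n} η (i, S_i))` with respect to simple random walk. For `h = 0` it is
the polymer measure `P_n^{β,η}`. -/
noncomputable def PolT {d n : ℕ} (β : ℝ) (h : Vec d) (η : ℕ × Site d → ℝ)
    (E : Set (Fin n → Step d)) : ℝ :=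
  ZT β h η E / ZT β h η (Set.univ : Set (Fin n → Step d))

/-- The event `max_{i ≤ n} ‖S_i - i v‖ ≤ r`. -/
def tube (d n : ℕ) (v : Vec d) (r : ℝ) : Set (Fin n → Step d) :=
  {s | ∀ i ≤ n, ‖emb (pos s i) - (i : ℝ) • v‖ ≤ r}

/-- The set in the definition of the wandering exponent of the polymer with tilt `h` around the
direction `v`. -/
def nuSetT {Ω : Type*} [MeasurableSpace Ω] (μ : Measure Ω) {d : ℕ} (β : ℝ)
    (ω : ℕ × Site d → Ω → ℝ) (h v : Vec d) : Set ℝ :=
  {a | 0 < a ∧ ∫ x, Filter.liminf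
    (fun n : ℕ => PolT β h (fun p => ω p x) (tube d n v ((n : ℝ) ^ a))) Filter.atTop ∂μ = 1}

/-- The wandering exponent `ν(h, v)` of the polymer with tilt `h` around the direction `v`; for
`h = 0`, `v = 0` it is the exponent `ν` of the problem. -/
noncomputable def nuT {Ω : Type*} [MeasurableSpace Ω] (μ : Measure Ω) {d : ℕ} (β : ℝ)
    (ω : ℕ × Site d → Ω → ℝ) (h v : Vec d) : ℝ := sInf (nuSetT μ β ω h v)

/-- The partition function `Z_n(h) = E exp (⟨h, S_n⟩ + β ∑_{i ≤ n} η (i, S_i))`, where `E` is the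
expectation for simple random walk. -/
noncomputable def Zn {d : ℕ} (β : ℝ) (h : Vec d) (η : ℕ × Site d → ℝ) (n : ℕ) : ℝ :=
  ZT β h η (Set.univ : Set (Fin n → Step d)) / (2 * d : ℝ) ^ n

/-- The fluctuation exponent `χ(h)` of the polymer with tilt `h`. -/
noncomputable def chiT {Ω : Type*} [MeasurableSpace Ω] (μ : Measure Ω) {d : ℕ} (β : ℝ)
    (ω : ℕ × Site d → Ω → ℝ) (h : Vec d) : ℝ :=
  sSup {x : ℝ | 0 < x ∧ ∀ᶠ n : ℕ in Filter.atTop,
    (n : ℝ) ^ (2 * x) ≤ Var[fun y => Real.log (Zn β h (fun p => ω p y) n); μ]}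

end Pool.Agent.W_7d29a1_h46
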