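import Mathlib

/-!
Second order expansions of convex functions on the line (TASKS).
-/

namespace Pool.Agent.W_7d29a1_h46

open Set MeasureTheory Filter Topology
open scoped NNReal ENNReal

/-- `L (h + t) ≤ L h + v t + C |t| ^ (1 + α)` for `|t| ≤ 1`. -/
def Expd (L : ℝ → ℝ) (α h v : ℝ) : Prop :=
  ∃ C : ℝ, ∀ t : ℝ, |t| ≤ 1 → L (h + t) ≤ L h + v * t + C * |t| ^ (1 + α)

/-- Right derivative of a convex function on the line. -/
noncomputable def PeanoG (L : ℝ → ℝ) (x : ℝ) : ℝ := derivWithin L (Ioi x) x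

theorem Peano_mono {L : ℝ → ℝ} (hL : ConvexOn ℝ univ L) : Monotone (PeanoG L) := by
  intro x y hxy
  have h := hL.monotoneOn_rightDeriv
  rw [interior_univ] at h
  exact h (mem_univ x) (mem_univ y) hxy

theorem Peano_sub {L : ℝ → ℝ} (hL : ConvexOn ℝ univ L) (x y : ℝ) :
    L x + PeanoG L x * (y - x) ≤ L y := by
  have hx : x ∈ interior (univ : Set ℝ) := by rw [interior_univ]; exact mem_univ x
  rcases lt_trichotomy x y with h | h | h
  · have h1 := hL.rightDeriv_le_slope_of_mem_interior hx (mem_univ y) h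
    rw [slope_def_field, le_div_iff₀ (by linarith)] at h1
    unfold PeanoG
    linarith
  · subst h
    simp
  · have h1 := hL.slope_le_leftDeriv_of_mem_interior (mem_univ y) hx h
    have h2 := hL.leftDeriv_le_rightDeriv_of_mem_interior hx
    have h3 := h1.trans h2
    rw [slope_def_field, div_le_iff₀ (by linarith)] at h3
    unfold PeanoG
    linarith

/-- TASK Peano1. A convex function has the expansion `Expd L 1 h v` at almost every `h`.
Proof. Let `g = derivWithin L (Ioi ·)` be the right derivative (or `rightDeriv`): it is monotone and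
`L y ≥ L x + g x (y - x)` for all `x y` (`ConvexOn` slope lemmas). A monotone function is
differentiable almost everywhere (`Monotone.ae_differentiableAt`). At a point `h` of
differentiability of `g` there are `δ > 0`, `C₁` with `|g (h+t) - g h| ≤ C₁ |t|` for `|t| < δ`; for
`δ ≤ |t| ≤ 1` by monotonicity `|g (h+t) - g h| ≤ g (h+1) - g (h-1) ≤ ((g (h+1) - g (h-1)) / δ) |t|`.
Finally `L (h+t) - L h - g h * t ≤ t * (g (h+t) - g h)` because `L h ≥ L (h+t) + g (h+t) (-t)`. -/
theorem ae_expd {L : ℝ → ℝ} (hL : ConvexOn ℝ univ L) : ∀ᵐ h : ℝ, ∃ v, Expd L 1 h v := by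
  have hm := Peano_mono hL
  filter_upwards [hm.ae_differentiableAt] with h hd
  have hO := hd.isBigO_sub
  rw [Asymptotics.isBigO_iff] at hO
  obtain ⟨C₁, hC₁⟩ := hO
  rw [Metric.eventually_nhds_iff] at hC₁
  obtain ⟨δ, hδ, hC₁⟩ := hC₁
  refine ⟨PeanoG L h, max C₁ 0 + (PeanoG L (h + 1) - PeanoG L (h - 1)) / δ, ?_⟩
  intro t ht
  have hsub := Peano_sub hL (h + t) h
  have hW : 0 ≤ PeanoG L (h + 1) - PeanoG L (h - 1) := by
    have := hm (show h - 1 ≤ h + 1 by linarith)
    linarith
  have hWδ : 0 ≤ (PeanoG L (h + 1) - PeanoG L (h - 1)) / δ := div_nonneg hW hδ.le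
  have habs : |PeanoG L (h + t) - PeanoG L h| ≤
      (max C₁ 0 + (PeanoG L (h + 1) - PeanoG L (h - 1)) / δ) * |t| := by
    by_cases hlt : |t| < δ
    · have h1 := hC₁ (y := h + t) (by rw [Real.dist_eq]; simpa using hlt)
      rw [Real.norm_eq_abs, Real.norm_eq_abs, add_sub_cancel_left] at h1
      refine h1.trans ?_
      refine mul_le_mul_of_nonneg_right ?_ (abs_nonneg t)
      have := le_max_left C₁ 0
      linarith
    · push Not at hlt
      have h2 : |PeanoG L (h + t) - PeanoG L h| ≤ PeanoG L (h + 1) - PeanoG L (h - 1) := by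
        have ht' := abs_le.mp ht
        have a1 := hm (show h + t ≤ h + 1 by linarith [ht'.2])
        have a2 := hm (show h - 1 ≤ h + t by linarith [ht'.1])
        have a3 := hm (show h ≤ h + 1 by linarith)
        have a4 := hm (show h - 1 ≤ h by linarith)
        rw [abs_le]
        constructor <;> linarith
      have h3 : PeanoG L (h + 1) - PeanoG L (h - 1) ≤
          (PeanoG L (h + 1) - PeanoG L (h - 1)) / δ * |t| := by
        rw [div_mul_eq_mul_div, le_div_iff₀ hδ]
        exact mul_le_mul_of_nonneg_left hlt hW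
      have h4 : 0 ≤ max C₁ 0 * |t| := mul_nonneg (le_max_right _ _) (abs_nonneg t)
      rw [add_mul]
      linarith
  have hpow : |t| ^ ((1 : ℝ) + 1) = |t| * |t| := by
    rw [show ((1 : ℝ) + 1) = ((2 : ℕ) : ℝ) by norm_num, Real.rpow_natCast, pow_two]
  rw [hpow]
  have hfin : t * (PeanoG L (h + t) - PeanoG L h) ≤
      (max C₁ 0 + (PeanoG L (h + 1) - PeanoG L (h - 1)) / δ) * (|t| * |t|) := by
    calc t * (PeanoG L (h + t) - PeanoG L h) ≤ |t * (PeanoG L (h + t) - PeanoG L h)| := le_abs_self _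
      _ = |t| * |PeanoG L (h + t) - PeanoG L h| := abs_mul _ _
      _ ≤ |t| * ((max C₁ 0 + (PeanoG L (h + 1) - PeanoG L (h - 1)) / δ) * |t|) :=
        mul_le_mul_of_nonneg_left habs (abs_nonneg t)
      _ = _ := by ring
  have e : h - (h + t) = -t := by ring
  rw [e] at hsub
  nlinarith [hsub, hfin]

end Pool.Agent.W_7d29a1_h46
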