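import Pool.Agent.W_7d29a1_h46.Flu

/-!
The sites of a tube, and the lower bound for the window of two tubes.
-/

namespace Pool.Agent.W_7d29a1_h46

open MeasureTheory ProbabilityTheory Filter Pool.Agent.W_MP_7d29a1_pr

variable {d n : ℕ}

open Classical in
/-- The sites of the tube around `v` at the times `k < i ≤ n`. -/
noncomputable def VT (d n k : ℕ) (v : Vec d) (r : ℝ) : Finset (ℕ × Site d) :=
  (FF d n n).filter fun p => k < p.1 ∧ ‖emb p.2 - (p.1 : ℝ) • v‖ ≤ r

lemma sites_subset_FF (s : Fin n → Step d) : sites s ⊆ FF d n n := by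
  apply sites_subset
  intro i _
  rw [mem_boxF]
  intro j
  have h1 := (abs_le_nrm (pos s i) j).trans (nrm_pos_le s i)
  exact_mod_cast h1

lemma siteOf_mem_VT {k : ℕ} {v : Vec d} {r : ℝ} (s : Fin n → Step d) (i : Fin n) :
    siteOf s i ∈ VT d n k v r ↔
      k < (i : ℕ) + 1 ∧ ‖emb (pos s ((i : ℕ) + 1)) - (((i : ℕ) + 1 : ℕ) : ℝ) • v‖ ≤ r := by
  classical
  unfold VT
  rw [Finset.mem_filter]
  constructor
  · intro h
    exact h.2
  · intro h
    exact ⟨sites_subset_FF s (Finset.mem_image_of_mem _ (Finset.mem_univ i)), h⟩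

lemma card_sites_VT {k : ℕ} {v : Vec d} {r : ℝ} {s : Fin n → Step d} (hs : s ∈ tube d n v r) :
    ((sites s).filter (· ∈ VT d n k v r)).card = n - k := by
  classical
  have h1 : (sites s).filter (· ∈ VT d n k v r) =
      (Finset.univ.filter fun i : Fin n => k ≤ (i : ℕ)).image (siteOf s) := by
    ext p
    simp only [sites, Finset.mem_filter, Finset.mem_image, Finset.mem_univ, true_and]
    constructor
    · rintro ⟨⟨i, rfl⟩, hi⟩
      rw [siteOf_mem_VT] at hi
      exact ⟨i, by omega, rfl⟩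
    · rintro ⟨i, hi, rfl⟩
      refine ⟨⟨i, rfl⟩, ?_⟩
      rw [siteOf_mem_VT]
      exact ⟨by omega, hs _ i.2⟩
  rw [h1, Finset.card_image_of_injective _ (siteOf_injective s)]
  have h2 : (Finset.univ.filter fun i : Fin n => k ≤ (i : ℕ)).card =
      ((Finset.range n).filter fun i => k ≤ i).card := by
    rw [← Finset.card_map Fin.valEmbedding]
    congr 1
    ext j
    simp only [Finset.mem_map, Finset.mem_filter, Finset.mem_univ, true_and, Fin.valEmbedding_apply,
      Finset.mem_range]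
    constructor
    · rintro ⟨i, hi, rfl⟩
      exact ⟨i.2, hi⟩
    · rintro ⟨hj, hk⟩
      exact ⟨⟨j, hj⟩, hk, rfl⟩
  rw [h2]
  have h3 : (Finset.range n).filter (fun i => k ≤ i) = Finset.Ico k n := by
    ext j
    simp only [Finset.mem_filter, Finset.mem_range, Finset.mem_Ico]
    tauto
  rw [h3, Nat.card_Ico]

lemma abs_apply_le_norm (x : Vec d) (j : Fin d) : |x j| ≤ ‖x‖ := by
  rw [EuclideanSpace.norm_eq, ← Real.sqrt_sq_eq_abs]
  apply Real.sqrt_le_sqrt
  have h : ∀ i : Fin d, ‖x i‖ ^ 2 = x i ^ 2 := fun i => by rw [Real.norm_eq_abs, sq_abs]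
  simp only [h]
  exact Finset.single_le_sum (f := fun i => x i ^ 2) (fun j _ => sq_nonneg _) (Finset.mem_univ j)

lemma card_VT_le {k : ℕ} {v : Vec d} {r : ℝ} (hr : 0 ≤ r) :
    ((VT d n k v r).card : ℝ) ≤ n * (2 * r + 1) ^ d := by
  classical
  set W : ℕ → Finset (Site d) := fun i =>
    Fintype.piFinset fun j => Finset.Icc ⌈(i : ℝ) * v j - r⌉ ⌊(i : ℝ) * v j + r⌋ with hW
  have hWc : ∀ i, ((W i).card : ℝ) ≤ (2 * r + 1) ^ d := by
    intro i
    rw [hW, Fintype.card_piFinset]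
    push_cast
    calc ∏ j : Fin d, ((Finset.Icc ⌈(i : ℝ) * v j - r⌉ ⌊(i : ℝ) * v j + r⌋).card : ℝ)
        ≤ ∏ _j : Fin d, (2 * r + 1) := by
          refine Finset.prod_le_prod (fun j _ => Nat.cast_nonneg _) fun j _ => ?_
          rw [Int.card_Icc]
          have h1 := Int.floor_le ((i : ℝ) * v j + r)
          have h2 := Int.le_ceil ((i : ℝ) * v j - r)
          have h3 : (((⌊(i : ℝ) * v j + r⌋ + 1 - ⌈(i : ℝ) * v j - r⌉).toNat : ℤ) : ℝ) ≤
              2 * r + 1 := by
            rcases le_or_gt 0 (⌊(i : ℝ) * v j + r⌋ + 1 - ⌈(i : ℝ) * v j - r⌉) with h | h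
            · rw [Int.toNat_of_nonneg h]
              push_cast
              linarith
            · rw [Int.toNat_of_nonpos h.le]
              push_cast
              linarith
          exact_mod_cast h3
      _ = (2 * r + 1) ^ d := by simp
  have hsub : VT d n k v r ⊆ (Finset.Icc 1 n).biUnion fun i => {i} ×ˢ W i := by
    intro p hp
    unfold VT FF at hp
    rw [Finset.mem_filter, Finset.mem_product] at hp
    obtain ⟨⟨hp1, _⟩, _, hp2⟩ := hp
    rw [Finset.mem_biUnion]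
    refine ⟨p.1, hp1, ?_⟩
    rw [Finset.mem_product]
    refine ⟨Finset.mem_singleton_self _, ?_⟩
    rw [hW, Fintype.mem_piFinset]
    intro j
    have h1 := (abs_apply_le_norm (emb p.2 - (p.1 : ℝ) • v) j).trans hp2
    have h2 : (emb p.2 - (p.1 : ℝ) • v) j = (p.2 j : ℝ) - (p.1 : ℝ) * v j := rfl
    rw [h2, abs_le] at h1
    rw [Finset.mem_Icc]
    exact ⟨Int.ceil_le.2 (by linarith), Int.le_floor.2 (by linarith)⟩
  calc ((VT d n k v r).card : ℝ)
      ≤ (((Finset.Icc 1 n).biUnion fun i => {i} ×ˢ W i).card : ℝ) := by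
        exact_mod_cast Finset.card_le_card hsub
    _ ≤ ∑ i ∈ Finset.Icc 1 n, ((({i} : Finset ℕ) ×ˢ W i).card : ℝ) := by
        exact_mod_cast Finset.card_biUnion_le
    _ ≤ ∑ i ∈ Finset.Icc 1 n, (2 * r + 1) ^ d := by
        refine Finset.sum_le_sum fun i _ => ?_
        rw [Finset.card_product, Finset.card_singleton, one_mul]
        exact hWc i
    _ = n * (2 * r + 1) ^ d := by
        rw [Finset.sum_const, Nat.card_Icc, nsmul_eq_mul]
        simp

/-- The window of two tubes. -/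
theorem window (hd : 0 < d) (hn : 0 < n) {Ω : Type*} [MeasurableSpace Ω] {μ : Measure Ω}
    [IsProbabilityMeasure μ] {ρ : Measure ℝ} [IsProbabilityMeasure ρ] {ω : ℕ × Site d → Ω → ℝ}
    (hω : IID μ ρ ω) {β ε c : ℝ} (hf : FluctAt ρ β ε c) {κ r : ℝ} (hr : 0 < r) (hκ0 : 0 < κ)
    (hκ : κ ≤ 1 / 8) (hκε : 2 * κ ≤ ε) {h h' v v' : Vec d} (hfar : 8 * r ≤ n * ‖v - v'‖)
    (hP : μ.real {x | ¬ (1 - κ ≤ PolT β h (fun p => ω p x) (tube d n v r))} ≤ κ)
    (hP' : μ.real {x | ¬ (1 - κ ≤ PolT β h' (fun p => ω p x) (tube d n v' r))} ≤ κ) :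
    c * ((n - n / 2 : ℕ) : ℝ) ≤ 5 / 2 * (n * ‖h' - h‖ * ‖v - v'‖) *
        Real.sqrt (n * (2 * r + 1) ^ d) ∧
      4 / 5 ≤ n * ‖h' - h‖ * ‖v - v'‖ := by
  classical
  set T := tube d n v r with hT
  set T' := tube d n v' r with hT'
  set α : ℝ := (n * inner ℝ (h' - h) v - ‖h' - h‖ * r) + Real.log (1 - κ) with hα
  set γ : ℝ := (n * inner ℝ (h' - h) v' + ‖h' - h‖ * r) - Real.log (1 - κ) with hγ
  -- the bad event
  have hbad : {x | Real.log (ZT β h' (fun p => ω p x) T') -
      Real.log (ZT β h (fun p => ω p x) T) ∉ Set.Icc α γ} ⊆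
      {x | ¬ (1 - κ ≤ PolT β h (fun p => ω p x) T)} ∪
        {x | ¬ (1 - κ ≤ PolT β h' (fun p => ω p x) T')} := by
    intro x hx
    by_contra hcon
    rw [Set.mem_union, not_or] at hcon
    have h1 : 1 - κ ≤ PolT β h (fun p => ω p x) T := not_not.1 hcon.1
    have h2 : 1 - κ ≤ PolT β h' (fun p => ω p x) T' := not_not.1 hcon.2
    obtain ⟨h3, h4, _⟩ := compare_tube hd hn hr hκ0 hκ hfar h1 h2
    exact hx ⟨h3, h4⟩
  -- a good environment
  obtain ⟨x, hx1, hx2⟩ : ∃ x, 1 - κ ≤ PolT β h (fun p => ω p x) T ∧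
      1 - κ ≤ PolT β h' (fun p => ω p x) T' := by
    by_contra hcon
    push Not at hcon
    have h1 : {x | ¬ (1 - κ ≤ PolT β h (fun p => ω p x) T)} ∪
        {x | ¬ (1 - κ ≤ PolT β h' (fun p => ω p x) T')} = Set.univ := by
      ext x
      simp only [Set.mem_union, Set.mem_univ, iff_true]
      by_cases hx : 1 - κ ≤ PolT β h (fun p => ω p x) T
      · exact Or.inr (not_le.2 (hcon x hx))
      · exact Or.inl hx
    have h2 := measureReal_union_le (μ := μ) {x | ¬ (1 - κ ≤ PolT β h (fun p => ω p x) T)}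
      {x | ¬ (1 - κ ≤ PolT β h' (fun p => ω p x) T')}
    rw [h1, probReal_univ] at h2
    linarith
  obtain ⟨_, _, hone⟩ := compare_tube hd hn hr hκ0 hκ hfar hx1 hx2
  obtain ⟨hwin, h45⟩ := window_le (n := n) hκ0 hκ hfar hone
  refine ⟨?_, h45⟩
  have hne : T'.Nonempty := nonempty_of_PolT (lt_of_lt_of_le (by linarith) hx2)
  have hmeas : μ {x | Real.log (ZT β h' (fun p => ω p x) T') -
      (fun η : ℕ × Site d → ℝ => Real.log (ZT β h η T)) (fun p => ω p x) ∉ Set.Icc α γ} ≤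
      ENNReal.ofReal ε := by
    have hε : 0 ≤ ε := by linarith
    rw [ENNReal.le_ofReal_iff_toReal_le (measure_ne_top _ _) hε]
    have h1 := (measureReal_mono (μ := μ) hbad).trans (measureReal_union_le _ _)
    change μ.real _ ≤ ε
    change μ.real {x | Real.log (ZT β h' (fun p => ω p x) T') -
      Real.log (ZT β h (fun p => ω p x) T) ∉ Set.Icc α γ} ≤ ε
    linarith
  have key := cond_fluct hω hf h' (V := VT d n (n / 2) v' r)
    (B := FF d n n \ VT d n (n / 2) v' r) Finset.disjoint_sdiff hne (fun s _ p hp => by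
      rw [Finset.union_sdiff_self_eq_union]
      exact Finset.mem_union_right _ (sites_subset_FF s hp))
    (N := n - n / 2) (fun s hs => card_sites_VT hs)
    (F := fun η => Real.log (ZT β h η T)) (Real.measurable_log.comp (measurable_ZT β h T))
    (fun η η' hη => by
      have : ZT β h η T = ZT β h η' T := ZT_congr fun s hs p hp => hη p (by
        rw [Finset.mem_sdiff]
        refine ⟨sites_subset_FF s hp, fun hV => ?_⟩
        obtain ⟨i, _, rfl⟩ := Finset.mem_image.1 hp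
        rw [siteOf_mem_VT] at hV
        have h1 := tube_far hr hfar hs (i := (i : ℕ) + 1) i.2 hV.1
        linarith [hV.2])
      simp only [this]) α γ hmeas
  refine key.trans ?_
  have hpos : 0 ≤ 5 / 2 * (n * ‖h' - h‖ * ‖v - v'‖) := by positivity
  have hcard : Real.sqrt ((VT d n (n / 2) v' r).card) ≤ Real.sqrt (n * (2 * r + 1) ^ d) :=
    Real.sqrt_le_sqrt (card_VT_le hr.le)
  calc (γ - α) * Real.sqrt ((VT d n (n / 2) v' r).card)
      ≤ (5 / 2 * (n * ‖h' - h‖ * ‖v - v'‖)) * Real.sqrt ((VT d n (n / 2) v' r).card) :=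
        mul_le_mul_of_nonneg_right hwin (Real.sqrt_nonneg _)
    _ ≤ _ := mul_le_mul_of_nonneg_left hcard hpos

end Pool.Agent.W_7d29a1_h46
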