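import Pool.Agent.W_7d29a1_h46.Model
import Pool.Agent.W_MP_7d29a1_pr.Law
import Pool.Agent.W_MP_7d29a1_pr.Liminf

/-!
Basic facts on weights, polymer measures and tubes.
-/

namespace Pool.Agent.W_7d29a1_h46

open MeasureTheory ProbabilityTheory Filter Pool.Agent.W_MP_7d29a1_pr

variable {d n : ℕ}

lemma wgt_pos (β : ℝ) (h : Vec d) (η : ℕ × Site d → ℝ) (s : Fin n → Step d) : 0 < wgt β h η s :=
  Real.exp_pos _

lemma ZT_nonneg (β : ℝ) (h : Vec d) (η : ℕ × Site d → ℝ) (E : Set (Fin n → Step d)) :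
    0 ≤ ZT β h η E := by
  unfold ZT
  refine Finset.sum_nonneg fun s _ => ?_
  split_ifs
  · exact (wgt_pos _ _ _ _).le
  · exact le_rfl

lemma ZT_pos (β : ℝ) (h : Vec d) (η : ℕ × Site d → ℝ) {E : Set (Fin n → Step d)}
    (hE : E.Nonempty) : 0 < ZT β h η E := by
  classical
  obtain ⟨s, hs⟩ := hE
  unfold ZT
  refine Finset.sum_pos' (fun s _ => ?_) ⟨s, Finset.mem_univ _, ?_⟩
  · split_ifs
    · exact (wgt_pos _ _ _ _).le
    · exact le_rfl
  · rw [if_pos hs]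
    exact wgt_pos _ _ _ _

lemma ZT_mono (β : ℝ) (h : Vec d) (η : ℕ × Site d → ℝ) {E E' : Set (Fin n → Step d)}
    (hE : E ⊆ E') : ZT β h η E ≤ ZT β h η E' := by
  unfold ZT
  refine Finset.sum_le_sum fun s _ => ?_
  by_cases hs : s ∈ E
  · rw [if_pos hs, if_pos (hE hs)]
  · rw [if_neg hs]
    split_ifs
    · exact (wgt_pos _ _ _ _).le
    · exact le_rfl

lemma ZT_univ_pos (hd : 0 < d) (β : ℝ) (h : Vec d) (η : ℕ × Site d → ℝ) :
    0 < ZT β h η (Set.univ : Set (Fin n → Step d)) :=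
  ZT_pos β h η ⟨fun _ => (⟨0, hd⟩, true), trivial⟩

lemma ZT_disjoint (β : ℝ) (h : Vec d) (η : ℕ × Site d → ℝ) {E E' : Set (Fin n → Step d)}
    (hE : Disjoint E E') : ZT β h η E + ZT β h η E' ≤ ZT β h η (Set.univ : Set (Fin n → Step d)) := by
  unfold ZT
  rw [← Finset.sum_add_distrib]
  refine Finset.sum_le_sum fun s _ => ?_
  rw [if_pos (Set.mem_univ s)]
  have hw := (wgt_pos β h η s).le
  by_cases hs : s ∈ E
  · rw [if_pos hs, if_neg (Set.disjoint_left.1 hE hs), add_zero]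
  · rw [if_neg hs, zero_add]
    split_ifs
    · exact le_rfl
    · exact hw

/-- Changing the tilt. -/
lemma ZT_tilt_ge (β : ℝ) (h h' : Vec d) (η : ℕ × Site d → ℝ) {E : Set (Fin n → Step d)} {A : ℝ}
    (hA : ∀ s ∈ E, A ≤ inner ℝ (h' - h) (emb (pos s n))) :
    Real.exp A * ZT β h η E ≤ ZT β h' η E := by
  unfold ZT
  rw [Finset.mul_sum]
  refine Finset.sum_le_sum fun s _ => ?_
  by_cases hs : s ∈ E
  · rw [if_pos hs, if_pos hs]
    unfold wgt
    rw [← Real.exp_add]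
    apply Real.exp_le_exp.2
    have := hA s hs
    rw [inner_sub_left] at this
    linarith
  · rw [if_neg hs, if_neg hs, mul_zero]

lemma PolT_nonneg (β : ℝ) (h : Vec d) (η : ℕ × Site d → ℝ) (E : Set (Fin n → Step d)) :
    0 ≤ PolT β h η E := div_nonneg (ZT_nonneg _ _ _ _) (ZT_nonneg _ _ _ _)

lemma PolT_le_one (β : ℝ) (h : Vec d) (η : ℕ × Site d → ℝ) (E : Set (Fin n → Step d)) :
    PolT β h η E ≤ 1 :=
  div_le_one_of_le₀ (ZT_mono β h η (Set.subset_univ E)) (ZT_nonneg _ _ _ _)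

lemma PolT_mono (β : ℝ) (h : Vec d) (η : ℕ × Site d → ℝ) {E E' : Set (Fin n → Step d)}
    (hE : E ⊆ E') : PolT β h η E ≤ PolT β h η E' :=
  div_le_div_of_nonneg_right (ZT_mono β h η hE) (ZT_nonneg _ _ _ _)

lemma le_ZT_of_PolT (hd : 0 < d) {β : ℝ} {h : Vec d} {η : ℕ × Site d → ℝ}
    {E : Set (Fin n → Step d)} {c : ℝ} (hP : c ≤ PolT β h η E) :
    c * ZT β h η (Set.univ : Set (Fin n → Step d)) ≤ ZT β h η E := by
  unfold PolT at hP
  rwa [le_div_iff₀ (ZT_univ_pos hd β h η)] at hP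

lemma nonempty_of_PolT {β : ℝ} {h : Vec d} {η : ℕ × Site d → ℝ}
    {E : Set (Fin n → Step d)} (hP : 0 < PolT β h η E) : E.Nonempty := by
  by_contra hcon
  rw [Set.not_nonempty_iff_eq_empty] at hcon
  rw [hcon] at hP
  unfold PolT ZT at hP
  simp at hP

lemma measurable_wgt (β : ℝ) (h : Vec d) (s : Fin n → Step d) :
    Measurable fun η : ℕ × Site d → ℝ => wgt β h η s := by
  unfold wgt
  exact Real.measurable_exp.comp (((measurable_energy s).const_mul β).const_add _)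

lemma measurable_ZT (β : ℝ) (h : Vec d) (E : Set (Fin n → Step d)) :
    Measurable fun η : ℕ × Site d → ℝ => ZT β h η E := by
  unfold ZT
  refine Finset.measurable_sum _ fun s _ => ?_
  by_cases hs : s ∈ E
  · simp only [if_pos hs]
    exact measurable_wgt β h s
  · simp only [if_neg hs]
    exact measurable_const

lemma measurable_PolT (β : ℝ) (h : Vec d) (E : Set (Fin n → Step d)) :
    Measurable fun η : ℕ × Site d → ℝ => PolT β h η E :=
  (measurable_ZT β h E).div (measurable_ZT β h Set.univ)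

/-! ### Tubes -/

lemma tube_mono (v : Vec d) {r r' : ℝ} (h : r ≤ r') : tube d n v r ⊆ tube d n v r' :=
  fun _ hs i hi => (hs i hi).trans h

lemma norm_emb (x : Site d) : ‖emb x‖ = nrm x := by
  rw [nrm_eq_norm]
  rfl

lemma tube_univ (v : Vec d) {r : ℝ} (h : (n : ℝ) * (1 + ‖v‖) ≤ r) : tube d n v r = Set.univ := by
  rw [Set.eq_univ_iff_forall]
  intro s i hi
  have hi' : (i : ℝ) ≤ n := by exact_mod_cast hi
  have h1 : ‖emb (pos s i)‖ ≤ n := by
    rw [norm_emb]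
    exact nrm_pos_le s i
  have h2 : ‖(i : ℝ) • v‖ ≤ n * ‖v‖ := by
    rw [norm_smul, Real.norm_eq_abs, abs_of_nonneg (Nat.cast_nonneg i)]
    exact mul_le_mul_of_nonneg_right hi' (norm_nonneg v)
  calc ‖emb (pos s i) - (i : ℝ) • v‖ ≤ ‖emb (pos s i)‖ + ‖(i : ℝ) • v‖ := norm_sub_le _ _
    _ ≤ n + n * ‖v‖ := add_le_add h1 h2
    _ ≤ r := by linarith

lemma PolT_univ (hd : 0 < d) (β : ℝ) (h : Vec d) (η : ℕ × Site d → ℝ) :
    PolT β h η (Set.univ : Set (Fin n → Step d)) = 1 := div_self (ZT_univ_pos hd β h η).ne'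

lemma two_mem_nuSetT {Ω : Type*} [MeasurableSpace Ω] (μ : Measure Ω) [IsProbabilityMeasure μ]
    (hd : 0 < d) (ω : ℕ × Site d → Ω → ℝ) (β : ℝ) (h v : Vec d) : (2 : ℝ) ∈ nuSetT μ β ω h v := by
  refine ⟨two_pos, ?_⟩
  have key : ∀ x : Ω, liminf (fun n : ℕ => PolT β h (fun p => ω p x)
      (tube d n v ((n : ℝ) ^ (2 : ℝ)))) atTop = 1 := by
    intro x
    have hev : (fun n : ℕ => PolT β h (fun p => ω p x) (tube d n v ((n : ℝ) ^ (2 : ℝ)))) =ᶠ[atTop]
        fun _ => (1 : ℝ) := by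
      filter_upwards [eventually_ge_atTop ⌈1 + ‖v‖⌉₊] with n hn
      have hn' : 1 + ‖v‖ ≤ n := Nat.ceil_le.1 hn
      rw [tube_univ, PolT_univ hd]
      rw [Real.rpow_two, sq]
      exact mul_le_mul_of_nonneg_left hn' (Nat.cast_nonneg n)
    rw [liminf_congr hev]
    exact liminf_const _
  simp only [key]
  rw [integral_const]
  simp

/-- If `ν(h, v) < a` then for every `κ` the tube of width `n ^ a` carries mass `≥ 1 - κ` with
probability `≥ 1 - κ` for large `n`. -/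
lemma exists_bad_small' {Ω : Type*} [MeasurableSpace Ω] {μ : Measure Ω} [IsProbabilityMeasure μ]
    {u : ℕ → Ω → ℝ} (hm : ∀ n, Measurable (u n)) (h0 : ∀ n x, 0 ≤ u n x) (h1 : ∀ n x, u n x ≤ 1)
    (hI : ∫ x, liminf (fun n => u n x) atTop ∂μ = 1) {θ : ℝ} (hθ : θ < 1) {δ : ℝ} (hδ : 0 < δ) :
    ∃ n0 : ℕ, ∀ N ≥ n0, μ.real {x | ¬ (θ ≤ u N x)} ≤ δ := by
  have hae := ae_liminf_eq_one h0 h1 hI
  have hA : ∀ n, MeasurableSet {x | ¬ (θ ≤ u n x)} := fun n =>
    (measurableSet_le measurable_const (hm n)).compl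
  set B : ℕ → Set Ω := fun n => ⋃ m ≥ n, {x | ¬ (θ ≤ u m x)} with hB
  have hBm : ∀ n, MeasurableSet (B n) := fun n =>
    MeasurableSet.iUnion fun m => MeasurableSet.iUnion fun _ => hA m
  have hanti : Antitone B := by
    intro a b hab x hx
    simp only [hB, Set.mem_iUnion] at hx ⊢
    obtain ⟨m, hm1, hm2⟩ := hx
    exact ⟨m, le_trans hab hm1, hm2⟩
  have hnull : μ (⋂ n, B n) = 0 := by
    rw [measure_eq_zero_iff_ae_notMem]
    filter_upwards [hae] with x hx hcon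
    have hb : IsBoundedUnder (· ≥ ·) atTop fun n => u n x :=
      isBoundedUnder_of ⟨0, fun n => h0 n x⟩
    have hev := eventually_lt_of_lt_liminf (f := atTop) (u := fun n => u n x) (b := θ)
      (by rw [hx]; exact hθ) hb
    rw [eventually_atTop] at hev
    obtain ⟨n, hn⟩ := hev
    have h5 := Set.mem_iInter.1 hcon n
    simp only [hB, Set.mem_iUnion] at h5
    obtain ⟨m, hm1, hm2⟩ := h5
    exact hm2 (hn m hm1).le
  have ht := tendsto_measure_iInter_atTop (μ := μ) (fun n => (hBm n).nullMeasurableSet) hanti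
    ⟨0, measure_ne_top _ _⟩
  rw [hnull] at ht
  have hev := ht.eventually (gt_mem_nhds (ENNReal.ofReal_pos.2 hδ))
  rw [eventually_atTop] at hev
  obtain ⟨n0, hn0⟩ := hev
  refine ⟨n0, fun N hN => ?_⟩
  have hsub : {x | ¬ (θ ≤ u N x)} ⊆ B n0 := by
    intro x hx
    simp only [hB, Set.mem_iUnion]
    exact ⟨N, hN, hx⟩
  have h6 : μ {x | ¬ (θ ≤ u N x)} ≤ ENNReal.ofReal δ :=
    (measure_mono hsub).trans (hn0 n0 le_rfl).le
  rw [measureReal_def]
  exact ENNReal.toReal_le_of_le_ofReal hδ.le h6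

lemma exists_n0T {Ω : Type*} [MeasurableSpace Ω] {μ : Measure Ω} [IsProbabilityMeasure μ]
    (hd : 0 < d) {ω : ℕ × Site d → Ω → ℝ} (hmeas : ∀ p, Measurable (ω p)) {β a : ℝ} {h v : Vec d}
    (ha : nuT μ β ω h v < a) {κ : ℝ} (hκ : 0 < κ) : ∃ n0 : ℕ, ∀ N ≥ n0,
      μ.real {x | ¬ (1 - κ ≤ PolT β h (fun p => ω p x) (tube d N v ((N : ℝ) ^ a)))} ≤ κ := by
  obtain ⟨b, hb, hba⟩ := exists_lt_of_csInf_lt ⟨2, two_mem_nuSetT μ hd ω β h v⟩ ha
  obtain ⟨n0, hn0⟩ := exists_bad_small'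
    (u := fun n x => PolT β h (fun p => ω p x) (tube d n v ((n : ℝ) ^ b)))
    (fun n => (measurable_PolT β h _).comp (measurable_pi_iff.2 hmeas))
    (fun n x => PolT_nonneg _ _ _ _) (fun n x => PolT_le_one _ _ _ _) hb.2
    (show 1 - κ < 1 by linarith) hκ
  refine ⟨max n0 1, fun N hN => ?_⟩
  have hN1 : (1 : ℝ) ≤ N := by exact_mod_cast (le_max_right n0 1).trans hN
  refine (measureReal_mono ?_).trans (hn0 N ((le_max_left n0 1).trans hN))
  intro x hx hcon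
  exact hx (hcon.trans (PolT_mono _ _ _ (tube_mono v (Real.rpow_le_rpow_of_exponent_le hN1 hba.le))))

end Pool.Agent.W_7d29a1_h46
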