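import Pool.Agent.W_7d29a1_h46.Comp

/-!
The fluctuation lower bound, conditionally on a part of the environment.
-/

namespace Pool.Agent.W_7d29a1_h46

open MeasureTheory ProbabilityTheory Filter Pool.Agent.W_MP_7d29a1_pr

variable {d n : ℕ}

/-- The environment with the values `g` on `V` and `y` on `B`. -/
noncomputable def glue {V B : Finset (ℕ × Site d)} (g : V → ℝ) (y : B → ℝ) : ℕ × Site d → ℝ :=
  fun p => if hp : p ∈ V then g ⟨p, hp⟩ else if hp : p ∈ B then y ⟨p, hp⟩ else 0

lemma measurable_glue (V B : Finset (ℕ × Site d)) :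
    Measurable fun q : (V → ℝ) × (B → ℝ) => glue q.1 q.2 := by
  rw [measurable_pi_iff]
  intro p
  unfold glue
  by_cases h1 : p ∈ V
  · simp only [dif_pos h1]
    exact (measurable_pi_apply _).comp measurable_fst
  · simp only [dif_neg h1]
    by_cases h2 : p ∈ B
    · simp only [dif_pos h2]
      exact (measurable_pi_apply _).comp measurable_snd
    · simp only [dif_neg h2]
      exact measurable_const

lemma glue_left {V B : Finset (ℕ × Site d)} (g : V → ℝ) (y : B → ℝ) {p : ℕ × Site d}
    (hp : p ∈ V) : glue g y p = g ⟨p, hp⟩ := by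
  unfold glue
  rw [dif_pos hp]

lemma glue_right {V B : Finset (ℕ × Site d)} (g g' : V → ℝ) (y : B → ℝ) {p : ℕ × Site d}
    (hp : p ∉ V) : glue g y p = glue g' y p := by
  unfold glue
  rw [dif_neg hp, dif_neg hp]

lemma glue_self {V B : Finset (ℕ × Site d)} (η : ℕ × Site d → ℝ)
    {p : ℕ × Site d} (hp : p ∈ V ∪ B) :
    glue (V := V) (B := B) (fun q => η q) (fun q => η q) p = η p := by
  unfold glue
  by_cases h1 : p ∈ V
  · rw [dif_pos h1]
  · rw [dif_neg h1, dif_pos ((Finset.mem_union.1 hp).resolve_left h1)]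

lemma ZT_congr {β : ℝ} {h : Vec d} {T : Set (Fin n → Step d)} {η η' : ℕ × Site d → ℝ}
    (hη : ∀ s ∈ T, ∀ p ∈ sites s, η p = η' p) : ZT β h η T = ZT β h η' T := by
  unfold ZT
  refine Finset.sum_congr rfl fun s _ => ?_
  by_cases hs : s ∈ T
  · rw [if_pos hs, if_pos hs]
    unfold wgt
    rw [energy_eq, energy_eq, Finset.sum_congr rfl (hη s hs)]
  · rw [if_neg hs, if_neg hs]

/-- The statement of `fluct` for given constants. -/
def FluctAt (ρ : Measure ℝ) (β ε c : ℝ) : Prop :=
  ∀ (V P : Type) [Fintype V] [Fintype P] [Nonempty P] (A : P → Finset V)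
      (w : P → ℝ) (N : ℕ), (∀ p, 0 < w p) → (∀ p, (A p).card = N) → ∀ α γ : ℝ,
      (Measure.pi fun _ : V => ρ)
        {η | Real.log (∑ p, w p * Real.exp (β * ∑ s ∈ A p, η s)) ∉ Set.Icc α γ} ≤
          ENNReal.ofReal ε →
      c * N ≤ (γ - α) * Real.sqrt (Fintype.card V)

theorem cond_fluct {Ω : Type*} [MeasurableSpace Ω] {μ : Measure Ω} [IsProbabilityMeasure μ]
    {ρ : Measure ℝ} [IsProbabilityMeasure ρ] {ω : ℕ × Site d → Ω → ℝ} (hω : IID μ ρ ω)
    {β ε c : ℝ} (hf : FluctAt ρ β ε c) (h : Vec d) {V B : Finset (ℕ × Site d)}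
    (hVB : Disjoint V B) {T : Set (Fin n → Step d)} (hne : T.Nonempty)
    (hsub : ∀ s ∈ T, sites s ⊆ V ∪ B) {N : ℕ}
    (hN : ∀ s ∈ T, ((sites s).filter (· ∈ V)).card = N)
    {F : (ℕ × Site d → ℝ) → ℝ} (hFm : Measurable F)
    (hF : ∀ η η' : ℕ × Site d → ℝ, (∀ p ∈ B, η p = η' p) → F η = F η') (α γ : ℝ)
    (hbad : μ {x | Real.log (ZT β h (fun p => ω p x) T) - F (fun p => ω p x) ∉ Set.Icc α γ} ≤
      ENNReal.ofReal ε) :
    c * N ≤ (γ - α) * Real.sqrt V.card := by
  classical
  set X : Ω → (V → ℝ) := fun x p => ω p x with hX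
  set Y : Ω → (B → ℝ) := fun x p => ω p x with hY
  have hind : IndepFun X Y μ := hω.indep.indepFun_finset V B hVB hω.meas
  have hXm : Measurable X := measurable_pi_iff.2 fun p => hω.meas p
  have hYm : Measurable Y := measurable_pi_iff.2 fun p => hω.meas p
  have hXlaw : μ.map X = Measure.pi fun _ : V => ρ := by
    have h1 : iIndepFun (fun (v : V) => ω v) μ := hω.indep.precomp Subtype.val_injective
    have h2 := (iIndepFun_iff_map_fun_eq_pi_map (f := fun (v : V) => ω v)
      fun v => (hω.meas v).aemeasurable).1 h1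
    simp only [hω.law] at h2
    exact h2
  have hprod : μ.map (fun x => (X x, Y x)) = (μ.map X).prod (μ.map Y) :=
    (indepFun_iff_map_prod_eq_prod_map_map hXm.aemeasurable hYm.aemeasurable).1 hind
  set Φ : (V → ℝ) × (B → ℝ) → ℝ := fun q =>
    Real.log (ZT β h (glue q.1 q.2) T) - F (glue q.1 q.2) with hΦ
  have hΦm : Measurable Φ :=
    (Real.measurable_log.comp ((measurable_ZT β h T).comp (measurable_glue V B))).sub
      (hFm.comp (measurable_glue V B))
  have hSm : MeasurableSet {q | Φ q ∉ Set.Icc α γ} := (hΦm measurableSet_Icc).compl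
  have hΦω : ∀ x, Φ (X x, Y x) = Real.log (ZT β h (fun p => ω p x) T) - F (fun p => ω p x) := by
    intro x
    have e1 : ZT β h (glue (X x) (Y x)) T = ZT β h (fun p => ω p x) T :=
      ZT_congr fun s hs p hp => glue_self (fun p => ω p x) (hsub s hs hp)
    have e2 : F (glue (X x) (Y x)) = F (fun p => ω p x) :=
      hF _ _ fun p hp => glue_self (fun p => ω p x) (Finset.mem_union_right _ hp)
    simp only [hΦ]
    rw [e1, e2]
  have hmeas_eq : μ {x | Real.log (ZT β h (fun p => ω p x) T) - F (fun p => ω p x) ∉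
      Set.Icc α γ} = ∫⁻ y, (μ.map X) ((fun g => (g, y)) ⁻¹' {q | Φ q ∉ Set.Icc α γ}) ∂(μ.map Y) := by
    have : IsProbabilityMeasure (μ.map X) := Measure.isProbabilityMeasure_map hXm.aemeasurable
    have : IsProbabilityMeasure (μ.map Y) := Measure.isProbabilityMeasure_map hYm.aemeasurable
    rw [← Measure.prod_apply_symm hSm, ← hprod, Measure.map_apply (hXm.prodMk hYm) hSm]
    congr 1
    ext x
    simp only [Set.mem_ofPred_eq, Set.mem_preimage]
    rw [hΦω x]
  have hPY : IsProbabilityMeasure (μ.map Y) := Measure.isProbabilityMeasure_map hYm.aemeasurable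
  have hPX : IsProbabilityMeasure (μ.map X) := Measure.isProbabilityMeasure_map hXm.aemeasurable
  obtain ⟨y, hy⟩ := exists_le_lintegral (μ := μ.map Y)
    (f := fun y => (μ.map X) ((fun g => (g, y)) ⁻¹' {q | Φ q ∉ Set.Icc α γ}))
    (measurable_measure_prodMk_right hSm).aemeasurable
  rw [← hmeas_eq] at hy
  have hy2 := hy.trans hbad
  rw [hXlaw] at hy2
  obtain ⟨s0, hs0⟩ := hne
  have hnonempty : Nonempty {s : Fin n → Step d // s ∈ T} := ⟨⟨s0, hs0⟩⟩
  set z : ℕ × Site d → ℝ := glue (V := V) (B := B) (fun _ => 0) y with hz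
  have hkey : ∀ g : V → ℝ, Φ (g, y) = Real.log (∑ s : {s : Fin n → Step d // s ∈ T},
      Real.exp (inner ℝ h (emb (pos s.1 n)) + β * ∑ p ∈ (sites s.1).filter (· ∉ V), z p - F z) *
        Real.exp (β * ∑ v ∈ (sites s.1).subtype (· ∈ V), g v)) := by
    intro g
    have hFz : F (glue g y) = F z := hF _ _ fun p hp => by
      rw [hz]
      exact glue_right _ _ _ (Finset.disjoint_right.1 hVB hp)
    have hZ : 0 < ZT β h (glue g y) T := ZT_pos _ _ _ ⟨s0, hs0⟩
    have e1 : Φ (g, y) = Real.log (ZT β h (glue g y) T * Real.exp (- F z)) := by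
      rw [Real.log_mul hZ.ne' (Real.exp_pos _).ne', Real.log_exp, ← hFz]
      simp only [hΦ]
      ring
    rw [e1]
    congr 1
    unfold ZT
    rw [Finset.sum_mul]
    have e2 : ∀ s : Fin n → Step d, (if s ∈ T then wgt β h (glue g y) s else 0) *
        Real.exp (-F z) = if s ∈ T then wgt β h (glue g y) s * Real.exp (-F z) else 0 := by
      intro s
      split_ifs
      · rfl
      · rw [zero_mul]
    rw [Finset.sum_congr rfl fun s _ => e2 s, ← Finset.sum_filter,
      Finset.sum_subtype (p := fun s => s ∈ T)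
        (Finset.univ.filter fun s : Fin n → Step d => s ∈ T) (by simp)]
    refine Finset.sum_congr rfl fun s _ => ?_
    unfold wgt
    rw [← Real.exp_add, ← Real.exp_add]
    congr 1
    have e3 : energy (glue g y) s.1 = ∑ v ∈ (sites s.1).subtype (· ∈ V), g v +
        ∑ p ∈ (sites s.1).filter (· ∉ V), z p := by
      rw [energy_eq, ← Finset.sum_filter_add_sum_filter_not (sites s.1) (· ∈ V)]
      congr 1
      · rw [← Finset.sum_subtype_eq_sum_filter]
        refine Finset.sum_congr rfl fun v _ => ?_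
        rw [glue_left g y v.2]
      · refine Finset.sum_congr rfl fun p hp => ?_
        rw [hz]
        exact glue_right _ _ _ (Finset.mem_filter.1 hp).2
    rw [e3]
    ring
  have h3 := hf V {s : Fin n → Step d // s ∈ T} (fun s => (sites s.1).subtype (· ∈ V))
    (fun s => Real.exp (inner ℝ h (emb (pos s.1 n)) +
      β * ∑ p ∈ (sites s.1).filter (· ∉ V), z p - F z)) N (fun _ => Real.exp_pos _)
    (fun s => by rw [Finset.card_subtype]; exact hN s.1 s.2) α γ (by
      refine le_trans (le_of_eq ?_) hy2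
      congr 1
      ext g
      simp only [Set.mem_ofPred_eq, Set.mem_preimage]
      rw [hkey g])
  rwa [Fintype.card_coe] at h3

end Pool.Agent.W_7d29a1_h46
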