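import Pool.Agent.W_7d29a1_h46.Peano
import Pool.Agent.W_7d29a1_h47.Block
import Pool.Agent.W_7d29a1_h47.Lim

/-!
Upper bound for the wandering of the polymer with tilt `h`, dimension one.
-/

namespace Pool.Agent.W_7d29a1_h46

open MeasureTheory ProbabilityTheory Filter Topology Pool.Agent.W_7d29a1_h47

variable {μ : Measure ℝ} [IsProbabilityMeasure μ]

open Classical in
/-- The mass of the walks in the tube `|S_i - i v| ≤ r`, `i ≤ n`. -/
noncomputable def TM (g : Env) (h v r : ℝ) (n : ℕ) : ℝ :=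
  (∑ s ∈ T n, if (∀ i ≤ n, |(pos s i : ℝ) - i * v| ≤ r) then wt g h 0 0 n s else 0) / Z g h 0 0 n

/-- The weight of the walks which are far away from the direction `v` at time `i`. -/
lemma Bul_det (g : Env) (h t v r : ℝ) {n i : ℕ} (hi : i ≤ n) {M : ℝ}
    (hM : ∀ y ∈ Finset.Icc (-(i : ℤ)) i, Z g h i y (n - i) ≤ M) :
    ∑ s ∈ T n, ind (|t| * r ≤ t * ((pos s i : ℝ) - i * v)) * wt g h 0 0 n s ≤
      Real.exp (-(t * (i * v)) - |t| * r) * Z g (h + t) 0 0 i * M := by
  obtain ⟨k, rfl⟩ := Nat.exists_eq_add_of_le hi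
  rw [Nat.add_sub_cancel_left] at hM
  rw [sum_split]
  have h1 : ∀ s ∈ T i, ∑ q ∈ T k, ind (|t| * r ≤ t * ((pos (glue i s q) i : ℝ) - i * v)) *
      wt g h 0 0 (i + k) (glue i s q) ≤
      (Real.exp (-(t * (i * v)) - |t| * r) * wt g (h + t) 0 0 i s) * M := by
    intro s hs
    have e1 : ∀ q, ind (|t| * r ≤ t * ((pos (glue i s q) i : ℝ) - i * v)) *
        wt g h 0 0 (i + k) (glue i s q) = (ind (|t| * r ≤ t * ((pos s i : ℝ) - i * v)) *
          wt g h 0 0 i s) * wt g h i (pos s i) k q := by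
      intro q
      rw [pos_glue_le le_rfl, wt_glue, zero_add, zero_add]
      ring
    simp only [e1]
    rw [← Finset.mul_sum]
    have hy : pos s i ∈ Finset.Icc (-(i : ℤ)) i := by
      have := pos_mem_Icc s i 0
      simpa using this
    have e2 : ∑ q ∈ T k, wt g h i (pos s i) k q ≤ M := hM _ hy
    have hM0 : 0 ≤ M := (Z_pos g h i (pos s i) k).le.trans e2
    have e3 : ind (|t| * r ≤ t * ((pos s i : ℝ) - i * v)) * wt g h 0 0 i s ≤
        Real.exp (-(t * (i * v)) - |t| * r) * wt g (h + t) 0 0 i s := by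
      have e4 : Real.exp (-(t * (i * v)) - |t| * r) * wt g (h + t) 0 0 i s =
          Real.exp (t * ((pos s i : ℝ) - i * v) - |t| * r) * wt g h 0 0 i s := by
        unfold wt
        rw [← Real.exp_add, ← Real.exp_add]
        congr 1
        ring
      rw [e4]
      refine mul_le_mul_of_nonneg_right ?_ (wt_pos _ _ _ _ _ _).le
      by_cases hc : |t| * r ≤ t * ((pos s i : ℝ) - i * v)
      · rw [ind_true hc]
        exact Real.one_le_exp (by linarith)
      · rw [ind_false hc]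
        exact (Real.exp_pos _).le
    calc (ind (|t| * r ≤ t * ((pos s i : ℝ) - i * v)) * wt g h 0 0 i s) *
          ∑ q ∈ T k, wt g h i (pos s i) k q
        ≤ (ind (|t| * r ≤ t * ((pos s i : ℝ) - i * v)) * wt g h 0 0 i s) * M :=
          mul_le_mul_of_nonneg_left e2 (mul_nonneg (ind_nonneg _) (wt_pos _ _ _ _ _ _).le)
      _ ≤ _ := mul_le_mul_of_nonneg_right e3 hM0
  refine (Finset.sum_le_sum h1).trans (le_of_eq ?_)
  rw [← Finset.sum_mul, ← Finset.mul_sum]
  rfl

/-- One minus the mass of the tube is at most the sum of the masses of the walks that are far away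
at some time, on some side. -/
lemma Bul_one_sub (g : Env) (h v : ℝ) {r t : ℝ} (ht : 0 < t) (n : ℕ) :
    1 - TM g h v r n ≤ ∑ i ∈ Finset.range (n + 1),
      ((∑ s ∈ T n, ind (|t| * r ≤ t * ((pos s i : ℝ) - i * v)) * wt g h 0 0 n s) / Z g h 0 0 n +
      (∑ s ∈ T n, ind (|-t| * r ≤ -t * ((pos s i : ℝ) - i * v)) * wt g h 0 0 n s) /
        Z g h 0 0 n) := by
  classical
  have hZ := Z_pos g h 0 0 n
  have h1 : 1 - TM g h v r n = (∑ s ∈ T n,
      ind (¬ ∀ i ≤ n, |(pos s i : ℝ) - i * v| ≤ r) * wt g h 0 0 n s) / Z g h 0 0 n := by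
    unfold TM
    rw [eq_div_iff hZ.ne', sub_mul, div_mul_cancel₀ _ hZ.ne', one_mul]
    unfold Z
    rw [← Finset.sum_sub_distrib]
    refine Finset.sum_congr rfl fun s _ => ?_
    by_cases hs : ∀ i ≤ n, |(pos s i : ℝ) - i * v| ≤ r
    · rw [if_pos hs, ind_false (not_not.2 hs)]
      ring
    · rw [if_neg hs, ind_true hs]
      ring
  rw [h1]
  simp only [← add_div]
  rw [← Finset.sum_div]
  refine div_le_div_of_nonneg_right ?_ hZ.le
  simp only [← Finset.sum_add_distrib]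
  rw [Finset.sum_comm]
  refine Finset.sum_le_sum fun s _ => ?_
  have hw := (wt_pos g h 0 0 n s).le
  have h2 : ∑ i ∈ Finset.range (n + 1), (ind (|t| * r ≤ t * ((pos s i : ℝ) - i * v)) *
      wt g h 0 0 n s + ind (|-t| * r ≤ -t * ((pos s i : ℝ) - i * v)) * wt g h 0 0 n s) =
      (∑ i ∈ Finset.range (n + 1), (ind (|t| * r ≤ t * ((pos s i : ℝ) - i * v)) +
        ind (|-t| * r ≤ -t * ((pos s i : ℝ) - i * v)))) * wt g h 0 0 n s := by
    rw [Finset.sum_mul]
    exact Finset.sum_congr rfl fun i _ => by ring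
  rw [h2]
  refine mul_le_mul_of_nonneg_right ?_ hw
  by_cases hs : ∀ i ≤ n, |(pos s i : ℝ) - i * v| ≤ r
  · rw [ind_false (not_not.2 hs)]
    exact Finset.sum_nonneg fun i _ => add_nonneg (ind_nonneg _) (ind_nonneg _)
  · rw [ind_true hs]
    push Not at hs
    obtain ⟨i, hi, hr⟩ := hs
    have h3 : (1 : ℝ) ≤ ind (|t| * r ≤ t * ((pos s i : ℝ) - i * v)) +
        ind (|-t| * r ≤ -t * ((pos s i : ℝ) - i * v)) := by
      rcases lt_abs.1 hr with h4 | h4
      · rw [ind_true (by rw [abs_of_pos ht]; exact mul_le_mul_of_nonneg_left h4.le ht.le)]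
        linarith [ind_nonneg (|-t| * r ≤ -t * ((pos s i : ℝ) - i * v))]
      · rw [ind_true (p := |-t| * r ≤ -t * ((pos s i : ℝ) - i * v)) (by
          rw [abs_neg, abs_of_pos ht]
          have := mul_le_mul_of_nonneg_left h4.le ht.le
          linarith)]
        linarith [ind_nonneg (|t| * r ≤ t * ((pos s i : ℝ) - i * v))]
    exact h3.trans (Finset.single_le_sum (f := fun i : ℕ =>
      ind (|t| * r ≤ t * ((pos s i : ℝ) - i * v)) +
        ind (|-t| * r ≤ -t * ((pos s i : ℝ) - i * v)))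
      (fun i _ => add_nonneg (ind_nonneg _) (ind_nonneg _)) (Finset.mem_range.2 (by omega)))

/-- The good event for the parameters `t`, `u`. -/
structure Gd (μ : Measure ℝ) (h t u : ℝ) (n : ℕ) (g : Env) : Prop where
  up : ∀ i ≤ n, Real.log (Z g (h + t) 0 0 i) ≤ i * Lam μ (h + t) + u
  dn : ∀ i ≤ n, Real.log (Z g (h + -t) 0 0 i) ≤ i * Lam μ (h + -t) + u
  mid : ∀ i ≤ n, ∀ y ∈ Finset.Icc (-(i : ℤ)) i,
    Real.log (Z g h i y (n - i)) ≤ ((n - i : ℕ) : ℝ) * Lam μ h + u
  low : n * Lam μ h - eps μ n - u ≤ Real.log (Z g h 0 0 n)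

/-- The mass of the walks far away at time `i`, on the good event. -/
lemma Bul_mass {g : Env} {h v r u t C b : ℝ} {n i : ℕ} (hi : i ≤ n)
    (hup : Real.log (Z g (h + t) 0 0 i) ≤ i * Lam μ (h + t) + u)
    (hmid : ∀ y ∈ Finset.Icc (-(i : ℤ)) i,
      Real.log (Z g h i y (n - i)) ≤ ((n - i : ℕ) : ℝ) * Lam μ h + u)
    (hlow : n * Lam μ h - eps μ n - u ≤ Real.log (Z g h 0 0 n)) (hC : 0 ≤ C)
    (hexp : Lam μ (h + t) ≤ Lam μ h + v * t + C * b) (hb : 0 ≤ b) :
    (∑ s ∈ T n, ind (|t| * r ≤ t * ((pos s i : ℝ) - i * v)) * wt g h 0 0 n s) / Z g h 0 0 n ≤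
      Real.exp (n * (C * b) + 3 * u + eps μ n - |t| * r) := by
  have hZ := Z_pos g h 0 0 n
  have hni : ((n - i : ℕ) : ℝ) = n - i := by
    rw [Nat.cast_sub hi]
  have h1 := Bul_det g h t v r hi (M := Real.exp (((n - i : ℕ) : ℝ) * Lam μ h + u))
    fun y hy => by
      rw [← Real.log_le_iff_le_exp (Z_pos _ _ _ _ _)]
      exact hmid y hy
  rw [div_le_iff₀ hZ]
  have h2 : Z g (h + t) 0 0 i ≤ Real.exp (i * Lam μ (h + t) + u) := by
    rw [← Real.log_le_iff_le_exp (Z_pos _ _ _ _ _)]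
    exact hup
  have h3 : Real.exp (n * Lam μ h - eps μ n - u) ≤ Z g h 0 0 n := by
    rw [← Real.le_log_iff_exp_le hZ]
    exact hlow
  have hin : (i : ℝ) ≤ n := by exact_mod_cast hi
  calc ∑ s ∈ T n, ind (|t| * r ≤ t * ((pos s i : ℝ) - i * v)) * wt g h 0 0 n s
      ≤ Real.exp (-(t * (i * v)) - |t| * r) * Z g (h + t) 0 0 i *
          Real.exp (((n - i : ℕ) : ℝ) * Lam μ h + u) := h1
    _ ≤ Real.exp (-(t * (i * v)) - |t| * r) * Real.exp (i * Lam μ (h + t) + u) *
          Real.exp (((n - i : ℕ) : ℝ) * Lam μ h + u) := by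
        gcongr
    _ = Real.exp (-(t * (i * v)) - |t| * r + (i * Lam μ (h + t) + u) +
          (((n - i : ℕ) : ℝ) * Lam μ h + u)) := by
        rw [← Real.exp_add, ← Real.exp_add]
    _ ≤ Real.exp ((n * (C * b) + 3 * u + eps μ n - |t| * r) +
          (n * Lam μ h - eps μ n - u)) := by
        apply Real.exp_le_exp.2
        rw [hni]
        have h4 : (i : ℝ) * Lam μ (h + t) ≤ i * (Lam μ h + v * t + C * b) :=
          mul_le_mul_of_nonneg_left hexp (Nat.cast_nonneg i)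
        have h5 : (i : ℝ) * (C * b) ≤ n * (C * b) :=
          mul_le_mul_of_nonneg_right hin (mul_nonneg hC hb)
        nlinarith
    _ = Real.exp (n * (C * b) + 3 * u + eps μ n - |t| * r) *
          Real.exp (n * Lam μ h - eps μ n - u) := by rw [← Real.exp_add]
    _ ≤ _ := mul_le_mul_of_nonneg_left h3 (Real.exp_pos _).le

/-- The complement of the tube on the good event. -/
lemma Bul_good {g : Env} {h v r u t C b : ℝ} {n : ℕ} (ht : 0 < t) (hg : Gd μ h t u n g)
    (hC : 0 ≤ C) (hb : 0 ≤ b) (hexp1 : Lam μ (h + t) ≤ Lam μ h + v * t + C * b)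
    (hexp2 : Lam μ (h + -t) ≤ Lam μ h + v * -t + C * b) :
    1 - TM g h v r n ≤ 2 * (n + 1) * Real.exp (n * (C * b) + 3 * u + eps μ n - t * r) := by
  refine (Bul_one_sub g h v ht n).trans ?_
  have h1 : ∀ i ∈ Finset.range (n + 1),
      ((∑ s ∈ T n, ind (|t| * r ≤ t * ((pos s i : ℝ) - i * v)) * wt g h 0 0 n s) / Z g h 0 0 n +
      (∑ s ∈ T n, ind (|-t| * r ≤ -t * ((pos s i : ℝ) - i * v)) * wt g h 0 0 n s) /
        Z g h 0 0 n) ≤ 2 * Real.exp (n * (C * b) + 3 * u + eps μ n - t * r) := by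
    intro i hi
    have hi' : i ≤ n := by
      have := Finset.mem_range.1 hi
      omega
    have h2 := Bul_mass (r := r) hi' (hg.up i hi') (hg.mid i hi') hg.low hC hexp1 hb
    have h3 := Bul_mass (r := r) hi' (hg.dn i hi') (hg.mid i hi') hg.low hC hexp2 hb
    rw [abs_neg, abs_of_pos ht] at h3
    rw [abs_of_pos ht] at h2
    rw [abs_neg, abs_of_pos ht]
    linarith
  refine (Finset.sum_le_sum h1).trans (le_of_eq ?_)
  rw [Finset.sum_const, Finset.card_range, nsmul_eq_mul]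
  push_cast
  ring

/-! ### The probability of the good event -/

lemma Bul_up (hμ : EM μ) (h : ℝ) (t : ℕ) (x : ℤ) {i n : ℕ} (hi : i ≤ n) (hn : 1 ≤ n) (u : ℝ) :
    (law μ).real {g | ¬ Real.log (Z g h t x i) ≤ i * Lam μ h + u} ≤
      Real.exp (Cc μ - u / Real.sqrt n) := by
  have hn1 : (1 : ℝ) ≤ n := by exact_mod_cast hn
  have hs1 : 1 ≤ Real.sqrt n := Real.one_le_sqrt.2 hn1
  set θ : ℝ := (Real.sqrt n)⁻¹ with hθ
  have hθ0 : 0 < θ := by positivity
  have hθ1 : θ ≤ 1 := inv_le_one_of_one_le₀ hs1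
  have hθ2 : θ ^ 2 * n = 1 := by
    rw [hθ, inv_pow, Real.sq_sqrt (by positivity)]
    field_simp
  have hin : (i : ℝ) ≤ n := by exact_mod_cast hi
  have hCc := Cc_nonneg μ
  have h1 := conc_Z hμ h t x i (θ := θ) (by rw [abs_of_pos hθ0]; exact hθ1)
  have h2 : ∫ g, Z g h t x i ^ θ ∂(law μ) ≤ Real.exp (θ * (i * Lam μ h) + Cc μ) := by
    refine h1.trans (Real.exp_le_exp.2 ?_)
    have e1 := mul_le_mul_of_nonneg_left (a_le_Lam hμ h i) hθ0.le
    have e2 : Cc μ * θ ^ 2 * i ≤ Cc μ * θ ^ 2 * n :=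
      mul_le_mul_of_nonneg_left hin (by positivity)
    have e3 : Cc μ * θ ^ 2 * n = Cc μ := by rw [mul_assoc, hθ2, mul_one]
    linarith
  have hint : Integrable (fun g => Z g h t x i ^ θ) (law μ) := (PMom_Z_rpow hμ h t x i θ).integrable
  have h3 := mul_meas_ge_le_integral_of_nonneg (μ := law μ)
    (Eventually.of_forall fun g => Real.rpow_nonneg (Z_pos g h t x i).le θ) hint
    (Real.exp (θ * (i * Lam μ h + u)))
  have h4 : (law μ).real {g | ¬ Real.log (Z g h t x i) ≤ i * Lam μ h + u} ≤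
      (law μ).real {g | Real.exp (θ * (i * Lam μ h + u)) ≤ Z g h t x i ^ θ} := by
    refine measureReal_mono (fun g hg => ?_) (measure_ne_top _ _)
    have hg : ¬ Real.log (Z g h t x i) ≤ i * Lam μ h + u := hg
    push Not at hg
    change Real.exp (θ * (i * Lam μ h + u)) ≤ Z g h t x i ^ θ
    rw [Real.rpow_def_of_pos (Z_pos _ _ _ _ _)]
    apply Real.exp_le_exp.2
    rw [mul_comm]
    exact mul_le_mul_of_nonneg_right hg.le hθ0.le
  have h5 : Real.exp (θ * (i * Lam μ h + u)) *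
      (law μ).real {g | ¬ Real.log (Z g h t x i) ≤ i * Lam μ h + u} ≤
      Real.exp (θ * (i * Lam μ h) + Cc μ) :=
    (mul_le_mul_of_nonneg_left h4 (Real.exp_pos _).le).trans (h3.trans h2)
  have h6 : Real.exp (θ * (i * Lam μ h) + Cc μ) =
      Real.exp (θ * (i * Lam μ h + u)) * Real.exp (Cc μ - u / Real.sqrt n) := by
    rw [← Real.exp_add]
    congr 1
    rw [div_eq_mul_inv, ← hθ]
    ring
  rw [h6] at h5
  exact le_of_mul_le_mul_left h5 (Real.exp_pos _)

lemma Bul_low (hμ : EM μ) (h : ℝ) {n : ℕ} (hn : 1 ≤ n) (u : ℝ) :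
    (law μ).real {g | ¬ n * Lam μ h - eps μ n - u ≤ Real.log (Z g h 0 0 n)} ≤
      Real.exp (Cc μ - u / Real.sqrt n) := by
  have hn1 : (1 : ℝ) ≤ n := by exact_mod_cast hn
  have hs1 : 1 ≤ Real.sqrt n := Real.one_le_sqrt.2 hn1
  set θ : ℝ := (Real.sqrt n)⁻¹ with hθ
  have hθ0 : 0 < θ := by positivity
  have hθ1 : θ ≤ 1 := inv_le_one_of_one_le₀ hs1
  have hθ2 : θ ^ 2 * n = 1 := by
    rw [hθ, inv_pow, Real.sq_sqrt (by positivity)]
    field_simp
  have h1 := conc_Z hμ h 0 0 n (θ := -θ) (by rw [abs_neg, abs_of_pos hθ0]; exact hθ1)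
  have h2 : ∫ g, Z g h 0 0 n ^ (-θ) ∂(law μ) ≤ Real.exp (-θ * a μ h n + Cc μ) := by
    refine h1.trans (Real.exp_le_exp.2 ?_)
    have e3 : Cc μ * (-θ) ^ 2 * n = Cc μ := by rw [neg_sq, mul_assoc, hθ2, mul_one]
    linarith
  have hint : Integrable (fun g => Z g h 0 0 n ^ (-θ)) (law μ) :=
    (PMom_Z_rpow hμ h 0 0 n (-θ)).integrable
  have h3 := mul_meas_ge_le_integral_of_nonneg (μ := law μ)
    (Eventually.of_forall fun g => Real.rpow_nonneg (Z_pos g h 0 0 n).le (-θ)) hint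
    (Real.exp (-θ * (a μ h n - u)))
  have h4 : (law μ).real {g | ¬ n * Lam μ h - eps μ n - u ≤ Real.log (Z g h 0 0 n)} ≤
      (law μ).real {g | Real.exp (-θ * (a μ h n - u)) ≤ Z g h 0 0 n ^ (-θ)} := by
    refine measureReal_mono (fun g hg => ?_) (measure_ne_top _ _)
    have hg : ¬ n * Lam μ h - eps μ n - u ≤ Real.log (Z g h 0 0 n) := hg
    push Not at hg
    change Real.exp (-θ * (a μ h n - u)) ≤ Z g h 0 0 n ^ (-θ)
    rw [Real.rpow_def_of_pos (Z_pos _ _ _ _ _)]
    apply Real.exp_le_exp.2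
    have hr := rate hμ h n
    have h5 : Real.log (Z g h 0 0 n) ≤ a μ h n - u := by linarith
    nlinarith
  have h5 : Real.exp (-θ * (a μ h n - u)) *
      (law μ).real {g | ¬ n * Lam μ h - eps μ n - u ≤ Real.log (Z g h 0 0 n)} ≤
      Real.exp (-θ * a μ h n + Cc μ) :=
    (mul_le_mul_of_nonneg_left h4 (Real.exp_pos _).le).trans (h3.trans h2)
  have h6 : Real.exp (-θ * a μ h n + Cc μ) =
      Real.exp (-θ * (a μ h n - u)) * Real.exp (Cc μ - u / Real.sqrt n) := by
    rw [← Real.exp_add]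
    congr 1
    rw [div_eq_mul_inv, ← hθ]
    ring
  rw [h6] at h5
  exact le_of_mul_le_mul_left h5 (Real.exp_pos _)

/-- The probability of the bad event. -/
lemma Bul_prob (hμ : EM μ) (h t u : ℝ) {n : ℕ} (hn : 1 ≤ n) :
    (law μ).real {g | ¬ Gd μ h t u n g} ≤
      32 * (n : ℝ) ^ 2 * Real.exp (Cc μ - u / Real.sqrt n) := by
  classical
  set E : ℝ := Real.exp (Cc μ - u / Real.sqrt n) with hE
  have hE0 : 0 < E := Real.exp_pos _
  have hn1 : (1 : ℝ) ≤ n := by exact_mod_cast hn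
  set A1 : Set Env := ⋃ i ∈ Finset.range (n + 1),
    {g | ¬ Real.log (Z g (h + t) 0 0 i) ≤ i * Lam μ (h + t) + u} with hA1
  set A2 : Set Env := ⋃ i ∈ Finset.range (n + 1),
    {g | ¬ Real.log (Z g (h + -t) 0 0 i) ≤ i * Lam μ (h + -t) + u} with hA2
  set A3 : Set Env := ⋃ p ∈ Finset.range (n + 1) ×ˢ Finset.Icc (-(n : ℤ)) n,
    {g | ¬ Real.log (Z g h p.1 p.2 (n - p.1)) ≤ ((n - p.1 : ℕ) : ℝ) * Lam μ h + u} with hA3
  set A4 : Set Env := {g | ¬ n * Lam μ h - eps μ n - u ≤ Real.log (Z g h 0 0 n)} with hA4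
  have hsub : {g | ¬ Gd μ h t u n g} ⊆ A1 ∪ (A2 ∪ (A3 ∪ A4)) := by
    intro g hg
    by_contra hcon
    simp only [Set.mem_union, not_or] at hcon
    obtain ⟨c1, c2, c3, c4⟩ := hcon
    apply hg
    refine ⟨fun i hi => ?_, fun i hi => ?_, fun i hi y hy => ?_, ?_⟩
    · by_contra hc
      exact c1 (Set.mem_biUnion (Finset.mem_coe.2 (Finset.mem_range.2 (by omega))) hc)
    · by_contra hc
      exact c2 (Set.mem_biUnion (Finset.mem_coe.2 (Finset.mem_range.2 (by omega))) hc)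
    · by_contra hc
      have hy' := Finset.mem_Icc.1 hy
      refine c3 (Set.mem_biUnion (x := ((i, y) : ℕ × ℤ)) (Finset.mem_coe.2 ?_) hc)
      rw [Finset.mem_product]
      exact ⟨Finset.mem_range.2 (by simp; omega), Finset.mem_Icc.2 ⟨by simp; omega, by simp; omega⟩⟩
    · by_contra hc
      exact c4 hc
  have b1 : (law μ).real A1 ≤ (n + 1) * E := by
    refine (measureReal_biUnion_finset_le _ _).trans ?_
    refine (Finset.sum_le_sum fun i hi => Bul_up hμ (h + t) 0 0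
      (by have := Finset.mem_range.1 hi; omega) hn u).trans (le_of_eq ?_)
    rw [Finset.sum_const, Finset.card_range, nsmul_eq_mul]
    push_cast
    ring
  have b2 : (law μ).real A2 ≤ (n + 1) * E := by
    refine (measureReal_biUnion_finset_le _ _).trans ?_
    refine (Finset.sum_le_sum fun i hi => Bul_up hμ (h + -t) 0 0
      (by have := Finset.mem_range.1 hi; omega) hn u).trans (le_of_eq ?_)
    rw [Finset.sum_const, Finset.card_range, nsmul_eq_mul]
    push_cast
    ring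
  have b3 : (law μ).real A3 ≤ (n + 1) * (2 * n + 1) * E := by
    refine (measureReal_biUnion_finset_le _ _).trans ?_
    refine (Finset.sum_le_sum fun p _ => Bul_up hμ h p.1 p.2
      (Nat.sub_le n p.1) hn u).trans (le_of_eq ?_)
    rw [Finset.sum_const, Finset.card_product, Finset.card_range, Int.card_Icc, nsmul_eq_mul]
    have : ((n : ℤ) + 1 - -(n : ℤ)).toNat = 2 * n + 1 := by omega
    rw [this]
    push_cast
    ring
  have b4 : (law μ).real A4 ≤ E := Bul_low hμ h hn u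
  have htot : (law μ).real {g | ¬ Gd μ h t u n g} ≤
      (n + 1) * E + ((n + 1) * E + ((n + 1) * (2 * n + 1) * E + E)) := by
    refine (measureReal_mono hsub (measure_ne_top _ _)).trans ?_
    refine (measureReal_union_le _ _).trans (add_le_add b1 ?_)
    refine (measureReal_union_le _ _).trans (add_le_add b2 ?_)
    exact (measureReal_union_le _ _).trans (add_le_add b3 b4)
  refine htot.trans ?_
  have : ((n : ℝ) + 1) * E + ((n + 1) * E + ((n + 1) * (2 * n + 1) * E + E)) =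
      (2 * (n : ℝ) ^ 2 + 5 * n + 4) * E := by ring
  rw [this]
  refine mul_le_mul_of_nonneg_right ?_ hE0.le
  nlinarith

/-! ### Asymptotics -/

lemma Bul_log {ε c : ℝ} (hε : 0 < ε) (hc : 0 < c) :
    ∀ᶠ n : ℕ in atTop, Real.log n ≤ c * (n : ℝ) ^ ε := by
  have h1 := (isLittleO_log_rpow_atTop hε).bound hc
  filter_upwards [tendsto_natCast_atTop_atTop.eventually h1, eventually_ge_atTop 1] with n hn hn1
  rw [Real.norm_eq_abs, Real.norm_eq_abs,
    abs_of_nonneg (Real.rpow_nonneg (Nat.cast_nonneg n) ε)] at hn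
  exact (le_abs_self _).trans hn

lemma Bul_num1 {ε : ℝ} (hε : 0 < ε) (K : ℝ) :
    ∀ᶠ n : ℕ in atTop, K + 3 * (n : ℝ) ^ ε + 3 * Real.log (2 * n + 2) ≤ (n : ℝ) ^ (2 * ε) := by
  have hX : Tendsto (fun n : ℕ => (n : ℝ) ^ ε) atTop atTop :=
    (tendsto_rpow_atTop hε).comp tendsto_natCast_atTop_atTop
  filter_upwards [Bul_log hε one_pos, eventually_ge_atTop 1, hX.eventually_ge_atTop 7,
    hX.eventually_ge_atTop (K + 3 * Real.log 4)] with n h1 h2 h3 h4
  have hn1 : (1 : ℝ) ≤ n := by exact_mod_cast h2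
  have h5 : Real.log (2 * n + 2) ≤ Real.log 4 + Real.log n := by
    rw [← Real.log_mul (by norm_num) (by positivity)]
    exact Real.log_le_log (by positivity) (by linarith)
  have h6 : (n : ℝ) ^ (2 * ε) = (n : ℝ) ^ ε * (n : ℝ) ^ ε := by
    rw [← Real.rpow_add (by linarith)]
    ring_nf
  rw [h6]
  nlinarith

lemma Bul_num2 {ε : ℝ} (hε : 0 < ε) :
    ∀ᶠ n : ℕ in atTop, Real.exp (-(n : ℝ) ^ ε) ≤ 1 / (n : ℝ) ^ 4 := by
  filter_upwards [Bul_log hε (show (0 : ℝ) < 1 / 4 by norm_num), eventually_ge_atTop 1]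
    with n h1 h2
  have hn0 : (0 : ℝ) < n := by exact_mod_cast h2
  have h3 : 1 / (n : ℝ) ^ 4 = Real.exp (-(4 * Real.log n)) := by
    rw [Real.exp_neg, show (4 : ℝ) * Real.log n = ((4 : ℕ) : ℝ) * Real.log n by norm_num,
      Real.exp_nat_mul, Real.exp_log hn0, one_div]
  rw [h3]
  apply Real.exp_le_exp.2
  linarith

/-- If `Λ` has the expansion of order `1 + α` at `h` with slope `v`, then the polymer with tilt `h`
stays in the tube of width `n ^ a` around the direction `v`, for `a > 1/2 + 1/(2(1+α))`. -/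
theorem tube_mass (hμ : EM μ) {h v α a : ℝ} (hα : 0 < α) (hexp : Expd (Lam μ) α h v)
    (ha : 1 / 2 + 1 / (2 * (1 + α)) < a) :
    ∀ᵐ g ∂(law μ), Tendsto (fun n : ℕ => TM g h v ((n : ℝ) ^ a) n) atTop (𝓝 1) := by
  obtain ⟨C0, hC0⟩ := hexp
  set C : ℝ := |C0| with hC
  have hCn : 0 ≤ C := abs_nonneg _
  set τ : ℝ := 1 / (2 * (1 + α)) with hτ
  have hτ0 : 0 < τ := by positivity
  set ε : ℝ := (a - τ - 1 / 2) / 2 with hε
  have hε0 : 0 < ε := by
    rw [hε]
    linarith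
  set tt : ℕ → ℝ := fun n => (n : ℝ) ^ (-τ) with htt
  set uu : ℕ → ℝ := fun n => Real.sqrt n * (n : ℝ) ^ ε with huu
  -- the probability of the bad events is summable
  have hsum : Summable fun n : ℕ => (law μ).real {g | ¬ Gd μ h (tt n) (uu n) n g} := by
    have hg : Summable fun n : ℕ => 32 * Real.exp (Cc μ) * (1 / (n : ℝ) ^ 2) :=
      (Real.summable_one_div_nat_pow.2 (by norm_num)).mul_left _
    refine Summable.of_norm_bounded_eventually_nat hg ?_
    filter_upwards [Bul_num2 hε0, eventually_ge_atTop 1] with n h1 h2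
    have hn0 : (0 : ℝ) < n := by exact_mod_cast h2
    rw [Real.norm_eq_abs, abs_of_nonneg measureReal_nonneg]
    refine (Bul_prob hμ h (tt n) (uu n) h2).trans ?_
    have e1 : uu n / Real.sqrt n = (n : ℝ) ^ ε := by
      rw [huu]
      have : 0 < Real.sqrt n := Real.sqrt_pos.2 hn0
      field_simp
    rw [e1, sub_eq_add_neg, Real.exp_add]
    have h3 : 0 ≤ 32 * Real.exp (Cc μ) * (n : ℝ) ^ 2 := by positivity
    have h4 := mul_le_mul_of_nonneg_left h1 h3
    calc 32 * (n : ℝ) ^ 2 * (Real.exp (Cc μ) * Real.exp (-(n : ℝ) ^ ε))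
        = 32 * Real.exp (Cc μ) * (n : ℝ) ^ 2 * Real.exp (-(n : ℝ) ^ ε) := by ring
      _ ≤ 32 * Real.exp (Cc μ) * (n : ℝ) ^ 2 * (1 / (n : ℝ) ^ 4) := h4
      _ = 32 * Real.exp (Cc μ) * (1 / (n : ℝ) ^ 2) := by field_simp
  have hae : ∀ᵐ g ∂(law μ), ∀ᶠ n : ℕ in atTop, g ∉ {g | ¬ Gd μ h (tt n) (uu n) n g} := by
    refine ae_eventually_notMem ?_
    have e2 : ∀ n : ℕ, (law μ) {g | ¬ Gd μ h (tt n) (uu n) n g} =
        ENNReal.ofReal ((law μ).real {g | ¬ Gd μ h (tt n) (uu n) n g}) := fun n => by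
      rw [ofReal_measureReal]
    simp only [e2]
    exact hsum.tsum_ofReal_ne_top
  filter_upwards [hae] with g hg
  -- the deterministic part
  have hle1 : ∀ n : ℕ, TM g h v ((n : ℝ) ^ a) n ≤ 1 := by
    intro n
    unfold TM
    rw [div_le_one (Z_pos g h 0 0 n)]
    unfold Z
    refine Finset.sum_le_sum fun s _ => ?_
    split_ifs
    · exact le_rfl
    · exact (wt_pos _ _ _ _ _ _).le
  have hlow : ∀ᶠ n : ℕ in atTop, 1 - 1 / (2 * (n : ℝ) + 2) ≤ TM g h v ((n : ℝ) ^ a) n := by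
    filter_upwards [hg, Bul_num1 hε0 (C + Cc μ), eventually_ge_atTop 1] with n h1 h2 h3
    have hgd : Gd μ h (tt n) (uu n) n g := not_not.1 h1
    have hn1 : (1 : ℝ) ≤ n := by exact_mod_cast h3
    have hn0 : (0 : ℝ) < n := by linarith
    have ht0 : 0 < tt n := Real.rpow_pos_of_pos hn0 _
    have ht1 : tt n ≤ 1 := Real.rpow_le_one_of_one_le_of_nonpos hn1 (by linarith)
    have hb0 : 0 ≤ (tt n) ^ (1 + α) := (Real.rpow_pos_of_pos ht0 _).le
    have hE1 : Lam μ (h + tt n) ≤ Lam μ h + v * tt n + C * (tt n) ^ (1 + α) := by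
      have := hC0 (tt n) (by rw [abs_of_pos ht0]; exact ht1)
      rw [abs_of_pos ht0] at this
      have h5 := mul_le_mul_of_nonneg_right (le_abs_self C0) hb0
      linarith
    have hE2 : Lam μ (h + -tt n) ≤ Lam μ h + v * -tt n + C * (tt n) ^ (1 + α) := by
      have := hC0 (-tt n) (by rw [abs_neg, abs_of_pos ht0]; exact ht1)
      rw [abs_neg, abs_of_pos ht0] at this
      have h5 := mul_le_mul_of_nonneg_right (le_abs_self C0) hb0
      linarith
    have h4 := Bul_good (r := (n : ℝ) ^ a) ht0 hgd hCn hb0 hE1 hE2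
    -- the exponent
    have hs : Real.sqrt n = (n : ℝ) ^ (1 / 2 : ℝ) := Real.sqrt_eq_rpow _
    have e1 : (n : ℝ) * (tt n) ^ (1 + α) = Real.sqrt n := by
      rw [hs, htt]
      simp only
      rw [← Real.rpow_mul hn0.le]
      have : -τ * (1 + α) = 1 / 2 - 1 := by
        rw [hτ]
        field_simp
        ring
      rw [this]
      nth_rw 1 [← Real.rpow_one (n : ℝ)]
      rw [← Real.rpow_add hn0]
      congr 1
      ring
    have e2 : tt n * (n : ℝ) ^ a = Real.sqrt n * (n : ℝ) ^ (2 * ε) := by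
      rw [hs, htt]
      simp only
      rw [← Real.rpow_add hn0, ← Real.rpow_add hn0]
      congr 1
      rw [hε]
      ring
    have e3 : (n : ℝ) * (C * (tt n) ^ (1 + α)) + 3 * uu n + eps μ n - tt n * (n : ℝ) ^ a =
        Real.sqrt n * (C + 3 * (n : ℝ) ^ ε + (Real.log (2 * n + 1) + Cc μ) -
          (n : ℝ) ^ (2 * ε)) := by
      have : (n : ℝ) * (C * (tt n) ^ (1 + α)) = C * Real.sqrt n := by
        rw [← e1]
        ring
      rw [this, e2]
      simp only [huu, eps]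
      ring
    have hlog : Real.log (2 * n + 1) ≤ Real.log (2 * n + 2) :=
      Real.log_le_log (by positivity) (by linarith)
    have hlog0 : 0 ≤ Real.log (2 * n + 2) := Real.log_nonneg (by linarith)
    have hsq1 : 1 ≤ Real.sqrt n := Real.one_le_sqrt.2 hn1
    have h5 : C + 3 * (n : ℝ) ^ ε + (Real.log (2 * n + 1) + Cc μ) - (n : ℝ) ^ (2 * ε) ≤
        -(2 * Real.log (2 * n + 2)) := by linarith
    have h6 : (n : ℝ) * (C * (tt n) ^ (1 + α)) + 3 * uu n + eps μ n - tt n * (n : ℝ) ^ a ≤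
        -(2 * Real.log (2 * n + 2)) := by
      rw [e3]
      calc Real.sqrt n * (C + 3 * (n : ℝ) ^ ε + (Real.log (2 * n + 1) + Cc μ) -
            (n : ℝ) ^ (2 * ε)) ≤ Real.sqrt n * -(2 * Real.log (2 * n + 2)) :=
            mul_le_mul_of_nonneg_left h5 (by linarith)
        _ ≤ -(2 * Real.log (2 * n + 2)) := by nlinarith
    have h7 : 2 * ((n : ℝ) + 1) * Real.exp ((n : ℝ) * (C * (tt n) ^ (1 + α)) + 3 * uu n +
        eps μ n - tt n * (n : ℝ) ^ a) ≤ 1 / (2 * n + 2) := by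
      have h8 : Real.exp (-(2 * Real.log (2 * n + 2))) = 1 / (2 * (n : ℝ) + 2) ^ 2 := by
        rw [Real.exp_neg, show (2 : ℝ) * Real.log (2 * n + 2) =
          ((2 : ℕ) : ℝ) * Real.log (2 * n + 2) by norm_num, Real.exp_nat_mul,
          Real.exp_log (by positivity), one_div]
      calc 2 * ((n : ℝ) + 1) * Real.exp ((n : ℝ) * (C * (tt n) ^ (1 + α)) + 3 * uu n +
            eps μ n - tt n * (n : ℝ) ^ a)
          ≤ 2 * ((n : ℝ) + 1) * Real.exp (-(2 * Real.log (2 * n + 2))) :=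
            mul_le_mul_of_nonneg_left (Real.exp_le_exp.2 h6) (by positivity)
        _ = 1 / (2 * n + 2) := by
            rw [h8]
            field_simp
    linarith
  refine tendsto_of_tendsto_of_tendsto_of_le_of_le' ?_ tendsto_const_nhds hlow
    (Eventually.of_forall hle1)
  have h9 : Tendsto (fun n : ℕ => 1 / (2 * (n : ℝ) + 2)) atTop (𝓝 0) := by
    have h10 : Tendsto (fun n : ℕ => 2 * (n : ℝ) + 2) atTop atTop :=
      tendsto_atTop_add_const_right _ _
        (tendsto_natCast_atTop_atTop.const_mul_atTop (by norm_num))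
    simp only [one_div]
    exact h10.inv_tendsto_atTop
  simpa using h9.const_sub 1

end Pool.Agent.W_7d29a1_h46
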