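import Pool.Agent.W_7d29a1_h46.Dim
import Pool.Agent.W_7d29a1_h46.Bul
import Pool.Agent.W_7d29a1_h47.Main

/-!
Transfer between the model on `ℤ^d`, `d = 1`, and the model on `ℤ` of `W_7d29a1_h47` (TASKS).
-/

namespace Pool.Agent.W_7d29a1_h46

open MeasureTheory ProbabilityTheory Filter Topology Pool.Agent.W_MP_7d29a1_pr

variable {Ω : Type*} [MeasurableSpace Ω] {μ : Measure Ω} [IsProbabilityMeasure μ]
  {ρ : Measure ℝ} [IsProbabilityMeasure ρ] {ω : ℕ × Site 1 → Ω → ℝ} {β : ℝ}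

/-- A real number as a vector of `ℝ^1`. -/
noncomputable def tv (x : ℝ) : Vec 1 := EuclideanSpace.single 0 x

/-- The environment on `ℕ × ℤ` of `W_7d29a1_h47`, with `β` absorbed. -/
def toE (β : ℝ) (η : ℕ × Site 1 → ℝ) : W_7d29a1_h47.Env := fun p => β * η (p.1 + 1, fun _ => p.2)

lemma tr_tv_apply (x : ℝ) (i : Fin 1) : tv x i = x := by
  fin_cases i
  simp [tv]

lemma tr_norm (w : Vec 1) : ‖w‖ = |w 0| := by
  rw [EuclideanSpace.norm_eq]
  simp [Real.sqrt_sq_eq_abs]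

lemma tv_isometry : Isometry tv := by
  refine Isometry.of_dist_eq fun x y => ?_
  rw [dist_eq_norm, tr_norm, PiLp.sub_apply, tr_tv_apply, tr_tv_apply, Real.dist_eq]

lemma tv_surjective : Function.Surjective tv := by
  intro w
  refine ⟨w 0, ?_⟩
  ext i
  rw [tr_tv_apply, Subsingleton.elim i 0]

/-- TASK Tr1. Proof: see `map_toEnv` in `W_7d29a1_h47/Main.lean`. -/
lemma mp_toE (hω : IID μ ρ ω) (β : ℝ) :
    MeasurePreserving (fun x => toE β fun p => ω p x) μ
      (W_7d29a1_h47.law (ρ.map fun t => β * t)) := by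
  have h1 : iIndepFun (fun (p : ℕ × ℤ) x => β * ω (p.1 + 1, fun _ => p.2) x) μ := by
    have h2 : iIndepFun (fun (p : ℕ × ℤ) => ω (p.1 + 1, fun _ => p.2)) μ := by
      refine hω.indep.precomp (g := fun p : ℕ × ℤ => ((p.1 + 1, fun _ => p.2) : ℕ × Site 1)) ?_
      rintro ⟨i, y⟩ ⟨j, z⟩ h
      simp only [Prod.mk.injEq, Nat.add_right_cancel_iff] at h
      exact Prod.ext h.1 (congrFun h.2 0)
    exact h2.comp (fun _ u => β * u) fun _ => measurable_const_mul β
  have hm : ∀ p : ℕ × ℤ, Measurable fun x => β * ω (p.1 + 1, fun _ => p.2) x := fun p =>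
    (hω.meas _).const_mul β
  refine ⟨measurable_pi_iff.2 hm, ?_⟩
  have h3 := h1.map_fun_eq_infinitePi_map hm
  have h4 : (fun p : ℕ × ℤ => μ.map fun x => β * ω (p.1 + 1, fun _ => p.2) x) =
      fun _ => ρ.map fun t => β * t := by
    funext p
    rw [← hω.law (p.1 + 1, fun _ => p.2), Measure.map_map (measurable_const_mul β) (hω.meas _)]
    rfl
  rw [h4] at h3
  exact h3

/-- TASK Tr1. Proof: see `EM_of` in `W_7d29a1_h47/Main.lean`. -/
lemma EM_map (hexp : ∀ b : ℝ, Integrable (fun t => Real.exp (b * t)) ρ) (β : ℝ) :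
    W_7d29a1_h47.EM (ρ.map fun t => β * t) :=
  W_7d29a1_h47.EM_of (P := ρ) (X := fun t => t) measurable_id hexp β

/-- The walk on `ℤ^1` of a sign sequence. -/
def tr_e {n : ℕ} (s : Fin n → Bool) : Fin n → Step 1 := fun j => (0, s j)

lemma tr_e_bij (n : ℕ) : Function.Bijective (tr_e : (Fin n → Bool) → Fin n → Step 1) := by
  constructor
  · intro s s' h
    funext j
    exact congrArg Prod.snd (congrFun h j)
  · intro s
    refine ⟨fun j => (s j).2, ?_⟩
    funext j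
    exact Prod.ext (Subsingleton.elim _ _) rfl

lemma tr_pos {n : ℕ} (s : Fin n → Bool) (i : ℕ) :
    pos (tr_e s) i = fun _ => W_7d29a1_h47.walk s i := by
  funext k
  unfold pos W_7d29a1_h47.walk
  rw [Finset.sum_apply]
  refine Finset.sum_congr rfl fun j _ => ?_
  by_cases hj : (j : ℕ) < i
  · rw [if_pos hj, if_pos hj, Subsingleton.elim k 0]
    simp [tr_e, vec]
  · rw [if_neg hj, if_neg hj]
    rfl

lemma tr_pos' {n : ℕ} (s : Fin n → Bool) {i : ℕ} (hi : i ≤ n) :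
    pos (tr_e s) i = fun _ => W_7d29a1_h47.pos (W_7d29a1_h47.ext s) i := by
  rw [tr_pos, W_7d29a1_h47.walk_eq s hi]

lemma tr_wgt (β h : ℝ) {n : ℕ} (η : ℕ × Site 1 → ℝ) (s : Fin n → Bool) :
    wgt β (tv h) η (tr_e s) = W_7d29a1_h47.wt (toE β η) h 0 0 n (W_7d29a1_h47.ext s) := by
  unfold wgt W_7d29a1_h47.wt
  congr 1
  have h1 : inner ℝ (tv h) (emb (pos (tr_e s) n)) =
      h * (W_7d29a1_h47.pos (W_7d29a1_h47.ext s) n : ℝ) := by
    rw [tr_pos' s le_rfl]
    simp [PiLp.inner_apply, emb, tr_tv_apply, mul_comm]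
  have h2 : β * energy η (tr_e s) =
      W_7d29a1_h47.En (toE β η) 0 0 n (W_7d29a1_h47.ext s) := by
    unfold energy W_7d29a1_h47.En toE
    rw [Finset.sum_range fun i => _, Finset.mul_sum]
    refine Finset.sum_congr rfl fun i _ => ?_
    rw [tr_pos' s (by omega)]
    simp
  rw [h1, h2, add_comm]

lemma tr_mem_tube {n : ℕ} (v r : ℝ) (s : Fin n → Bool) :
    tr_e s ∈ tube 1 n (tv v) r ↔
      ∀ i ≤ n, |(W_7d29a1_h47.pos (W_7d29a1_h47.ext s) i : ℝ) - i * v| ≤ r := by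
  change (∀ i ≤ n, _) ↔ _
  refine forall_congr' fun i => forall_congr' fun hi => ?_
  rw [tr_norm, tr_pos' s hi]
  simp [emb, tr_tv_apply]

/-- TASK Tr2. The weights: bijection of `Fin n → Step 1` with `Fin n → Bool` (a step is
`(0, b)`, `vec (0, b) 0 = ±1`), and `sum_T_eq`, `walk_eq`, `weight_eq` of `W_7d29a1_h47/Main.lean`
(`T n` is the set of the `ext s`, `s : Fin n → Bool`). -/
lemma ZT_tube1 (β h v r : ℝ) (η : ℕ × Site 1 → ℝ) (n : ℕ) :
    ZT β (tv h) η (tube 1 n (tv v) r) = TM (toE β η) h v r n * W_7d29a1_h47.Z (toE β η) h 0 0 n := by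
  unfold TM
  rw [div_mul_cancel₀ _ (W_7d29a1_h47.Z_pos _ _ _ _ _).ne', W_7d29a1_h47.sum_T_eq]
  unfold ZT
  rw [← (tr_e_bij n).sum_comp]
  refine Finset.sum_congr rfl fun s _ => ?_
  rw [tr_wgt]
  by_cases hs : tr_e s ∈ tube 1 n (tv v) r
  · rw [if_pos hs, if_pos ((tr_mem_tube v r s).1 hs)]
  · rw [if_neg hs, if_neg fun h' => hs ((tr_mem_tube v r s).2 h')]

/-- TASK Tr2. The total weight. -/
lemma ZT_univ1 (β h : ℝ) (η : ℕ × Site 1 → ℝ) (n : ℕ) :
    ZT β (tv h) η (Set.univ : Set (Fin n → Step 1)) = W_7d29a1_h47.Z (toE β η) h 0 0 n := by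
  unfold W_7d29a1_h47.Z
  rw [W_7d29a1_h47.sum_T_eq]
  unfold ZT
  rw [← (tr_e_bij n).sum_comp]
  refine Finset.sum_congr rfl fun s _ => ?_
  rw [tr_wgt, if_pos (Set.mem_univ _)]

/-- TASK Tr3. Transfer of `tube_mass`. Proof: by `ZT_tube1`, `ZT_univ1` the polymer measure of the
tube is `TM (toE β η) h v (n^a) n`; by `mp_toE` and `tube_mass` it tends to `1` almost surely, so its
liminf is `1` almost surely, and the integral is `1`. -/
theorem nuT_le_of_expd (hω : IID μ ρ ω) (hexp : ∀ b : ℝ, Integrable (fun t => Real.exp (b * t)) ρ)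
    {h v α : ℝ} (hα : 0 < α) (hE : Expd (W_7d29a1_h47.Lam (ρ.map fun t => β * t)) α h v) :
    nuT μ β ω (tv h) (tv v) ≤ 1 / 2 + 1 / (2 * (1 + α)) := by
  have hprob : IsProbabilityMeasure (ρ.map fun t => β * t) :=
    Measure.isProbabilityMeasure_map (measurable_const_mul β).aemeasurable
  refine le_of_forall_gt_imp_ge_of_dense fun a ha => ?_
  have ha0 : 0 < a := lt_trans (by positivity) ha
  have hbdd : BddBelow (nuSetT μ β ω (tv h) (tv v)) := ⟨0, fun b hb => hb.1.le⟩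
  refine csInf_le hbdd ⟨ha0, ?_⟩
  have h1 := (mp_toE hω β).quasiMeasurePreserving.ae (tube_mass (EM_map hexp β) hα hE ha)
  have h2 : ∀ᵐ x ∂μ, Filter.liminf (fun n : ℕ => PolT β (tv h) (fun p => ω p x)
      (tube 1 n (tv v) ((n : ℝ) ^ a))) Filter.atTop = 1 := by
    filter_upwards [h1] with x hx
    have h3 : (fun n : ℕ => PolT β (tv h) (fun p => ω p x) (tube 1 n (tv v) ((n : ℝ) ^ a))) =
        fun n : ℕ => TM (toE β fun p => ω p x) h v ((n : ℝ) ^ a) n := by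
      funext n
      unfold PolT
      rw [ZT_tube1, ZT_univ1, mul_div_cancel_right₀ _ (W_7d29a1_h47.Z_pos _ _ _ _ _).ne']
    rw [h3]
    exact hx.liminf_eq
  rw [integral_congr_ae h2]
  simp

end Pool.Agent.W_7d29a1_h46
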