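import Pool.Agent.W_7d29a1_h46.CurvA

/-!
Tilts at which the free energy is curved (TASKS).
-/

namespace Pool.Agent.W_7d29a1_h46

open MeasureTheory ProbabilityTheory Filter Topology Pool.Agent.W_MP_7d29a1_pr

variable {Ω : Type*} [MeasurableSpace Ω] {μ : Measure Ω} [IsProbabilityMeasure μ]
  {ρ : Measure ℝ} [IsProbabilityMeasure ρ] {ω : ℕ × Site 1 → Ω → ℝ} {β : ℝ}

/-- The real inequality behind `countable_curved`. -/
lemma Curv_num {c C p : ℝ} (hc : 0 < c) (hC : 0 < C) (hp0 : 0 < p) (hp1 : p < 1) :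
    ∃ δ > 0, ∀ x : ℝ, 0 < x → x < δ → C * x ^ (1 / p) < c * x := by
  have hs : 0 < 1 / p - 1 := by
    have : 1 < 1 / p := by
      rw [lt_div_iff₀ hp0]
      linarith
    linarith
  have hcC : 0 < c / C := by positivity
  refine ⟨(c / C) ^ (1 / (1 / p - 1)), Real.rpow_pos_of_pos hcC _, fun x hx hxd => ?_⟩
  have h1 : x ^ (1 / p - 1) < c / C := by
    have h2 : x ^ (1 / p - 1) < ((c / C) ^ (1 / (1 / p - 1))) ^ (1 / p - 1) :=
      Real.rpow_lt_rpow hx.le hxd hs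
    rw [← Real.rpow_mul hcC.le, one_div_mul_cancel hs.ne', Real.rpow_one] at h2
    exact h2
  have h3 : x ^ (1 / p) = x ^ (1 / p - 1) * x := by
    rw [← Real.rpow_add_one hx.ne']
    congr 1
    ring
  rw [h3, ← mul_assoc]
  refine mul_lt_mul_of_pos_right ?_ hx
  rw [lt_div_iff₀ hC] at h1
  linarith

/-- TASK Curv3. Outside a countable set of tilts: if `Λ` is curved at `h` with slope `v`
(`Λ (h+t) ≥ Λ h + v t + c t²` for small `t`) then `ν(h, v) ≥ 3/5`.
Proof. Let `a_k ↑ 3/5`, `a_k > 1/3`, `ε, c` from `fluct`, `κ = min (ε/2) (1/8)`. The set is contained in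
the union over `k, m` of the sets of `h ∈ H_{k,m} = {h | ∃ v, Pc μ β ω κ a_k (m+1) (tv h) (tv v)}`
with the curvature property (`exists_piece`). Let `h ∈ H_{k,m}` not be isolated in `H_{k,m}`, with
direction `v`, and suppose `Λ (h+t) ≥ Λ h + v t + c t²` for `|t| < δ`. For `h' ∈ H_{k,m}` near `h` with
direction `v'`: by `subgrad` at `h'`, `Λ h ≥ Λ h' + v' (h - h')`, hence
`c (h'-h)² ≤ Λ h' - Λ h - v (h'-h) ≤ (v'-v)(h'-h) ≤ C |h'-h|^{1 + 1/p}` by `piece_holder`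
(`‖tv v - tv v'‖ = |v - v'|` by `tv_isometry`), `p = pp 1 a_k < 1`. Contradiction for `h' → h`.
(The direction `v` of `h` is unique: `piece_holder` with `h = h'` gives `v = v'`, and different
exponents are nested.) So `h` is an isolated point of `H_{k,m}`: countable. -/
theorem countable_curved (hω : IID μ ρ ω) (hnc : ∀ c : ℝ, ρ {c} ≠ 1) (hβ : 0 < β)
    (hexp : ∀ b : ℝ, Integrable (fun t => Real.exp (b * t)) ρ) :
    {h : ℝ | ∃ v, nuT μ β ω (tv h) (tv v) < 3 / 5 ∧ ∃ c > 0, ∃ δ > 0, ∀ t : ℝ, |t| < δ →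
      W_7d29a1_h47.Lam (ρ.map fun t => β * t) h + v * t + c * t ^ 2 ≤
        W_7d29a1_h47.Lam (ρ.map fun t => β * t) (h + t)}.Countable := by
  obtain ⟨ε, hε, c0, hc0, hf⟩ := fluct ρ hnc β hβ (hexp β)
  set κ : ℝ := min (ε / 2) (1 / 8) with hκd
  have hκ0 : 0 < κ := lt_min (by positivity) (by norm_num)
  have hκ : κ ≤ 1 / 8 := min_le_right _ _
  have hκε : 2 * κ ≤ ε := by
    have := min_le_left (ε / 2) (1 / 8)
    linarith
  set H : ℚ → ℕ → Set ℝ := fun q m => {h | ∃ v : ℝ, Pc μ β ω κ (q : ℝ) (m + 1) (tv h) (tv v)}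
    with hH
  have hcount : (⋃ (q : ℚ) (m : ℕ),
      {x ∈ H q m | ∃ δ > 0, ∀ y ∈ H q m, |y - x| < δ → y = x}).Countable :=
    Set.countable_iUnion fun q => Set.countable_iUnion fun m => countable_isolated _
  refine hcount.mono ?_
  rintro h ⟨v, hv, c, hc, δ, hδ, hcurv⟩
  obtain ⟨q, hq1, hq2⟩ := exists_rat_btwn (show max (nuT μ β ω (tv h) (tv v)) (1 / 3) < 3 / 5 from
    max_lt hv (by norm_num))
  have hqν : nuT μ β ω (tv h) (tv v) < (q : ℝ) := (le_max_left _ _).trans_lt hq1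
  have hq3 : 1 / 3 < (q : ℝ) := (le_max_right _ _).trans_lt hq1
  obtain ⟨m, hm⟩ := exists_piece (d := 1) one_pos hω.meas hqν hκ0
  have hq0 : 0 < (q : ℝ) := by linarith
  have hq10 : (q : ℝ) < 1 := by linarith
  have had : 1 < (q : ℝ) * (((1 : ℕ) : ℝ) + 2) := by
    push_cast
    linarith
  have hpp0 := pp_pos hq0 hq10 had
  have hpp1 : pp 1 (q : ℝ) < 1 := by
    unfold pp
    rw [div_lt_one (by linarith)]
    refine (min_le_right _ _).trans_lt ?_
    push_cast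
    linarith
  obtain ⟨C, hC, hhol⟩ := piece_holder (d := 1) one_pos hω hc0 hf hκ0 hκ hκε hq0 hq10 had m
  obtain ⟨δ1, hδ1, hnum⟩ := Curv_num hc hC hpp0 hpp1
  refine Set.mem_iUnion.2 ⟨q, Set.mem_iUnion.2 ⟨m, ⟨v, hm⟩, min δ δ1, lt_min hδ hδ1, ?_⟩⟩
  rintro h' ⟨v', hm'⟩ hd
  by_contra hne
  have hx : 0 < |h' - h| := abs_pos.2 (sub_ne_zero.2 hne)
  have h1 := subgrad hω hexp (by linarith : κ < 1) hq10 hm' h
  have h2 := hcurv (h' - h) (hd.trans_le (min_le_left _ _))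
  rw [add_sub_cancel] at h2
  have h3 := hhol _ _ _ _ hm hm'
  have h4 : ‖tv v - tv v'‖ = |v - v'| := by
    rw [← dist_eq_norm, tv_isometry.dist_eq, Real.dist_eq]
  have h5 : ‖tv h - tv h'‖ = |h' - h| := by
    rw [← dist_eq_norm, tv_isometry.dist_eq, Real.dist_eq, abs_sub_comm]
  rw [h4, h5] at h3
  have h6 := hnum _ hx (hd.trans_le (min_le_right _ _))
  have h7 : c * (h' - h) ^ 2 ≤ (v' - v) * (h' - h) := by linarith
  have h8 : (v' - v) * (h' - h) ≤ |v - v'| * |h' - h| := by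
    rw [abs_sub_comm v v', ← abs_mul]
    exact le_abs_self _
  have h9 : c * |h' - h| * |h' - h| ≤ |v - v'| * |h' - h| := by
    rw [mul_assoc, abs_mul_abs_self]
    nlinarith
  have h10 := le_of_mul_le_mul_right h9 hx
  linarith

end Pool.Agent.W_7d29a1_h46
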