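import Pool.Agent.W_7d29a1_h46.Win

/-!
From the window inequality to a Hölder estimate.
-/

namespace Pool.Agent.W_7d29a1_h46

open MeasureTheory ProbabilityTheory Filter Pool.Agent.W_MP_7d29a1_pr

/-- The exponent `max 0 ((1 - a d) / 2)`. -/
noncomputable def ee (d : ℕ) (a : ℝ) : ℝ := max 0 ((1 - a * d) / 2)

/-- The exponent `min (2 a) ((d + 2) a - 1) / (2 (1 - a))`. -/
noncomputable def pp (d : ℕ) (a : ℝ) : ℝ := min (2 * a) (((d : ℝ) + 2) * a - 1) / (2 * (1 - a))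

lemma ee_nonneg (d : ℕ) (a : ℝ) : 0 ≤ ee d a := le_max_left _ _

lemma ee_lt_one (d : ℕ) {a : ℝ} (ha : 0 < a) : ee d a < 1 := by
  unfold ee
  have : 0 ≤ a * d := by positivity
  exact max_lt one_pos (by linarith)

lemma pp_eq (d : ℕ) {a : ℝ} (ha1 : a < 1) : pp d a = (1 - ee d a) / (1 - a) - 1 := by
  have h1 : (0 : ℝ) < 1 - a := by linarith
  unfold pp ee
  rcases le_total 0 ((1 - a * d) / 2) with h | h
  · rw [max_eq_right h, min_eq_right (by nlinarith)]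
    field_simp
    ring
  · rw [max_eq_left h, min_eq_left (by nlinarith)]
    field_simp
    ring

lemma pp_pos {d : ℕ} {a : ℝ} (ha0 : 0 < a) (ha1 : a < 1) (had : 1 < a * ((d : ℝ) + 2)) :
    0 < pp d a := by
  unfold pp
  refine div_pos (lt_min (by linarith) (by linarith)) (by linarith)

/-- The window inequality in terms of powers. -/
lemma pow_form {d : ℕ} {a c : ℝ} (ha0 : 0 < a) (hc : 0 < c) :
    ∃ c' > 0, ∀ (n : ℕ) (y : ℝ), 1 ≤ n →
      c * ((n - n / 2 : ℕ) : ℝ) ≤ 5 / 2 * y * Real.sqrt (n * (2 * (n : ℝ) ^ a + 1) ^ d) →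
      4 / 5 ≤ y → c' * (n : ℝ) ^ ee d a ≤ y := by
  set c1 : ℝ := c / (5 * Real.sqrt (3 ^ d)) with hc1
  have h3 : 0 < Real.sqrt ((3 : ℝ) ^ d) := Real.sqrt_pos.2 (by positivity)
  have hc1p : 0 < c1 := by positivity
  refine ⟨min c1 (4 / 5), lt_min hc1p (by norm_num), fun n y hn hw hy => ?_⟩
  have hn1 : (1 : ℝ) ≤ n := by exact_mod_cast hn
  have hn0 : (0 : ℝ) < n := by linarith
  have hy0 : 0 < y := by linarith
  unfold ee
  rcases le_total 0 ((1 - a * d) / 2) with h | h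
  · rw [max_eq_right h]
    have hna : 1 ≤ (n : ℝ) ^ a := Real.one_le_rpow hn1 ha0.le
    have e1 : (n : ℝ) * (2 * (n : ℝ) ^ a + 1) ^ d ≤ 3 ^ d * (n : ℝ) ^ (1 + a * d) := by
      have e2 : (2 * (n : ℝ) ^ a + 1) ^ d ≤ (3 * (n : ℝ) ^ a) ^ d :=
        pow_le_pow_left₀ (by positivity) (by linarith) d
      have e3 : (n : ℝ) ^ (1 + a * d) = n * ((n : ℝ) ^ a) ^ d := by
        rw [Real.rpow_add hn0, Real.rpow_one, Real.rpow_mul hn0.le, Real.rpow_natCast]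
      rw [e3]
      calc (n : ℝ) * (2 * (n : ℝ) ^ a + 1) ^ d ≤ n * (3 * (n : ℝ) ^ a) ^ d :=
            mul_le_mul_of_nonneg_left e2 hn0.le
        _ = 3 ^ d * (n * ((n : ℝ) ^ a) ^ d) := by rw [mul_pow]; ring
    have e4 : Real.sqrt (n * (2 * (n : ℝ) ^ a + 1) ^ d) ≤
        Real.sqrt (3 ^ d) * (n : ℝ) ^ ((1 + a * d) / 2) := by
      refine (Real.sqrt_le_sqrt e1).trans (le_of_eq ?_)
      rw [Real.sqrt_mul (by positivity), Real.sqrt_eq_rpow ((n : ℝ) ^ (1 + a * d)),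
        ← Real.rpow_mul hn0.le]
      ring_nf
    have e5 : (n : ℝ) / 2 ≤ ((n - n / 2 : ℕ) : ℝ) := by
      have : n ≤ 2 * (n - n / 2) := by omega
      have h' : (n : ℝ) ≤ 2 * ((n - n / 2 : ℕ) : ℝ) := by exact_mod_cast this
      linarith
    have e6 : c * (n / 2) ≤ 5 / 2 * y * (Real.sqrt (3 ^ d) * (n : ℝ) ^ ((1 + a * d) / 2)) :=
      (mul_le_mul_of_nonneg_left e5 hc.le).trans
        (hw.trans (mul_le_mul_of_nonneg_left e4 (by positivity)))
    have e7 : (n : ℝ) = (n : ℝ) ^ ((1 - a * d) / 2) * (n : ℝ) ^ ((1 + a * d) / 2) := by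
      rw [← Real.rpow_add hn0]
      have : (1 - a * d) / 2 + (1 + a * d) / 2 = 1 := by ring
      rw [this, Real.rpow_one]
    have hpw : 0 < (n : ℝ) ^ ((1 + a * d) / 2) := Real.rpow_pos_of_pos hn0 _
    have e8 : c * ((n : ℝ) ^ ((1 - a * d) / 2) / 2) * (n : ℝ) ^ ((1 + a * d) / 2) ≤
        5 / 2 * y * Real.sqrt (3 ^ d) * (n : ℝ) ^ ((1 + a * d) / 2) := by
      calc c * ((n : ℝ) ^ ((1 - a * d) / 2) / 2) * (n : ℝ) ^ ((1 + a * d) / 2)
          = c * ((n : ℝ) ^ ((1 - a * d) / 2) * (n : ℝ) ^ ((1 + a * d) / 2) / 2) := by ring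
        _ = c * (n / 2) := by rw [← e7]
        _ ≤ 5 / 2 * y * (Real.sqrt (3 ^ d) * (n : ℝ) ^ ((1 + a * d) / 2)) := e6
        _ = _ := by ring
    have e9 := le_of_mul_le_mul_right e8 hpw
    have e10 : c1 * (n : ℝ) ^ ((1 - a * d) / 2) ≤ y := by
      rw [hc1, div_mul_eq_mul_div, div_le_iff₀ (by positivity)]
      linarith
    exact (mul_le_mul_of_nonneg_right (min_le_left _ _) (Real.rpow_nonneg hn0.le _)).trans e10
  · rw [max_eq_left h, Real.rpow_zero, mul_one]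
    exact (min_le_right _ _).trans hy

/-- From the window inequality to the Hölder estimate. -/
theorem holder_num {d : ℕ} {a c : ℝ} {m : ℕ} (hm : 1 ≤ m) (ha0 : 0 < a) (ha1 : a < 1)
    (had : 1 < a * ((d : ℝ) + 2)) (hc : 0 < c) :
    ∃ C : ℝ, 0 < C ∧ ∀ x t : ℝ, 0 ≤ x → 0 < t → t ≤ 2 * m →
      (∀ n : ℕ, m ≤ n → 8 * (n : ℝ) ^ a ≤ n * t → c * (n : ℝ) ^ ee d a ≤ n * x * t) →
      t ≤ C * x ^ (1 / pp d a) := by
  have h1a : (0 : ℝ) < 1 - a := by linarith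
  have hm1 : (1 : ℝ) ≤ m := by exact_mod_cast hm
  have hpp := pp_pos ha0 ha1 had
  have hee := ee_lt_one d ha0
  set y0 : ℝ := (4 / (m : ℝ)) ^ (1 / (1 - a)) with hy0
  have hy0p : 0 < y0 := Real.rpow_pos_of_pos (by positivity) _
  set K : ℝ := 1 + (1 + m) / y0 with hK
  have hKp : 0 < K := by positivity
  set c2 : ℝ := c * (K ^ (ee d a - 1) * 8 ^ ((ee d a - 1) / (1 - a))) with hc2
  have hc2p : 0 < c2 := mul_pos hc (mul_pos (Real.rpow_pos_of_pos hKp _)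
    (Real.rpow_pos_of_pos (by norm_num) _))
  refine ⟨(1 / c2) ^ (1 / pp d a), Real.rpow_pos_of_pos (by positivity) _,
    fun x t hx ht htm hw => ?_⟩
  set x0 : ℝ := (8 / t) ^ (1 / (1 - a)) with hx0
  have h8t : 0 < 8 / t := by positivity
  have hx0p : 0 < x0 := Real.rpow_pos_of_pos h8t _
  have hx0y : y0 ≤ x0 := by
    refine Real.rpow_le_rpow (by positivity) ?_ (by positivity)
    rw [div_le_div_iff₀ (by positivity) ht]
    linarith
  set n : ℕ := ⌈x0⌉₊ + m with hn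
  have hnm : m ≤ n := Nat.le_add_left _ _
  have hnx : x0 ≤ n := by
    rw [hn]
    push_cast
    have := Nat.le_ceil x0
    linarith
  have hn0 : (0 : ℝ) < n := lt_of_lt_of_le hx0p hnx
  have hnK : (n : ℝ) ≤ K * x0 := by
    have h1 : (n : ℝ) ≤ x0 + 1 + m := by
      rw [hn]
      push_cast
      have := (Nat.ceil_lt_add_one hx0p.le).le
      linarith
    have h2 : (1 + (m : ℝ)) ≤ (1 + m) / y0 * x0 := by
      rw [div_mul_eq_mul_div, le_div_iff₀ hy0p]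
      exact mul_le_mul_of_nonneg_left hx0y (by positivity)
    rw [hK, add_mul, one_mul]
    linarith
  have hfar : 8 * (n : ℝ) ^ a ≤ n * t := by
    have h1 : 8 / t ≤ (n : ℝ) ^ (1 - a) := by
      have h2 : x0 ^ (1 - a) = 8 / t := by
        rw [hx0, ← Real.rpow_mul h8t.le]
        have : 1 / (1 - a) * (1 - a) = 1 := by field_simp
        rw [this, Real.rpow_one]
      rw [← h2]
      exact Real.rpow_le_rpow hx0p.le hnx h1a.le
    have h3 : (n : ℝ) = (n : ℝ) ^ (1 - a) * (n : ℝ) ^ a := by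
      rw [← Real.rpow_add hn0]
      simp
    have h4 : 8 ≤ (n : ℝ) ^ (1 - a) * t := by
      rwa [div_le_iff₀ ht] at h1
    have h5 : 0 < (n : ℝ) ^ a := Real.rpow_pos_of_pos hn0 _
    calc 8 * (n : ℝ) ^ a ≤ ((n : ℝ) ^ (1 - a) * t) * (n : ℝ) ^ a :=
          mul_le_mul_of_nonneg_right h4 h5.le
      _ = ((n : ℝ) ^ (1 - a) * (n : ℝ) ^ a) * t := by ring
      _ = n * t := by rw [← h3]
  have h1 := hw n hnm hfar
  -- divide by `n`
  have h2 : c * (n : ℝ) ^ (ee d a - 1) ≤ x * t := by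
    rw [Real.rpow_sub_one hn0.ne', ← mul_div_assoc, div_le_iff₀ hn0]
    linarith
  have h3 : (K * x0) ^ (ee d a - 1) ≤ (n : ℝ) ^ (ee d a - 1) :=
    Real.rpow_le_rpow_of_nonpos hn0 hnK (by linarith)
  have h4 : (K * x0) ^ (ee d a - 1) =
      K ^ (ee d a - 1) * 8 ^ ((ee d a - 1) / (1 - a)) * t ^ (pp d a + 1) := by
    rw [Real.mul_rpow hKp.le hx0p.le, hx0, ← Real.rpow_mul h8t.le, mul_assoc]
    congr 1
    rw [div_eq_mul_inv, Real.mul_rpow (by norm_num) (by positivity)]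
    have e1 : 1 / (1 - a) * (ee d a - 1) = (ee d a - 1) / (1 - a) := by ring
    rw [e1]
    congr 1
    rw [← Real.rpow_neg_one, ← Real.rpow_mul ht.le, pp_eq d ha1]
    congr 1
    ring
  have h5 : c2 * t ^ (pp d a + 1) ≤ x * t := by
    calc c2 * t ^ (pp d a + 1) = c * (K * x0) ^ (ee d a - 1) := by rw [h4, hc2]; ring
      _ ≤ c * (n : ℝ) ^ (ee d a - 1) := mul_le_mul_of_nonneg_left h3 hc.le
      _ ≤ x * t := h2
  have h6 : c2 * t ^ pp d a ≤ x := by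
    rw [Real.rpow_add_one ht.ne', ← mul_assoc] at h5
    exact le_of_mul_le_mul_right h5 ht
  have h7 : t ^ pp d a ≤ 1 / c2 * x := by
    rw [one_div, inv_mul_eq_div, le_div_iff₀ hc2p]
    linarith
  have h8 : (t ^ pp d a) ^ (1 / pp d a) ≤ (1 / c2 * x) ^ (1 / pp d a) :=
    Real.rpow_le_rpow (Real.rpow_nonneg ht.le _) h7 (by positivity)
  rw [← Real.rpow_mul ht.le, mul_one_div_cancel hpp.ne', Real.rpow_one,
    Real.mul_rpow (by positivity) hx] at h8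
  exact h8

end Pool.Agent.W_7d29a1_h46
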